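import Pool.Agent.P.MP_c1f06d_ag.u.GF

open Matrix

universe u

namespace Pool.Agent.GU

variable {R : Type u} [CommRing R]

/-- The product on `T ^ 8` whose `k`-th coordinate is `xᵀ (c k) y`. -/
def octMul (c : Fin 8 → Matrix (Fin 8) (Fin 8) R) (T : Type u) [CommRing T] [Algebra R T]
    (x y : Fin 8 → T) : Fin 8 → T :=
  fun k => x ⬝ᵥ (c k).map (algebraMap R T) *ᵥ y

/-- `R ^ 8` with this product is an octonion algebra: it has a unit, and a multiplicative quadratic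
form `x ↦ xᵀ Q x` with unimodular polar form. -/
def IsOctonion (c : Fin 8 → Matrix (Fin 8) (Fin 8) R) : Prop :=
  ∃ (e : Fin 8 → R) (Q : Matrix (Fin 8) (Fin 8) R), IsUnit (Q + Qᵀ).det ∧
    (∀ x, octMul c R e x = x ∧ octMul c R x e = x) ∧
    ∀ x y, octMul c R x y ⬝ᵥ Q *ᵥ octMul c R x y = (x ⬝ᵥ Q *ᵥ x) * (y ⬝ᵥ Q *ᵥ y)

/-- The automorphisms of the algebra `T ^ 8`. -/
structure G2Pt (c : Fin 8 → Matrix (Fin 8) (Fin 8) R) (T : Type u) [CommRing T] [Algebra R T] where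
  val : Matrix (Fin 8) (Fin 8) T
  isUnit : IsUnit val.det
  map_mul : ∀ x y, val *ᵥ octMul c T x y = octMul c T (val *ᵥ x) (val *ᵥ y)

/-- The automorphism group of the algebra with structure constants `c`. -/
def g2GF (c : Fin 8 → Matrix (Fin 8) (Fin 8) R) : GF R where
  Ch _ _ _ := PUnit
  Pt T _ _ _ := G2Pt c T
  IsOne _ _ _ _ x := x.val = 1
  IsMul _ _ _ _ z x y := z.val = x.val * y.val
  IsMap _ _ _ _ _ _ _ _ f x x' := x'.val = x.val.map f

/-- `G` is the automorphism group of an octonion algebra. -/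
def IsTypeG (G : GF R) : Prop :=
  ∃ c : Fin 8 → Matrix (Fin 8) (Fin 8) R, IsOctonion c ∧ G = g2GF c

end Pool.Agent.GU
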