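import Pool.Agent.P.MP_c1f06d_ag.u.GF
import Pool.Agent.P.MP_c1f06d_ag.su.Stmt
import Pool.Agent.P.MP_c1f06d_ag.su.CStmt
import Pool.Agent.P.MP_c1f06d_ag.d.Stmt

open Matrix Pool.Agent.P.MP_c1f06d_ag Pool.Agent.SU Pool.Agent.SU.C Pool.Agent.GSD

universe u

namespace Pool.Agent.GU

variable {R : Type u} [CommRing R]

/-- The special unitary group `SU(B, τ)`. -/
noncomputable def suGF {B : Type u} [Ring B] [Algebra R B] (τ : B →ₗ[R] B) (d : ℕ) : GF R where
  Ch _ _ _ := PUnit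
  Pt T _ _ _ := SUPt τ d T
  IsOne _ _ _ _ x := x.val = 1
  IsMul _ _ _ _ z x y := z.val = x.val * y.val
  IsMap _ _ _ _ _ _ _ _ f x x' := x'.val = extend f x.val

/-- The symplectic group `Sp(B, σ)`. -/
noncomputable def spGF {B : Type u} [Ring B] [Algebra R B] (σ : B →ₗ[R] B) : GF R where
  Ch _ _ _ := PUnit
  Pt T _ _ _ := SpPt σ T
  IsOne _ _ _ _ x := x.val = 1
  IsMul _ _ _ _ z x y := z.val = x.val * y.val
  IsMap _ _ _ _ _ _ _ _ f x x' := x'.val = extend f x.val

/-- The spin group of the quadratic form `x ↦ xᵀ Q x`. -/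
noncomputable def spinGF {m : ℕ} (Q : Matrix (Fin m) (Fin m) R) : GF R where
  Ch _ _ _ := PUnit
  Pt T _ _ _ := SpinPt Q T
  IsOne _ _ _ _ x := x.val = 1
  IsMul _ _ _ _ z x y := z.val = x.val * y.val
  IsMap T T' _ _ _ _ _ _ f x x' :=
    Sends (formOver Q T) (formOver Q T') f (fun v => f ∘ v) x.val x'.val

variable (R) in
/-- The spin group of a quadratic pair, read in the splittings of the pair. -/
noncomputable def pairGF {A : Type u} [Ring A] [StarRing A] [Algebra R A] (l : A) (d : ℕ) :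
    GF R where
  Ch T _ _ := Splitting R l d T
  Pt _ _ _ s := s.Pt
  IsOne _ _ _ _ x := x.val = 1
  IsMul _ _ _ _ z x y := z.val = x.val * y.val
  IsMap _ T' _ _ _ _ s s' f x x' := ∃ h : Matrix (Fin d) (Fin d) T',
    s.IsHom s' f h ∧ Sends s.form s'.form f (fun v => h *ᵥ (f ∘ v)) x.val x'.val

/-- The projective quadric of `x ↦ xᵀ Q x` is smooth. -/
def SmoothQuadric {m : ℕ} (Q : Matrix (Fin m) (Fin m) R) : Prop :=
  ∀ (k : Type u) [Field k] (f : R →+* k) (x : Fin m → k),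
    x ⬝ᵥ Q.map f *ᵥ x = 0 → (Q.map f + (Q.map f)ᵀ) *ᵥ x = 0 → x = 0

/-- `G` is a special unitary group. -/
def IsTypeA (G : GF R) : Prop :=
  ∃ (B : Type u) (_ : Ring B) (_ : Algebra R B) (τ : B →ₗ[R] B) (d : ℕ),
    0 < d ∧ IsUnitaryAlgebra τ d ∧ G = suGF τ d

/-- `G` is a symplectic group. -/
def IsTypeC (G : GF R) : Prop :=
  ∃ (B : Type u) (_ : Ring B) (_ : Algebra R B) (σ : B →ₗ[R] B), IsSymplectic σ ∧ G = spGF σ

/-- `G` is the spin group of a form of rank at least five with smooth quadric. -/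
def IsTypeB (G : GF R) : Prop :=
  ∃ (m : ℕ) (Q : Matrix (Fin m) (Fin m) R), 5 ≤ m ∧ SmoothQuadric Q ∧ G = spinGF Q

/-- `G` is the spin group of a quadratic pair of degree at least six on an Azumaya algebra. -/
def IsTypeD (G : GF R) : Prop :=
  ∃ (A : Type u) (_ : Ring A) (_ : StarRing A) (_ : Algebra R A) (l : A) (n : ℕ),
    IsAzumaya R A ∧ 3 ≤ n ∧ IsQuadPair R l (2 * n) ∧ G = pairGF R l (2 * n)

/-- `G` is the Weil restriction of a spin group along a connected finite etale `R`-algebra. -/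
def IsWeilSpin (G : GF R) : Prop :=
  ∃ (Z : Type u) (_ : CommRing Z) (_ : Algebra R Z) (H : GF Z), IsDomain Z ∧ Module.Finite R Z ∧
    Algebra.Etale R Z ∧ (IsTypeB H ∨ IsTypeD H) ∧ G = H.weil R

/-- The finite products of groups of the above kinds. -/
inductive IsClassical : GF R → Prop
  | typeA {G : GF R} : IsTypeA G → IsClassical G
  | typeC {G : GF R} : IsTypeC G → IsClassical G
  | spin {G : GF R} : IsWeilSpin G → IsClassical G
  | prod {G H : GF R} : IsClassical G → IsClassical H → IsClassical (G.prod H)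

end Pool.Agent.GU
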