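import Pool.Agent.P.MP_c1f06d_ag.u.Short
import Pool.Agent.P.MP_c1f06d_ag.u.Stmt
import Pool.Agent.P.MP_c1f06d_ag.u.G2Def

open Matrix TensorProduct CliffordAlgebra Pool.Agent.P.MP_c1f06d_ag

universe u

namespace Pool.Agent.GUS

variable {R : Type u} [CommRing R]

/-- Charts and points of `H` are read as charts and points of `G`. -/
structure Sim (G : GF R) (H : GU.GF R) where
  ch : ∀ (T : Type u) [CommRing T] [Algebra R T], H.Ch T → G.Ch T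
  e : ∀ (T : Type u) [CommRing T] [Algebra R T] (c : H.Ch T), H.Pt T c → G.M T (ch T c)
  inj : ∀ (T : Type u) [CommRing T] [Algebra R T] (c : H.Ch T), Function.Injective (e T c)
  mem : ∀ (T : Type u) [CommRing T] [Algebra R T] (c : H.Ch T) x, G.In T (ch T c) (e T c x)
  onto : ∀ (T : Type u) [CommRing T] [Algebra R T] (c : H.Ch T) y,
    G.In T (ch T c) y → ∃ x, e T c x = y
  one : ∀ (T : Type u) [CommRing T] [Algebra R T] (c : H.Ch T) x,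
    H.IsOne T c x → e T c x = G.one T (ch T c)
  mul : ∀ (T : Type u) [CommRing T] [Algebra R T] (c : H.Ch T) z x y,
    H.IsMul T c z x y → e T c z = G.mul T (ch T c) (e T c x) (e T c y)
  map : ∀ (T T' : Type u) [CommRing T] [Algebra R T] [CommRing T'] [Algebra R T'] (c : H.Ch T)
    (c' : H.Ch T') (f : T →ₐ[R] T') x x',
    H.IsMap T T' c c' f x x' → G.IsMap T T' (ch T c) (ch T' c') f (e T c x) (e T' c' x')

variable {G G' : GF R} {H H' : GU.GF R}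

theorem Sim.isTorsor (s : Sim G H) {E : Type u} [CommRing E] [Algebra R E] (h : G.IsTorsor E) :
    H.IsTorsor E := by
  obtain ⟨h0, act, h⟩ := h
  refine ⟨h0, fun T _ _ c x e => act T (s.ch T c) (s.e T c x) e, ?_, ?_, ?_⟩
  · intro T _ _ c e
    refine ⟨fun x hx => ?_, fun z x y hz => ?_⟩
    · show act T _ (s.e T c x) e = e
      rw [s.one T c x hx]
      exact (h T _ e).1
    · show act T _ (s.e T c z) e = _
      rw [s.mul T c z x y hz]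
      exact (h T _ e).2.1 _ _ (s.mem T c x) (s.mem T c y)
  · intro T T' _ _ _ _ c c' f x x' e hx
    exact (h T _ e).2.2.2 T' _ f _ _ (s.mem T c x) (s.mem T' c' x') (s.map T T' c c' f x x' hx)
  · intro T _ _ c e e'
    obtain ⟨y, ⟨hy, hy'⟩, hu⟩ := (h T (s.ch T c) e).2.2.1 e'
    obtain ⟨x, rfl⟩ := s.onto T c y hy
    exact ⟨x, hy', fun z hz => s.inj T c (hu _ ⟨s.mem T c z, hz⟩)⟩

/-- Products. -/
def Sim.prod (s : Sim G H) (t : Sim G' H') : Sim (G.prod G') (H.prod H') where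
  ch T _ _ c := (s.ch T c.1, t.ch T c.2)
  e T _ _ c x := (s.e T c.1 x.1, t.e T c.2 x.2)
  inj T _ _ c _ _ h :=
    Prod.ext (s.inj T c.1 (congrArg Prod.fst h)) (t.inj T c.2 (congrArg Prod.snd h))
  mem T _ _ c x := ⟨s.mem T c.1 x.1, t.mem T c.2 x.2⟩
  onto T _ _ c y h := by
    obtain ⟨a, ha⟩ := s.onto T c.1 y.1 h.1
    obtain ⟨b, hb⟩ := t.onto T c.2 y.2 h.2
    exact ⟨(a, b), Prod.ext ha hb⟩
  one T _ _ c x h := Prod.ext (s.one T c.1 x.1 h.1) (t.one T c.2 x.2 h.2)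
  mul T _ _ c z x y h := Prod.ext (s.mul T c.1 z.1 x.1 y.1 h.1) (t.mul T c.2 z.2 x.2 y.2 h.2)
  map T T' _ _ _ _ c c' f x x' h :=
    ⟨s.map T T' c.1 c'.1 f x.1 x'.1 h.1, t.map T T' c.2 c'.2 f x.2 x'.2 h.2⟩

/-- Weil restrictions. -/
noncomputable def Sim.weil {Z : Type u} [CommRing Z] [Algebra R Z] {G : GF Z} {H : GU.GF Z}
    (s : Sim G H) : Sim (G.weil R) (H.weil R) where
  ch T _ _ c := s.ch (Z ⊗[R] T) c
  e T _ _ c := s.e (Z ⊗[R] T) c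
  inj T _ _ c := s.inj (Z ⊗[R] T) c
  mem T _ _ c := s.mem (Z ⊗[R] T) c
  onto T _ _ c := s.onto (Z ⊗[R] T) c
  one T _ _ c x h := s.one (Z ⊗[R] T) c x h
  mul T _ _ c z x y h := s.mul (Z ⊗[R] T) c z x y h
  map T T' _ _ _ _ c c' f x x' h := s.map (Z ⊗[R] T) (Z ⊗[R] T') c c' (GU.weilMap Z f) x x' h

section
variable {B : Type u} [Ring B] [Algebra R B]

theorem extend_eq {T T' : Type u} [CommRing T] [Algebra R T] [CommRing T'] [Algebra R T']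
    (f : T →ₐ[R] T') (x : T ⊗[R] B) : SU.extend f x = f.toLinearMap.rTensor B x := by
  unfold SU.extend
  induction x with
  | zero => simp
  | tmul a b => simp
  | add a b ha hb => rw [map_add, map_add, ha, hb]

theorem nrdOne_iff (τ : B →ₗ[R] B) (d : ℕ) {T : Type u} [CommRing T] [Algebra R T]
    (x : T ⊗[R] B) : SU.NrdOne τ d x ↔ NrdOne τ d T x := by
  constructor
  · intro h T' _ _ f n φ hφ i
    have := h T' f n φ hφ i
    rw [extend_eq] at this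
    exact this
  · intro h T' _ _ f n φ hφ i
    have := h T' f n φ hφ i
    rw [extend_eq]
    exact this

/-- Type A. -/
noncomputable def simSU (τ : B →ₗ[R] B) (d : ℕ) : Sim (unitGF τ (NrdOne τ d)) (GU.suGF τ d) where
  ch _ _ _ c := c
  e _ _ _ _ x := x.val
  inj _ _ _ _ x y h := by cases x; cases y; cases h; rfl
  mem _ _ _ _ x := ⟨x.unitary.2, x.unitary.1, (nrdOne_iff τ d _).1 x.nrdOne⟩
  onto _ _ _ _ y h := ⟨⟨y, ⟨h.2.1, h.1⟩, (nrdOne_iff τ d _).2 h.2.2⟩, rfl⟩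
  one _ _ _ _ _ h := h
  mul _ _ _ _ _ _ _ h := h
  map _ _ _ _ _ _ _ _ f x _ h := Eq.trans h (extend_eq f x.val)

/-- Type C. -/
noncomputable def simSp (σ : B →ₗ[R] B) : Sim (unitGF σ fun _ _ _ _ => True) (GU.spGF σ) where
  ch _ _ _ c := c
  e _ _ _ _ x := x.val
  inj _ _ _ _ x y h := by cases x; cases y; cases h; rfl
  mem _ _ _ _ x := ⟨x.inSp.1, x.inSp.2, trivial⟩
  onto _ _ _ _ y h := ⟨⟨y, h.1, h.2.1⟩, rfl⟩
  one _ _ _ _ _ h := h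
  mul _ _ _ _ _ _ _ h := h
  map _ _ _ _ _ _ _ _ f x _ h := Eq.trans h (extend_eq f x.val)

end

/-- Type B. -/
noncomputable def simSpin {m : ℕ} (Q : Matrix (Fin m) (Fin m) R) :
    Sim (spinGF Q) (GU.spinGF Q) where
  ch _ _ _ c := c
  e _ _ _ _ x := x.val
  inj _ _ _ _ x y h := by cases x; cases y; cases h; rfl
  mem _ _ _ _ x := ⟨x.inSpin.1, x.inSpin.2.1.1, x.inSpin.2.1.2, x.inSpin.2.2.1, x.inSpin.2.2.2⟩
  onto _ _ _ _ y h := ⟨⟨y, h.1, ⟨h.2.1, h.2.2.1⟩, h.2.2.2.1, h.2.2.2.2⟩, rfl⟩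
  one _ _ _ _ _ h := h
  mul _ _ _ _ _ _ _ h := h
  map _ _ _ _ _ _ _ _ _ _ _ h := h

/-- Type D. -/
noncomputable def simPair {A : Type u} [Ring A] [StarRing A] [Algebra R A] (l : A) (d : ℕ) :
    Sim (pairGF R l d) (GU.pairGF R l d) where
  ch _ _ _ s := ⟨s.φ, s.Q, s.baseChange, s.regular, s.adjoint, s.semitrace⟩
  e _ _ _ _ x := x.val
  inj _ _ _ _ x y h := by cases x; cases y; cases h; rfl
  mem _ _ _ _ x := ⟨x.inSpin.1, x.inSpin.2.1.1, x.inSpin.2.1.2, x.inSpin.2.2.1, x.inSpin.2.2.2⟩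
  onto _ _ _ _ y h := ⟨⟨y, h.1, ⟨h.2.1, h.2.2.1⟩, h.2.2.2.1, h.2.2.2.2⟩, rfl⟩
  one _ _ _ _ _ h := h
  mul _ _ _ _ _ _ _ h := h
  map _ _ _ _ _ _ _ _ _ _ _ h := by
    obtain ⟨g, h0, h1⟩ := h
    exact ⟨g, h0.1, h0.2, h1⟩

/-- Type G. -/
def simOct (c : Fin 8 → Matrix (Fin 8) (Fin 8) R) : Sim (autGF c) (GU.g2GF c) where
  ch _ _ _ c := c
  e _ _ _ _ x := x.val
  inj _ _ _ _ x y h := by cases x; cases y; cases h; rfl
  mem _ _ _ _ x := ⟨x.isUnit, x.map_mul⟩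
  onto _ _ _ _ y h := ⟨⟨y, h.1, h.2⟩, rfl⟩
  one _ _ _ _ _ h := h
  mul _ _ _ _ _ _ _ h := h
  map _ _ _ _ _ _ _ _ _ _ _ h := h

theorem octMul_eq (c : Fin 8 → Matrix (Fin 8) (Fin 8) R) : GU.octMul c R = octMul c := by
  funext x y k
  simp [GU.octMul, octMul]

/-- From the short statement to the working definitions. -/
theorem Family.elim (P : GU.GF R → Prop) (hA : ∀ H, GU.IsTypeA H → P H)
    (hC : ∀ H, GU.IsTypeC H → P H)
    (hW : ∀ (Z : Type u) [CommRing Z] [IsDomain Z] [Algebra R Z] [Module.Finite R Z]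
      [Algebra.Etale R Z] (H : GU.GF Z),
      GU.IsTypeB H ∨ GU.IsTypeD H ∨ GU.IsTypeG H → P (H.weil R))
    (hP : ∀ H H', P H → P H' → P (H.prod H')) (h : Family G) :
    ∃ H : GU.GF R, P H ∧ Nonempty (Sim G H) := by
  induction h with
  | su B τ d n S φ hd h1 h2 h3 =>
    exact ⟨_, hA _ ⟨B, _, _, τ, d, hd, ⟨⟨h1, h2⟩, S, _, _, inferInstance, n, φ, h3⟩, rfl⟩,
      ⟨simSU τ d⟩⟩
  | sp B σ r n S φ h =>
    exact ⟨_, hC _ ⟨B, _, _, σ, ⟨S, _, _, r, n, inferInstance, φ, fun x => funext (h x)⟩, rfl⟩,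
      ⟨simSp σ⟩⟩
  | spin Z m Q hm hQ =>
    exact ⟨_, hW Z _ (Or.inl ⟨m, Q, hm, hQ, rfl⟩), ⟨(simSpin Q).weil⟩⟩
  | pair Z A l n S hn h1 h2 s =>
    exact ⟨_, hW Z _ (Or.inr (Or.inl ⟨A, _, _, _, l, n, inferInstance, hn, ⟨h1, h2, S, _, _,
      inferInstance, ⟨⟨s.φ, s.Q, s.baseChange, s.regular, s.adjoint, s.semitrace⟩⟩⟩, rfl⟩)),
      ⟨(simPair l (2 * n)).weil⟩⟩
  | oct Z c e Q h1 h2 h3 =>
    exact ⟨_, hW Z _ (Or.inr (Or.inr ⟨c, ⟨e, Q, h1, by rw [octMul_eq]; exact h2,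
      by rw [octMul_eq]; exact h3⟩, rfl⟩)), ⟨(simOct c).weil⟩⟩
  | prod G G' _ _ ih ih' =>
    obtain ⟨H, h1, ⟨s⟩⟩ := ih
    obtain ⟨H', h2, ⟨t⟩⟩ := ih'
    exact ⟨_, hP _ _ h1 h2, ⟨s.prod t⟩⟩

theorem bridge (P : GU.GF R → Prop) (hA : ∀ H, GU.IsTypeA H → P H)
    (hC : ∀ H, GU.IsTypeC H → P H)
    (hW : ∀ (Z : Type u) [CommRing Z] [IsDomain Z] [Algebra R Z] [Module.Finite R Z]
      [Algebra.Etale R Z] (H : GU.GF Z),
      GU.IsTypeB H ∨ GU.IsTypeD H ∨ GU.IsTypeG H → P (H.weil R))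
    (hP : ∀ H H', P H → P H' → P (H.prod H')) (h : Family G)
    {E : Type u} [CommRing E] [Algebra R E] (hE : G.IsTorsor E) :
    ∃ H : GU.GF R, P H ∧ H.IsTorsor E := by
  obtain ⟨H, h1, ⟨s⟩⟩ := h.elim P hA hC hW hP
  exact ⟨H, h1, s.isTorsor hE⟩

end Pool.Agent.GUS
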