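import Pool.Agent.P.MP_c1f06d_ag.u.Bridge

open Matrix TensorProduct CliffordAlgebra Pool.Agent.P.MP_c1f06d_ag

universe u

namespace Pool.Agent.GUS

variable {R : Type u} [CommRing R]

/-- Charts of `G` are read as charts of `H`, with the same points. -/
structure Rev (G : GF R) (H : GU.GF R) where
  ch : ∀ (T : Type u) [CommRing T] [Algebra R T], G.Ch T → H.Ch T
  e : ∀ (T : Type u) [CommRing T] [Algebra R T] (c : G.Ch T), H.Pt T (ch T c) → G.M T c
  inj : ∀ (T : Type u) [CommRing T] [Algebra R T] (c : G.Ch T), Function.Injective (e T c)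
  mem : ∀ (T : Type u) [CommRing T] [Algebra R T] (c : G.Ch T) x, G.In T c (e T c x)
  onto : ∀ (T : Type u) [CommRing T] [Algebra R T] (c : G.Ch T) y, G.In T c y → ∃ x, e T c x = y
  one : ∀ (T : Type u) [CommRing T] [Algebra R T] (c : G.Ch T) x,
    H.IsOne T (ch T c) x → e T c x = G.one T c
  mul : ∀ (T : Type u) [CommRing T] [Algebra R T] (c : G.Ch T) z x y,
    H.IsMul T (ch T c) z x y → e T c z = G.mul T c (e T c x) (e T c y)
  map : ∀ (T T' : Type u) [CommRing T] [Algebra R T] [CommRing T'] [Algebra R T'] (c : G.Ch T)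
    (c' : G.Ch T') (f : T →ₐ[R] T') x x',
    G.IsMap T T' c c' f (e T c x) (e T' c' x') → H.IsMap T T' (ch T c) (ch T' c') f x x'

/-- The unit and products of points are points. -/
def Closed (H : GU.GF R) : Prop :=
  ∀ (T : Type u) [CommRing T] [Algebra R T] (c : H.Ch T),
    (∃ x, H.IsOne T c x) ∧ ∀ x y, ∃ z, H.IsMul T c z x y

variable {G : GF R} {H : GU.GF R} {E : Type u} [CommRing E] [Algebra R E]

open Classical in
theorem Rev.isTorsor (s : Rev G H) (hH : Closed H) (h : H.IsTorsor E) : G.IsTorsor E := by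
  obtain ⟨h0, act, h1, h2, h3⟩ := h
  let act' : ∀ (T : Type u) [CommRing T] [Algebra R T] (c : G.Ch T),
      G.M T c → (E →ₐ[R] T) → (E →ₐ[R] T) := fun T _ _ c y e =>
    if hy : G.In T c y then act T (s.ch T c) (s.onto T c y hy).choose e else e
  have key : ∀ (T : Type u) [CommRing T] [Algebra R T] (c : G.Ch T) x e,
      act' T c (s.e T c x) e = act T (s.ch T c) x e := by
    intro T _ _ c x e
    have hx := s.mem T c x
    simp only [act', dif_pos hx]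
    rw [s.inj T c (s.onto T c _ hx).choose_spec]
  refine ⟨h0, act', fun T _ _ c e => ⟨?_, ?_, ?_, ?_⟩⟩
  · obtain ⟨x, hx⟩ := (hH T (s.ch T c)).1
    rw [← s.one T c x hx, key]
    exact (h1 T _ e).1 x hx
  · intro x y hx hy
    obtain ⟨x, rfl⟩ := s.onto T c x hx
    obtain ⟨y, rfl⟩ := s.onto T c y hy
    obtain ⟨z, hz⟩ := (hH T (s.ch T c)).2 x y
    rw [← s.mul T c z x y hz, key, key, key]
    exact (h1 T _ e).2 z x y hz
  · intro e'
    obtain ⟨x, hx, hu⟩ := h3 T (s.ch T c) e e'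
    refine ⟨s.e T c x, ⟨s.mem T c x, by rw [key]; exact hx⟩, fun y hy => ?_⟩
    obtain ⟨y, rfl⟩ := s.onto T c y hy.1
    rw [hu y ((key T c y e).symm.trans hy.2)]
  · intro T' _ _ c' f x x' hx hx' hm
    obtain ⟨x, rfl⟩ := s.onto T c x hx
    obtain ⟨x', rfl⟩ := s.onto T' c' x' hx'
    rw [key, key]
    exact h2 T T' _ _ f x x' e (s.map T T' c c' f x x' hm)

/-- The Weil restriction along the identity has the same torsors. -/
theorem weil_self (h : G.IsTorsor E) : (G.weil R).IsTorsor E := by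
  obtain ⟨h0, act, h⟩ := h
  let a : ∀ (T : Type u) [CommRing T] [Algebra R T], R ⊗[R] T →ₐ[R] T := fun T _ _ =>
    (Algebra.TensorProduct.lid R T).toAlgHom
  let b : ∀ (T : Type u) [CommRing T] [Algebra R T], T →ₐ[R] R ⊗[R] T := fun T _ _ =>
    (Algebra.TensorProduct.lid R T).symm.toAlgHom
  have ab : ∀ (T : Type u) [CommRing T] [Algebra R T] (e : E →ₐ[R] T),
      (a T).comp ((b T).comp e) = e := fun T _ _ e => by ext; simp [a, b]
  have ba : ∀ (T : Type u) [CommRing T] [Algebra R T] (e : E →ₐ[R] R ⊗[R] T),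
      (b T).comp ((a T).comp e) = e := fun T _ _ e => by
    ext x
    exact (Algebra.TensorProduct.lid R T).symm_apply_apply (e x)
  refine ⟨h0, fun T _ _ c x e => (a T).comp (act (R ⊗[R] T) c x ((b T).comp e)),
    fun T _ _ c e => ⟨?_, ?_, ?_, ?_⟩⟩
  · exact (congrArg (a T).comp (h (R ⊗[R] T) c _).1).trans (ab T e)
  · intro x y hx hy
    refine (congrArg (a T).comp ((h (R ⊗[R] T) c _).2.1 x y hx hy)).trans ?_
    simp only [ba]
  · intro e'
    obtain ⟨x, hx, hu⟩ := (h (R ⊗[R] T) c ((b T).comp e)).2.2.1 ((b T).comp e')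
    refine ⟨x, ⟨hx.1, (congrArg (a T).comp hx.2).trans (ab T e')⟩, fun y hy => hu y ⟨hy.1, ?_⟩⟩
    rw [← hy.2, ba]
  · intro T' _ _ c' f x x' hx hx' hm
    have := (h (R ⊗[R] T) c ((b T).comp e)).2.2.2 (R ⊗[R] T') c' _ x x' hx hx' hm
    have e1 : (Algebra.TensorProduct.map (AlgHom.id R R) f).comp ((b T).comp e) =
        (b T').comp (f.comp e) := by ext; simp [b]
    have e2 : (a T').comp (Algebra.TensorProduct.map (AlgHom.id R R) f) = f.comp (a T) := by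
      ext; simp [a]
    show f.comp ((a T).comp _) = (a T').comp _
    rw [← e1, ← this, ← AlgHom.comp_assoc, ← AlgHom.comp_assoc, e2]

section
variable {B : Type u} [Ring B] [Algebra R B]

/-- Type A. -/
noncomputable def revSU (τ : B →ₗ[R] B) (d : ℕ) : Rev (unitGF τ (NrdOne τ d)) (GU.suGF τ d) where
  ch _ _ _ c := c
  e T _ _ c := (simSU τ d).e T c
  inj T _ _ c := (simSU τ d).inj T c
  mem T _ _ c := (simSU τ d).mem T c
  onto T _ _ c := (simSU τ d).onto T c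
  one _ _ _ _ _ h := h
  mul _ _ _ _ _ _ _ h := h
  map _ _ _ _ _ _ _ _ f x _ h := Eq.trans h (extend_eq f x.val).symm

/-- Type C. -/
noncomputable def revSp (σ : B →ₗ[R] B) : Rev (unitGF σ fun _ _ _ _ => True) (GU.spGF σ) where
  ch _ _ _ c := c
  e T _ _ c := (simSp σ).e T c
  inj T _ _ c := (simSp σ).inj T c
  mem T _ _ c := (simSp σ).mem T c
  onto T _ _ c := (simSp σ).onto T c
  one _ _ _ _ _ h := h
  mul _ _ _ _ _ _ _ h := h
  map _ _ _ _ _ _ _ _ f x _ h := Eq.trans h (extend_eq f x.val).symm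

theorem contains_su {τ : B →ₗ[R] B} {d : ℕ} (hd : 0 < d) (hB : SU.IsUnitaryAlgebra τ d)
    (hc : Closed (GU.suGF τ d)) (hE : SU.IsSUTorsor τ d E) :
    ∃ G : GF R, Family G ∧ G.IsTorsor E := by
  obtain ⟨⟨h1, h2⟩, S, _, _, _, n, φ, h3⟩ := hB
  obtain ⟨h0, act, a1, a2, a3⟩ := hE
  exact ⟨_, .su B τ d n S φ hd h1 h2 h3, (revSU τ d).isTorsor hc
    ⟨h0, fun T _ _ _ => act T, fun T _ _ _ e => ⟨(a1 T e).1, fun z x y => (a1 T e).2 x y z⟩,
      fun T T' _ _ _ _ _ _ f x x' e h => a2 T T' f x x' e h, fun T _ _ _ e e' => a3 T e e'⟩⟩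

theorem contains_sp {σ : B →ₗ[R] B} (hB : SU.C.IsSymplectic σ)
    (hc : Closed (GU.spGF σ)) (hE : SU.C.IsSpTorsor σ E) :
    ∃ G : GF R, Family G ∧ G.IsTorsor E := by
  obtain ⟨S, _, _, r, n, _, φ, h3⟩ := hB
  obtain ⟨h0, act, a1, a2, a3⟩ := hE
  exact ⟨_, .sp B σ r n S φ (fun x i => congrFun (h3 x) i), (revSp σ).isTorsor hc
    ⟨h0, fun T _ _ _ => act T, fun T _ _ _ e => ⟨(a1 T e).1, fun z x y => (a1 T e).2 x y z⟩,
      fun T T' _ _ _ _ _ _ f x x' e h => a2 T T' f x x' e (Eq.trans h (extend_eq f x.val)).symm,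
      fun T _ _ _ e e' => a3 T e e'⟩⟩

end

/-- Type B. -/
noncomputable def revSpin {m : ℕ} (Q : Matrix (Fin m) (Fin m) R) :
    Rev (spinGF Q) (GU.spinGF Q) where
  ch _ _ _ c := c
  e T _ _ c := (simSpin Q).e T c
  inj T _ _ c := (simSpin Q).inj T c
  mem T _ _ c := (simSpin Q).mem T c
  onto T _ _ c := (simSpin Q).onto T c
  one _ _ _ _ _ h := h
  mul _ _ _ _ _ _ _ h := h
  map _ _ _ _ _ _ _ _ _ _ _ h := h

/-- Type D. -/
noncomputable def revPair {A : Type u} [Ring A] [StarRing A] [Algebra R A] (l : A) (d : ℕ) :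
    Rev (pairGF R l d) (GU.pairGF R l d) where
  ch _ _ _ s := ⟨s.φ, s.Q, s.baseChange, s.regular, s.adjoint, s.semitrace⟩
  e T _ _ s := (simPair l d).e T ⟨s.φ, s.Q, s.baseChange, s.regular, s.adjoint, s.semitrace⟩
  inj T _ _ s := (simPair l d).inj T ⟨s.φ, s.Q, s.baseChange, s.regular, s.adjoint, s.semitrace⟩
  mem T _ _ s := (simPair l d).mem T ⟨s.φ, s.Q, s.baseChange, s.regular, s.adjoint, s.semitrace⟩
  onto T _ _ s := (simPair l d).onto T ⟨s.φ, s.Q, s.baseChange, s.regular, s.adjoint, s.semitrace⟩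
  one _ _ _ _ _ h := h
  mul _ _ _ _ _ _ _ h := h
  map _ _ _ _ _ _ _ _ _ _ _ h := by
    obtain ⟨g, h0, h1, h2⟩ := h
    exact ⟨g, ⟨h0, h1⟩, h2⟩

variable [IsDomain R]

theorem contains_spin {m : ℕ} (hm : 5 ≤ m) {Q : Matrix (Fin m) (Fin m) R}
    (hQ : GU.SmoothQuadric Q) (hc : Closed (GU.spinGF Q)) (hE : IsSpinTorsor Q E) :
    ∃ G : GF R, Family G ∧ G.IsTorsor E := by
  obtain ⟨h0, act, a1, a2, a3⟩ := hE
  exact ⟨_, .spin R m Q hm hQ, weil_self ((revSpin Q).isTorsor hc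
    ⟨h0, fun T _ _ _ => act T, fun T _ _ _ e => ⟨(a1 T e).1, fun z x y => (a1 T e).2 x y z⟩,
      fun T T' _ _ _ _ _ _ f x x' e ⟨Ψ, p1, p2, p3⟩ => a2 T T' f Ψ ⟨p1, p2⟩ x x' e p3,
      fun T _ _ _ e e' => a3 T e e'⟩)⟩

theorem contains_pair {A : Type u} [Ring A] [StarRing A] [Algebra R A] [IsAzumaya R A] {l : A}
    {n : ℕ} (hn : 3 ≤ n) (hA : GSD.IsQuadPair R l (2 * n)) (hc : Closed (GU.pairGF R l (2 * n)))
    (hE : GSD.IsPairTorsor R l (2 * n) E) : ∃ G : GF R, Family G ∧ G.IsTorsor E := by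
  obtain ⟨h1, h2, S, _, _, _, ⟨s⟩⟩ := hA
  obtain ⟨h0, act, a1, a2, a3⟩ := hE
  exact ⟨_, .pair R A l n S hn h1 h2 ⟨s.φ, s.Q, s.baseChange, s.regular, s.adjoint, s.semitrace⟩,
    weil_self ((revPair l (2 * n)).isTorsor hc
    ⟨h0, act, fun T _ _ c e => ⟨(a1 T c e).1, fun z x y => (a1 T c e).2 x y z⟩,
      fun T T' _ _ _ _ c c' f x x' e ⟨g, p1, p2⟩ => a2 T T' c c' f g p1 x x' e p2,
      a3⟩)⟩

end Pool.Agent.GUS
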