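import Pool.Agent.P.MP_c1f06d_ag.d.TTr

open Matrix

universe u

namespace Pool.Agent.GSD

theorem one_mem_of_entries {T : Type u} [CommRing T] {n : Type} [Fintype n] [DecidableEq n]
    (α : Matrix n n T →+* Matrix n n T) (i0 : n) (I : Ideal T)
    (hI : ∀ a b, α (single i0 i0 1) a b ∈ I) : (1 : T) ∈ I := by
  have e : (1 : Matrix n n T) =
      ∑ i, α (single i i0 1) * α (single i0 i0 1) * α (single i0 i 1) := by
    simp only [← map_mul, single_mul_single_same, mul_one, ← map_sum]
    rw [← map_one α]
    congr 1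
    ext a b
    simp [Matrix.sum_apply, Matrix.single_apply, Matrix.one_apply, ite_and, eq_comm]
  have e2 := congrFun (congrFun e i0) i0
  rw [one_apply_eq, Matrix.sum_apply] at e2
  rw [e2]
  refine I.sum_mem fun i _ => ?_
  rw [mul_apply]
  refine I.sum_mem fun b _ => I.mul_mem_right _ ?_
  rw [mul_apply]
  exact I.sum_mem fun a _ => I.mul_mem_left _ (hI a b)

theorem exists_iso_flat {T : Type u} [CommRing T] {d : ℕ} (hd : d ≠ 0)
    {B1 B2 g g' : Matrix (Fin d) (Fin d) T} (h2 : IsUnit B2.det) {c μ : T}
    (hg : g' * g = c • (1 : Matrix (Fin d) (Fin d) T)) (hμ : gᵀ * B2 * g = μ • B1) :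
    ∃ (T' : Type u) (_ : CommRing T') (_ : Algebra T T') (w : T'), Module.Flat T T' ∧
      w * w * algebraMap T T' μ = 1 ∧
      ∀ m : Ideal T, m.IsPrime → (1 : T') ∈ m • (⊤ : Submodule T T') → c ∈ m := by
  have hc : IsUnit (algebraMap T (Localization.Away c) c) := IsLocalization.Away.algebraMap_isUnit c
  have e1 := congrArg det hg
  have e2 := congrArg det hμ
  rw [det_mul, det_smul, det_one, mul_one] at e1
  rw [det_mul, det_mul, det_transpose, det_smul, Fintype.card_fin] at e2
  have h3 : IsUnit (algebraMap T (Localization.Away c) g.det) := by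
    have := hc.pow (Fintype.card (Fin d))
    rw [← map_pow, ← e1, map_mul] at this
    exact isUnit_of_mul_isUnit_right this
  have h4 : IsUnit (algebraMap T (Localization.Away c) μ) := by
    have := (h3.mul (h2.map (algebraMap T (Localization.Away c)))).mul h3
    rw [← map_mul, ← map_mul, e2, map_mul, map_pow] at this
    exact (isUnit_pow_iff hd).1 (isUnit_of_mul_isUnit_left this)
  obtain ⟨ν, hν⟩ := h4.exists_left_inv
  refine ⟨QuadraticAlgebra (Localization.Away c) ν 0, inferInstance, inferInstance,
    QuadraticAlgebra.omega, Module.Flat.trans T (Localization.Away c) _, ?_, fun m hm h => ?_⟩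
  · rw [QuadraticAlgebra.omega_mul_omega_eq_algebraMap, map_zero, zero_mul, add_zero,
      IsScalarTower.algebraMap_apply T (Localization.Away c), ← map_mul, hν, map_one]
  · have h1 : ∀ x ∈ m • (⊤ : Submodule T (QuadraticAlgebra (Localization.Away c) ν 0)),
        x.re ∈ m.map (algebraMap T (Localization.Away c)) := fun x hx => by
      refine Submodule.smul_induction_on hx (fun r hr y _ => ?_) fun x y hx hy => add_mem hx hy
      change r • y.re ∈ _
      rw [Algebra.smul_def]
      exact Ideal.mul_mem_right _ _ (Ideal.mem_map_of_mem _ hr)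
    have h5 : algebraMap T (Localization.Away c) 1 ∈ m.map (algebraMap T (Localization.Away c)) := by
      rw [map_one]; exact h1 1 h
    obtain ⟨_, ⟨N, rfl⟩, hN⟩ :=
      (IsLocalization.algebraMap_mem_map_algebraMap_iff (Submonoid.powers c) _ m 1).1 h5
    rw [mul_one] at hN
    exact hm.mem_of_pow_mem N hN

/-- An algebra map of a matrix algebra that respects two adjoint involutions is given by an
isometry over a faithfully flat algebra. -/
theorem exists_iso_ff {T : Type u} [CommRing T] {d : ℕ}
    (α : Matrix (Fin d) (Fin d) T →ₐ[T] Matrix (Fin d) (Fin d) T)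
    {B1 B2 : Matrix (Fin d) (Fin d) T} (h1 : IsUnit B1.det) (h2 : IsUnit B2.det)
    (hα : ∀ X Y, B1 * Y = Xᵀ * B1 → B2 * α Y = (α X)ᵀ * B2) :
    ∃ (T' : Type u) (_ : CommRing T') (_ : Algebra T T'), Module.FaithfullyFlat T T' ∧
      ∃ h : Matrix (Fin d) (Fin d) T', hᵀ * B2.map (algebraMap T T') * h = B1.map (algebraMap T T') ∧
        ∀ X, (α X).map (algebraMap T T') * h = h * X.map (algebraMap T T') := by
  rcases Nat.eq_zero_or_pos d with rfl | hd
  · exact ⟨T, inferInstance, inferInstance, inferInstance, 1, Subsingleton.elim _ _,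
      fun _ => Subsingleton.elim _ _⟩
  let i0 : Fin d := ⟨0, hd⟩
  choose g g' hg hg' using fun p : Fin d × Fin d => exists_intertwine α i0 p.1 p.2
  choose μ hμ using fun p => exists_multiplier α h1 hα (hg p)
  choose T' inst inst' w hfl hw hf using fun p => exists_iso_flat hd.ne' h2 (hg' p) (hμ p)
  have hflat : Module.Flat T (∀ p, T' p) :=
    Module.Flat.of_linearEquiv (DFinsupp.linearEquivFunOnFintype (R := T) (M := T')).symm
  refine ⟨∀ p, T' p, inferInstance, inferInstance, ⟨fun m hm h => hm.ne_top ?_⟩,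
    Matrix.of fun i j p => w p * algebraMap T (T' p) (g p i j), ?_, fun X => ?_⟩
  · refine (Ideal.eq_top_iff_one _).2 (one_mem_of_entries α.toRingHom i0 m fun a b => ?_)
    refine hf (a, b) m hm.isPrime ?_
    have h3 : ∀ x ∈ m • (⊤ : Submodule T (∀ p, T' p)),
        x (a, b) ∈ m • (⊤ : Submodule T (T' (a, b))) := fun x hx =>
      Submodule.smul_induction_on hx (fun r hr y _ => Submodule.smul_mem_smul hr trivial)
        fun x y hx hy => add_mem hx hy
    exact h3 1 (by rw [h]; trivial)
  · ext i j p
    have e := congrArg (algebraMap T (T' p)) (congrFun (congrFun (hμ p) i) j)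
    simp only [Matrix.mul_apply, transpose_apply, Matrix.smul_apply, smul_eq_mul, map_sum, map_mul,
      Finset.sum_mul] at e
    simp only [Matrix.mul_apply, transpose_apply, Matrix.of_apply, Matrix.map_apply,
      Finset.sum_apply, Pi.mul_apply, Finset.sum_mul, Pi.algebraMap_apply]
    rw [← one_mul (algebraMap T (T' p) (B1 i j)), ← hw p, mul_assoc, ← e, Finset.mul_sum]
    refine Finset.sum_congr rfl fun k _ => ?_
    rw [Finset.mul_sum]
    exact Finset.sum_congr rfl fun l _ => by ring
  · ext i j p
    have e := congrArg (algebraMap T (T' p)) (congrFun (congrFun (hg p X) i) j)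
    simp only [Matrix.mul_apply, map_sum, map_mul] at e
    simp only [Matrix.mul_apply, Matrix.of_apply, Matrix.map_apply, Finset.sum_apply, Pi.mul_apply,
      Pi.algebraMap_apply, mul_left_comm _ (w p), mul_assoc, ← Finset.mul_sum, e]

variable {R A : Type u} [CommRing R] [Ring A] [Algebra R A] [StarRing A] {l : A} {d : ℕ}

/-- Two splittings become isometric over a faithfully flat algebra. -/
theorem Splitting.exists_hom_ff {T : Type u} [CommRing T] [Algebra R T] (s s' : Splitting R l d T) :
    ∃ (T' : Type u) (_ : CommRing T') (_ : Algebra R T') (_ : Algebra T T')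
      (_ : IsScalarTower R T T'), Module.FaithfullyFlat T T' ∧
        ∃ h, s.IsHom (s'.map (IsScalarTower.toAlgHom R T T')) (IsScalarTower.toAlgHom R T T') h := by
  let α : Matrix (Fin d) (Fin d) T →ₐ[T] Matrix (Fin d) (Fin d) T :=
    AlgHom.mk' (s.tr s' (AlgHom.id R T)) (s.tr_smul s' (AlgHom.id R T))
  have hα : ∀ X, α X = s.tr s' (AlgHom.id R T) X := fun _ => rfl
  obtain ⟨T', _, _, hj, h, h1, h2⟩ := exists_iso_ff α s.isUnit_det_B s'.isUnit_det_B
    fun X Y e => by rw [← s.adj_eq e, hα, hα, tr_adj, B_mul_adj]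
  let _ : Algebra R T' := ((algebraMap T T').comp (algebraMap R T)).toAlgebra
  have : IsScalarTower R T T' := IsScalarTower.of_algebraMap_eq fun _ => rfl
  have h3 : ∀ a, (s'.map (IsScalarTower.toAlgHom R T T')).φ a * h =
      h * (s.φ a).map (IsScalarTower.toAlgHom R T T') := fun a => by
    have := h2 (s.φ a)
    rw [hα, tr_φ] at this
    exact this
  refine ⟨T', inferInstance, inferInstance, inferInstance, inferInstance, hj, h, ?_, h3⟩
  rw [Q_eq, map_B, Matrix.mul_assoc, Matrix.mul_assoc, h3, ← Matrix.mul_assoc, ← Matrix.mul_assoc,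
    s.Q_eq, Matrix.map_mul]
  exact congrArg (· * _) h1

end Pool.Agent.GSD
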