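import Pool.Agent.P.MP_c1f06d_ag.QSn

/-! Identities in composition algebras over a commutative ring. -/

open Matrix

namespace Pool.Agent.GU

open Pool.Agent.P.MP_c1f06d_ag

/-- Bilinear products on `T ^ m`. -/
abbrev Bil (T : Type*) [CommRing T] (m : ℕ) :=
  (Fin m → T) →ₗ[T] (Fin m → T) →ₗ[T] (Fin m → T)

variable {T : Type*} [CommRing T] {m : ℕ}

/-- A composition algebra on `T ^ m` with norm `Q` and unit `e`. -/
structure Cmp (Q : Matrix (Fin m) (Fin m) T) (μ : Bil T m) (e : Fin m → T) : Prop where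
  unim : Unim Q
  one_mul : ∀ x, μ e x = x
  mul_one : ∀ x, μ x e = x
  comp : ∀ x y, qv Q (μ x y) = qv Q x * qv Q y
  norm_one : qv Q e = 1

/-- Conjugation. -/
def cj (Q : Matrix (Fin m) (Fin m) T) (e x : Fin m → T) : Fin m → T := bv Q x e • e - x

variable {Q : Matrix (Fin m) (Fin m) T} {μ μ' : Bil T m} {e : Fin m → T}

theorem cj_of_perp {x : Fin m → T} (hx : bv Q x e = 0) : cj Q e x = -x := by
  rw [cj, hx, zero_smul, zero_sub]

theorem bv_cj (x y : Fin m → T) : bv Q (cj Q e x) y = bv Q x (cj Q e y) := by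
  rw [cj, cj, bv_sub_left, bv_sub_right, bv_smul_left, bv_smul_right, bv_comm Q e y]; ring

theorem unim_ext (h : Unim Q) {x y : Fin m → T} (hx : ∀ z, bv Q x z = bv Q y z) : x = y :=
  sub_eq_zero.1 (h.eq_zero fun z => by rw [bv_sub_left, hx, sub_self])

namespace Cmp

variable (h : Cmp Q μ e)
include h

theorem b_left (x y z : Fin m → T) : bv Q (μ x y) (μ x z) = qv Q x * bv Q y z := by
  have := h.comp x (y + z)
  rw [map_add, qv_add, qv_add, h.comp, h.comp] at this
  linear_combination this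

theorem b_right (x y z : Fin m → T) : bv Q (μ x z) (μ y z) = bv Q x y * qv Q z := by
  have := h.comp (x + y) z
  rw [map_add, LinearMap.add_apply, qv_add, qv_add, h.comp, h.comp] at this
  linear_combination this

theorem b_ex (x y z w : Fin m → T) :
    bv Q (μ x z) (μ y w) + bv Q (μ x w) (μ y z) = bv Q x y * bv Q z w := by
  have := h.b_right x y (z + w)
  rw [map_add, map_add, bv_add_left, bv_add_right, bv_add_right, h.b_right, h.b_right,
    qv_add] at this
  linear_combination this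

theorem adj_left (x y z : Fin m → T) : bv Q (μ x y) z = bv Q y (μ (cj Q e x) z) := by
  have := h.b_ex x e y z
  rw [h.one_mul, h.one_mul] at this
  rw [cj, map_sub, map_smul, LinearMap.sub_apply, LinearMap.smul_apply, h.one_mul, bv_sub_right,
    bv_smul_right, bv_comm Q y (μ x z)]
  linear_combination this

theorem adj_right (x y z : Fin m → T) : bv Q (μ x y) z = bv Q x (μ z (cj Q e y)) := by
  have := h.b_ex x z y e
  rw [h.mul_one, h.mul_one] at this
  rw [cj, map_sub, map_smul, h.mul_one, bv_sub_right, bv_smul_right]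
  linear_combination this

theorem cj_cj (x : Fin m → T) : cj Q e (cj Q e x) = x := by
  have : bv Q (cj Q e x) e = bv Q x e := by
    rw [cj, bv_sub_left, bv_smul_left, bv_self, h.norm_one]; ring
  rw [cj, this, cj, sub_sub_cancel]

theorem qv_cj (x : Fin m → T) : qv Q (cj Q e x) = qv Q x := by
  rw [cj, qv_sub, qv_smul, bv_smul_left, h.norm_one, bv_comm Q e x]; ring

theorem lin_left (x y z : Fin m → T) :
    μ (cj Q e x) (μ z y) + μ (cj Q e z) (μ x y) = bv Q x z • y :=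
  unim_ext h.unim fun w => by
    rw [bv_add_left, h.adj_left, h.adj_left (cj Q e z), h.cj_cj, h.cj_cj, bv_smul_left,
      bv_comm Q (μ x y), h.b_ex, bv_comm Q z x]

theorem kir_left (x y : Fin m → T) : μ (cj Q e x) (μ x y) = qv Q x • y :=
  unim_ext h.unim fun w => by rw [h.adj_left, h.cj_cj, h.b_left, bv_smul_left]

theorem lin_right (x y z : Fin m → T) :
    μ (μ y x) (cj Q e z) + μ (μ y z) (cj Q e x) = bv Q x z • y :=
  unim_ext h.unim fun w => by
    rw [bv_add_left, h.adj_right, h.adj_right (μ y z), h.cj_cj, h.cj_cj, bv_smul_left, h.b_ex,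
      mul_comm]

theorem kir_right (x y : Fin m → T) : μ (μ y x) (cj Q e x) = qv Q x • y :=
  unim_ext h.unim fun w => by rw [h.adj_right, h.cj_cj, h.b_right, bv_smul_left, mul_comm]

theorem cj_mul (x y : Fin m → T) : cj Q e (μ x y) = μ (cj Q e y) (cj Q e x) :=
  unim_ext h.unim fun w => by
    rw [bv_cj, h.adj_right, ← h.adj_left, h.adj_right, bv_comm]

theorem sq (x : Fin m → T) : μ x x = bv Q x e • x - qv Q x • e := by
  have := h.kir_left x e
  rw [h.mul_one, cj, map_sub, map_smul, LinearMap.sub_apply, LinearMap.smul_apply,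
    h.one_mul] at this
  rw [← this, sub_sub_cancel]

theorem mul_pair (u : Fin m → T) (a b c d : T) : μ (a • e + b • u) (c • e + d • u) =
    (a * c - b * d * qv Q u) • e + (a * d + b * c + b * d * bv Q u e) • u := by
  simp only [map_add, map_smul, LinearMap.add_apply, LinearMap.smul_apply, h.one_mul, h.mul_one,
    h.sq]
  module

end Cmp

/-- `B` is a unital subalgebra. -/
structure SubA (μ : Bil T m) (e : Fin m → T) (B : Submodule T (Fin m → T)) : Prop where
  one : e ∈ B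
  mul : ∀ a ∈ B, ∀ b ∈ B, μ a b ∈ B

/-- `w` is orthogonal to `B`. -/
def Perp (Q : Matrix (Fin m) (Fin m) T) (B : Submodule T (Fin m → T)) (w : Fin m → T) : Prop :=
  ∀ a ∈ B, bv Q a w = 0

/-- The module `B + B w`. -/
def dbl (μ : Bil T m) (B : Submodule T (Fin m → T)) (w : Fin m → T) : Submodule T (Fin m → T) :=
  B ⊔ B.map (μ.flip w)

variable {B : Submodule T (Fin m → T)} {w : Fin m → T}

theorem mem_dbl {x : Fin m → T} : x ∈ dbl μ B w ↔ ∃ a ∈ B, ∃ b ∈ B, a + μ b w = x := by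
  rw [dbl, Submodule.mem_sup]
  exact ⟨fun ⟨a, ha, _, ⟨b, hb, rfl⟩, e⟩ => ⟨a, ha, b, hb, e⟩,
    fun ⟨a, ha, b, hb, e⟩ => ⟨a, ha, _, ⟨b, hb, rfl⟩, e⟩⟩

theorem SubA.cj_mem (hB : SubA μ e B) {a : Fin m → T} (ha : a ∈ B) : cj Q e a ∈ B :=
  sub_mem (B.smul_mem _ hB.one) ha

namespace Cmp

variable (h : Cmp Q μ e) (hB : SubA μ e B) (hw : Perp Q B w)
include h hB hw

theorem perp_mul {a b : Fin m → T} (ha : a ∈ B) (hb : b ∈ B) : bv Q a (μ b w) = 0 := by
  rw [bv_comm, h.adj_left, bv_comm]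
  exact hw _ (hB.mul _ (hB.cj_mem hb) _ ha)

theorem cj_mul_perp {b : Fin m → T} (hb : b ∈ B) : cj Q e (μ b w) = -μ b w :=
  cj_of_perp (by rw [bv_comm]; exact h.perp_mul hB hw hB.one hb)

omit h in
theorem cj_perp : cj Q e w = -w := cj_of_perp (by rw [bv_comm]; exact hw _ hB.one)

theorem swap {b : Fin m → T} (hb : b ∈ B) : μ w (cj Q e b) = μ b w := by
  have := h.cj_mul b w
  rw [h.cj_mul_perp hB hw hb, cj_perp hB hw, map_neg, LinearMap.neg_apply] at this
  exact (neg_injective this).symm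

theorem dbl1 {a d : Fin m → T} (ha : a ∈ B) (hd : d ∈ B) : μ a (μ d w) = μ (μ d a) w := by
  have := h.lin_left (cj Q e a) (cj Q e d) w
  rw [h.cj_cj, h.swap hB hw hd, ← h.cj_mul, cj_perp hB hw, map_neg, LinearMap.neg_apply,
    h.swap hB hw (hB.mul _ hd _ ha), hw _ (hB.cj_mem ha), zero_smul] at this
  exact add_neg_eq_zero.1 this

theorem dbl2 {b c : Fin m → T} (hb : b ∈ B) (hc : c ∈ B) :
    μ (μ b w) c = μ (μ b (cj Q e c)) w := by
  rw [← h.cj_cj (μ (μ b w) c), h.cj_mul (μ b w), h.cj_mul_perp hB hw hb, map_neg,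
    h.dbl1 hB hw (hB.cj_mem hc) hb, ← h.cj_mul_perp hB hw (hB.mul _ hb _ (hB.cj_mem hc)), h.cj_cj]

theorem dbl3 {b d : Fin m → T} (hb : b ∈ B) (hd : d ∈ B) :
    μ (μ b w) (μ d w) = -(qv Q w • μ (cj Q e d) b) := by
  have := h.lin_right (cj Q e b) w (cj Q e (μ d w))
  have e1 := h.kir_left w (cj Q e d)
  rw [cj_perp hB hw, h.swap hB hw hd, map_neg, LinearMap.neg_apply] at e1
  rw [h.cj_cj, h.cj_cj, h.swap hB hw hb, h.cj_mul_perp hB hw hd, map_neg, e1, bv_neg_right,
    h.perp_mul hB hw (hB.cj_mem hb) hd, neg_zero, zero_smul, map_smul, LinearMap.smul_apply] at this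
  exact eq_neg_of_add_eq_zero_left this

theorem dbl_mul {a b c d : Fin m → T} (ha : a ∈ B) (hb : b ∈ B) (hc : c ∈ B) (hd : d ∈ B) :
    μ (a + μ b w) (c + μ d w) =
      (μ a c - qv Q w • μ (cj Q e d) b) + μ (μ d a + μ b (cj Q e c)) w := by
  simp only [map_add, LinearMap.add_apply, h.dbl1 hB hw ha hd, h.dbl2 hB hw hb hc,
    h.dbl3 hB hw hb hd]
  abel

theorem subA_dbl : SubA μ e (dbl μ B w) where
  one := Submodule.mem_sup_left hB.one
  mul x hx y hy := by
    obtain ⟨a, ha, b, hb, rfl⟩ := mem_dbl.1 hx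
    obtain ⟨c, hc, d, hd, rfl⟩ := mem_dbl.1 hy
    exact mem_dbl.2 ⟨_, sub_mem (hB.mul _ ha _ hc) (B.smul_mem _ (hB.mul _ (hB.cj_mem hd) _ hb)), _,
      add_mem (hB.mul _ hd _ ha) (hB.mul _ hb _ (hB.cj_mem hc)), (h.dbl_mul hB hw ha hb hc hd).symm⟩

/-- A map that is the identity on `B` and commutes with multiplication by `w` is multiplicative on
`B + B w`. -/
theorem dbl_hom (h' : Cmp Q μ' e) (hμ : ∀ a ∈ B, ∀ b ∈ B, μ' a b = μ a b)
    (g : (Fin m → T) → Fin m → T) (hg : ∀ a ∈ B, ∀ b ∈ B, g (a + μ b w) = a + μ' b w)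
    {x y : Fin m → T} (hx : x ∈ dbl μ B w) (hy : y ∈ dbl μ B w) :
    g (μ x y) = μ' (g x) (g y) := by
  obtain ⟨a, ha, b, hb, rfl⟩ := mem_dbl.1 hx
  obtain ⟨c, hc, d, hd, rfl⟩ := mem_dbl.1 hy
  have hB' : SubA μ' e B := ⟨hB.one, fun a ha b hb => hμ a ha b hb ▸ hB.mul a ha b hb⟩
  rw [hg a ha b hb, hg c hc d hd, h.dbl_mul hB hw ha hb hc hd, h'.dbl_mul hB' hw ha hb hc hd,
    hg _ (sub_mem (hB.mul _ ha _ hc) (B.smul_mem _ (hB.mul _ (hB.cj_mem hd) _ hb))) _
      (add_mem (hB.mul _ hd _ ha) (hB.mul _ hb _ (hB.cj_mem hc))),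
    hμ a ha c hc, hμ _ (hB.cj_mem hd) b hb, hμ d hd a ha, hμ b hb _ (hB.cj_mem hc)]

end Cmp

end Pool.Agent.GU
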