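import Pool.Agent.P.MP_c1f06d_ag.u.G2Fr

/-! Octonion algebras over a semilocal ring with isometric norms are isomorphic. -/

open Matrix

namespace Pool.Agent.GU

open Pool.Agent.P.MP_c1f06d_ag

variable {T : Type*} [CommRing T] {m : ℕ} {Q Q' : Matrix (Fin m) (Fin m) T} {μ μ' μ'' : Bil T m}
  {e e' u v : Fin m → T}

/-- Isomorphic products. -/
def IsoA (μ μ' : Bil T m) : Prop :=
  ∃ g : (Fin m → T) ≃ₗ[T] (Fin m → T), ∀ x y, g (μ x y) = μ' (g x) (g y)

theorem IsoA.trans (h : IsoA μ μ') (h' : IsoA μ' μ'') : IsoA μ μ'' :=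
  let ⟨g, hg⟩ := h; let ⟨g', hg'⟩ := h'
  ⟨g.trans g', fun x y => by simp only [LinearEquiv.trans_apply, hg, hg']⟩

/-- The product pulled back along `g`. -/
def pull (μ : Bil T m) (g : (Fin m → T) ≃ₗ[T] (Fin m → T)) : Bil T m :=
  (μ.compl₁₂ g.toLinearMap g.toLinearMap).compr₂ g.symm.toLinearMap

theorem pull_apply (μ : Bil T m) (g : (Fin m → T) ≃ₗ[T] (Fin m → T)) (x y : Fin m → T) :
    pull μ g x y = g.symm (μ (g x) (g y)) := rfl

theorem isoA_pull (μ : Bil T m) (g : (Fin m → T) ≃ₗ[T] (Fin m → T)) : IsoA (pull μ g) μ :=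
  ⟨g, fun x y => by rw [pull_apply, g.apply_symm_apply]⟩

theorem Cmp.pull (h : Cmp Q' μ e) (hQ : Unim Q) (g : (Fin m → T) ≃ₗ[T] (Fin m → T))
    (hg : ∀ x, qv Q' (g x) = qv Q x) : Cmp Q (pull μ g) (g.symm e) where
  unim := hQ
  one_mul x := by rw [pull_apply, g.apply_symm_apply, h.one_mul, g.symm_apply_apply]
  mul_one x := by rw [pull_apply, g.apply_symm_apply, h.mul_one, g.symm_apply_apply]
  comp x y := by rw [pull_apply, ← hg, g.apply_symm_apply, h.comp, hg, hg]
  norm_one := by rw [← hg, g.apply_symm_apply, h.norm_one]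

theorem Cmp.subA_pair (h : Cmp Q μ e) (u : Fin m → T) : SubA μ e (Submodule.span T {e, u}) where
  one := Submodule.subset_span (by simp)
  mul x hx y hy := by
    obtain ⟨a, b, rfl⟩ := Submodule.mem_span_pair.1 hx
    obtain ⟨c, d, rfl⟩ := Submodule.mem_span_pair.1 hy
    exact Submodule.mem_span_pair.2 ⟨_, _, (h.mul_pair u a b c d).symm⟩

theorem frame_pair (he : qv Q e = 1) (hu : bv Q u e = 1) {c : T} (hc : c * (4 * qv Q u - 1) = 1) :
    Frame Q (Submodule.span T {e, u}) ![e, u]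
      ![(c * (2 * qv Q u)) • e + (-c) • u, (-c) • e + (2 * c) • u] := by
  have hu' : bv Q e u = 1 := by rw [bv_comm, hu]
  refine ⟨fun i => Submodule.subset_span (by fin_cases i <;> simp), fun i => ?_, fun i j => ?_,
    fun x hx => ?_⟩
  · fin_cases i <;> exact Submodule.mem_span_pair.2 ⟨_, _, rfl⟩
  · fin_cases i <;> fin_cases j <;>
      simp only [Fin.zero_eta, Fin.mk_one, cons_val_zero, cons_val_one, bv_add_right,
        bv_smul_right, bv_self, hu, hu', he, if_true, zero_ne_one, one_ne_zero, if_false]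
    · linear_combination hc
    · ring
    · ring
    · linear_combination hc
  · obtain ⟨a, b, rfl⟩ := Submodule.mem_span_pair.1 hx
    simp only [Fin.sum_univ_two, cons_val_zero, cons_val_one, bv_add_right, bv_add_left,
      bv_smul_right, bv_smul_left, bv_self, hu, hu', he]
    congr 2
    · linear_combination a * hc
    · linear_combination b * hc

theorem exists_etale [Finite (MaximalSpectrum T)] (hQ : Unim Q) (he : qv Q e = 1) (hm : 2 ≤ m) :
    ∃ u, bv Q u e = 1 ∧ IsUnit (4 * qv Q u - 1) := by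
  obtain ⟨u0, hu0⟩ := hQ.exists_bv_one_of_isUnit (x := e) (he ▸ isUnit_one)
  rw [bv_comm] at hu0
  refine pick_unit {u | bv Q u e = 1} ⟨u0, hu0⟩ (fun x hx y hy a => ?_) _
    (fun N x y h => by simp only [map_sub, map_mul, ← qv_map, h]) fun N => ?_
  · change bv Q _ e = 1
    rw [bv_add_left, bv_smul_left, bv_smul_left, hx, hy]; ring
  by_contra hn
  push Not at hn
  have hN := N.isMaximal
  have h2 : (2 : T) ∉ N.asIdeal := fun h2 => hN.ne_top <| (Ideal.eq_top_iff_one _).2 <| by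
    have := sub_mem (N.asIdeal.mul_mem_right (2 * qv Q u0) h2) (hn u0 hu0)
    rwa [show 2 * (2 * qv Q u0) - (4 * qv Q u0 - 1) = 1 by ring] at this
  have key : ∀ z z', bv Q z e = 0 → bv Q z' e = 0 → bv Q z z' ∈ N.asIdeal := fun z z' hz hz' => by
    have a := fun y (hy : bv Q y e = 0) => hn (u0 + y) (by
      change bv Q _ e = 1
      rw [bv_add_left, hu0, hy, add_zero])
    have := sub_mem (add_mem (a (z + z') (by rw [bv_add_left, hz, hz', add_zero])) (hn u0 hu0))
      (add_mem (a z hz) (a z' hz'))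
    simp only [qv_add, bv_add_right] at this
    have e4 : 2 * (2 * bv Q z z') ∈ N.asIdeal := by
      refine (congrArg (· ∈ N.asIdeal) ?_).mp this
      ring
    exact ((hN.isPrime.mem_or_mem ((hN.isPrime.mem_or_mem e4).resolve_left h2)).resolve_left h2)
  obtain ⟨a, c, hc, hac⟩ := hN.exists_inv h2
  refine not_span (ι := Unit) N (by rw [Fintype.card_unit]; omega) (fun _ => e)
    (fun j _ => a * bv Q (Pi.single j 1) e) fun j k => ?_
  generalize (Pi.single j 1 : Fin m → T) = x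
  have z0 : ∀ x, bv Q ((2 : T) • x - bv Q x e • e) e = 0 := fun x => by
    rw [bv_sub_left, bv_smul_left, bv_smul_left, bv_self, he]; ring
  obtain ⟨y, hy⟩ := hQ.exists_bv_eq k
  have h3 := key _ _ (z0 x) (z0 y)
  rw [bv_sub_right, bv_smul_right, bv_smul_right, z0, mul_zero, sub_zero, hy] at h3
  have h4 := add_mem (N.asIdeal.mul_mem_left a ((hN.isPrime.mem_or_mem h3).resolve_left h2))
    (N.asIdeal.mul_mem_right (x k) hc)
  refine (congrArg (· ∈ N.asIdeal) ?_).mp h4
  simp only [Pi.sub_apply, Pi.smul_apply, smul_eq_mul, Finset.univ_unique, Finset.sum_singleton]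
  linear_combination x k * hac

theorem bix1 [Finite (MaximalSpectrum T)] (hm : m = 8) (h : Cmp Q μ e) (h' : Cmp Q μ' e)
    (hu : bv Q u e = 1) (hu' : IsUnit (4 * qv Q u - 1)) (hv : Perp Q (Submodule.span T {e, u}) v)
    (hv' : IsUnit (qv Q v)) (hp : μ' u v = μ u v) : IsoA μ μ' := by
  obtain ⟨c, hc⟩ := hu'.exists_left_inv
  obtain ⟨c1, hc1⟩ := hv'.exists_left_inv
  have hD := h.subA_pair u
  have hB := h.subA_dbl hD hv
  have hF := (frame_pair h.norm_one hu hc).dbl h hD hv hc1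
  have hμ : ∀ a ∈ dbl μ (Submodule.span T {e, u}) v, ∀ b ∈ dbl μ (Submodule.span T {e, u}) v,
      μ' a b = μ a b := fun a ha b hb => by
    refine (h.dbl_hom hD hv h' (fun x hx y hy => ?_) id (fun x _ y hy => ?_) ha hb).symm
    · obtain ⟨a, b, rfl⟩ := Submodule.mem_span_pair.1 hx
      obtain ⟨c, d, rfl⟩ := Submodule.mem_span_pair.1 hy
      rw [h.mul_pair, h'.mul_pair]
    · obtain ⟨a, b, rfl⟩ := Submodule.mem_span_pair.1 hy
      simp only [id, map_add, map_smul, LinearMap.add_apply, LinearMap.smul_apply, h.one_mul,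
        h'.one_mul, hp]
  generalize dbl μ (Submodule.span T {e, u}) v = B at hB hF hμ
  have hB' : SubA μ' e B := ⟨hB.one, fun a ha b hb => hμ a ha b hb ▸ hB.mul a ha b hb⟩
  obtain ⟨w, hw, hw'⟩ := hF.exists_unit h.unim (by simp [hm])
  obtain ⟨c2, hc2⟩ := hw'.exists_left_inv
  have t := (hF.dbl h hB hw hc2).top (by simp [hm])
  have t' := (hF.dbl h' hB' hw hc2).top (by simp [hm])
  obtain ⟨g, hg⟩ := hF.exists_map h hB hw hc2 μ'
  obtain ⟨g', hg'⟩ := hF.exists_map h' hB' hw hc2 μ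
  refine ⟨LinearEquiv.ofLinearMap g g' (LinearMap.ext fun x => ?_) (LinearMap.ext fun x => ?_),
    fun x y => h.dbl_hom hB hw h' hμ g hg (t x) (t y)⟩
  · obtain ⟨a, ha, b, hb, rfl⟩ := mem_dbl.1 (t' x)
    rw [LinearMap.comp_apply, hg' a ha b hb, hg a ha b hb, LinearMap.id_apply]
  · obtain ⟨a, ha, b, hb, rfl⟩ := mem_dbl.1 (t x)
    rw [LinearMap.comp_apply, hg a ha b hb, hg' a ha b hb, LinearMap.id_apply]

/-- A reflection as a linear equivalence. -/
noncomputable def reflEq {z : Fin m → T} (hz : IsUnit (qv Q z)) : (Fin m → T) ≃ₗ[T] (Fin m → T) :=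
  LinearEquiv.ofInvolutive (Matrix.toLin' (reflMat Q z)) fun x => by
    rw [toLin'_apply, toLin'_apply, reflMat_mulVec, reflMat_mulVec, refl_refl hz]

theorem reflEq_apply {z : Fin m → T} (hz : IsUnit (qv Q z)) (x : Fin m → T) :
    reflEq hz x = refl Q z x := reflMat_mulVec z x

theorem reflEq_symm {z : Fin m → T} (hz : IsUnit (qv Q z)) (x : Fin m → T) :
    (reflEq hz).symm x = refl Q z x := reflMat_mulVec z x

/-- Twisting a product by a reflection that fixes `e`, `u` and `v`. -/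
theorem Cmp.twist (h : Cmp Q μ e) {d : Fin m → T} (hd : IsUnit (qv Q d)) (h1 : bv Q e d = 0)
    (h2 : bv Q u d = 0) (h3 : bv Q v d = 0) :
    ∃ ν, Cmp Q ν e ∧ IsoA ν μ ∧ ν u v = refl Q d (μ u v) := by
  refine ⟨GU.pull μ (reflEq hd), ?_, isoA_pull _ _, ?_⟩
  · have := h.pull h.unim (reflEq hd) fun x => by rw [reflEq_apply, qv_refl hd]
    rwa [reflEq_symm, refl_of_bv_eq_zero h1] at this
  · rw [pull_apply, reflEq_symm, reflEq_apply, reflEq_apply, refl_of_bv_eq_zero h2,
      refl_of_bv_eq_zero h3]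

theorem bix0 [Finite (MaximalSpectrum T)] (hm : m = 8) (h : Cmp Q μ e) (h' : Cmp Q μ' e) :
    IsoA μ μ' := by
  obtain ⟨u, hu, hu'⟩ := exists_etale h.unim h.norm_one (by omega)
  obtain ⟨c, hc⟩ := hu'.exists_left_inv
  have hF0 := frame_pair h.norm_one hu hc
  obtain ⟨v, hv, hv'⟩ := hF0.exists_unit h.unim (by simp [hm])
  obtain ⟨c1, hc1⟩ := hv'.exists_left_inv
  have he0 : e ∈ Submodule.span T {e, u} := Submodule.subset_span (by simp)
  have hu0 : u ∈ Submodule.span T {e, u} := Submodule.subset_span (by simp)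
  have inv : ∀ ν : Bil T m, Cmp Q ν e → bv Q e (ν u v) = 0 ∧ bv Q u (ν u v) = 0 ∧
      bv Q v (ν u v) = qv Q v ∧ qv Q (ν u v) = qv Q u * qv Q v := fun ν k =>
    ⟨k.perp_mul (k.subA_pair u) hv he0 hu0, k.perp_mul (k.subA_pair u) hv hu0 hu0, by
      have := k.b_right e u v
      rwa [k.one_mul, bv_comm Q e u, hu, one_mul] at this, k.comp u v⟩
  obtain ⟨a1, a2, a3, a4⟩ := inv μ h
  obtain ⟨b1, b2, b3, b4⟩ := inv μ' h'
  obtain ⟨w, hw, hw'⟩ := (hF0.dbl h (h.subA_pair u) hv hc1).exists_unit h.unim (by simp [hm])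
  have l : ∀ a ∈ Submodule.span T {e, u}, bv Q a w = 0 := fun a ha =>
    hw a (Submodule.mem_sup_left ha)
  have r : ∀ a ∈ Submodule.span T {e, u}, bv Q (μ a v) w = 0 := fun a ha =>
    hw _ (Submodule.mem_sup_right ⟨a, ha, rfl⟩)
  have r1 := r e he0
  rw [h.one_mul] at r1
  obtain ⟨d, ⟨d1, d2, d3⟩, hd⟩ := pick_unit {d | bv Q e d = 0 ∧ bv Q u d = 0 ∧ bv Q v d = 0}
    ⟨0, bv_zero_right _ _, bv_zero_right _ _, bv_zero_right _ _⟩
    (fun x hx y hy a => by
      simp only [Set.mem_ofPred_eq, bv_add_right, bv_smul_right, hx.1, hx.2.1, hx.2.2, hy.1, hy.2.1,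
        hy.2.2, mul_zero, add_zero, and_self])
    (fun d => qv Q d * (qv Q (μ u v - μ' u v) * qv Q d + bv Q (μ u v) d * bv Q (μ' u v) d))
    (fun N x y h => by simp only [map_add, map_mul, ← qv_map Q _ x, ← qv_map Q _ y, ← bv_map, h])
    fun N => by
      have hN := N.isMaximal.isPrime
      have nu : ∀ x : T, IsUnit x → x ∉ N.asIdeal := fun x hx hx' =>
        hN.ne_top (N.asIdeal.eq_top_of_isUnit_mem hx' hx)
      by_cases hδ : qv Q (μ u v - μ' u v) ∈ N.asIdeal
      · have n1 : qv Q ((2 : T) • μ' u v - v) = (4 * qv Q u - 1) * qv Q v := by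
          rw [qv_sub, qv_smul, bv_smul_left, bv_comm, b3, b4]; ring
        have n2 : bv Q (μ' u v) ((2 : T) • μ' u v - v) = (4 * qv Q u - 1) * qv Q v := by
          rw [bv_sub_right, bv_smul_right, bv_self, bv_comm, b3, b4]; ring
        have n3 : bv Q (μ u v) ((2 : T) • μ' u v - v) =
            (4 * qv Q u - 1) * qv Q v - 2 * qv Q (μ u v - μ' u v) := by
          rw [bv_sub_right, bv_smul_right, bv_comm Q _ v, a3, qv_sub, a4, b4]; ring
        refine ⟨(2 : T) • μ' u v - v, ⟨?_, ?_, ?_⟩, fun hh => ?_⟩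
        · rw [bv_sub_right, bv_smul_right, b1, hv e he0]; ring
        · rw [bv_sub_right, bv_smul_right, b2, hv u hu0]; ring
        · rw [bv_sub_right, bv_smul_right, b3, bv_self]; ring
        · simp only [n1, n2, n3] at hh
          have := add_mem hh (N.asIdeal.mul_mem_right (((4 * qv Q u - 1) * qv Q v) ^ 2) hδ)
          refine nu _ ((hu'.mul hv').pow 3) ((congrArg (· ∈ N.asIdeal) ?_).mp this)
          ring
      · refine ⟨w, ⟨l e he0, l u hu0, r1⟩, fun hh => ?_⟩
        simp only [r u hu0, zero_mul, add_zero] at hh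
        exact nu _ hw' ((hN.mem_or_mem hh).elim id fun k => (hN.mem_or_mem k).resolve_left hδ)
  have hd1 := isUnit_of_mul_isUnit_left hd
  obtain ⟨ν, k, kI, kp⟩ := h'.twist hd1 d1 d2 d3
  obtain ⟨c1', c2', c3', c4'⟩ := inv ν k
  have hd2 : IsUnit (qv Q (ν u v - μ u v)) := by
    refine isUnit_of_mul_isUnit_right (x := qv Q d) ((congrArg IsUnit ?_).mp
      (isUnit_of_mul_isUnit_right hd))
    have := Ring.inverse_mul_cancel _ hd1
    rw [qv_sub Q (ν u v), c4', kp, bv_refl_left, qv_sub, b4, bv_comm Q d, bv_comm Q (μ' u v) (μ u v)]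
    linear_combination (-(bv Q (μ u v) d * bv Q (μ' u v) d)) * this
  obtain ⟨ν', k', kI', kp'⟩ := k.twist (u := u) (v := v) hd2 (by rw [bv_sub_right, c1', a1, sub_self])
    (by rw [bv_sub_right, c2', a2, sub_self]) (by rw [bv_sub_right, c3', a3, sub_self])
  rw [refl_sub (c4'.trans a4.symm) hd2] at kp'
  exact ((bix1 hm h k' hu hu' hv hv' kp').trans kI').trans kI

/-- Octonion algebras over a semilocal ring with isometric norms are isomorphic. -/
theorem bix [Finite (MaximalSpectrum T)] (hm : m = 8) (h : Cmp Q μ e) (h' : Cmp Q' μ' e')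
    (hi : Iso Q Q') : IsoA μ μ' := by
  obtain ⟨g, hg⟩ := hi
  let G := Matrix.toLinearEquiv' g (invertibleOfIsUnitDet g (hg.isUnit_det h.unim))
  have k := h'.pull h.unim G fun x => hg x
  have n1 := k.norm_one
  generalize G.symm e' = e1 at k n1
  let ρ : (Fin m → T) ≃ₗ[T] (Fin m → T) := LinearEquiv.ofLinearMap (μ.flip e1) (μ.flip (cj Q e e1))
    (LinearMap.ext fun x => by
      have := h.kir_right (cj Q e e1) x
      rwa [h.cj_cj, h.qv_cj, n1, one_smul] at this)
    (LinearMap.ext fun x => by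
      have := h.kir_right e1 x
      rwa [n1, one_smul] at this)
  have k' := k.pull h.unim ρ fun x => (h.comp x e1).trans (by rw [n1, mul_one])
  rw [show ρ.symm e1 = e from ρ.symm_apply_eq.2 (h.one_mul e1).symm] at k'
  exact ((bix0 hm h k').trans (isoA_pull _ _)).trans (isoA_pull _ _)

end Pool.Agent.GU
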