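import Pool.Agent.P.MP_c1f06d_ag.u.G2Bix

/-! Composition algebras given by structure constants: base change. -/

open Matrix

namespace Pool.Agent.GU

open Pool.Agent.P.MP_c1f06d_ag

variable {T T' : Type*} [CommRing T] [CommRing T'] {m : ℕ}

/-- The product with structure constants `c`. -/
def oM (c : Fin m → Matrix (Fin m) (Fin m) T) : Bil T m :=
  LinearMap.mk₂ T (fun x y k => x ⬝ᵥ c k *ᵥ y) (fun _ _ _ => funext fun _ => add_dotProduct _ _ _)
    (fun _ _ _ => funext fun _ => smul_dotProduct _ _ _)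
    (fun _ _ _ => funext fun _ => by rw [mulVec_add, dotProduct_add]; rfl)
    (fun _ _ _ => funext fun _ => by rw [mulVec_smul, dotProduct_smul]; rfl)

theorem oM_apply (c : Fin m → Matrix (Fin m) (Fin m) T) (x y : Fin m → T) (k : Fin m) :
    oM c x y k = x ⬝ᵥ c k *ᵥ y := rfl

theorem map_mulVec' (f : T →+* T') (g : Matrix (Fin m) (Fin m) T) (x : Fin m → T) :
    g.map f *ᵥ (f ∘ x) = f ∘ (g *ᵥ x) := funext fun i => (RingHom.map_mulVec f g x i).symm

theorem oM_map (f : T →+* T') (c : Fin m → Matrix (Fin m) (Fin m) T) (x y : Fin m → T) :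
    oM (fun k => (c k).map f) (f ∘ x) (f ∘ y) = f ∘ oM c x y := funext fun k => by
  rw [oM_apply, map_mulVec', ← RingHom.map_dotProduct]; rfl

theorem comp_single (f : T →+* T') (i : Fin m) :
    f ∘ (Pi.single i 1 : Fin m → T) = Pi.single i 1 := by
  funext j; simp [Pi.single_apply]

theorem lin_ext_of (f : T →+* T') {M : Type*} [AddCommGroup M] [Module T' M]
    {a b : (Fin m → T') →ₗ[T'] M} (h : ∀ x : Fin m → T, a (f ∘ x) = b (f ∘ x)) (x : Fin m → T') :
    a x = b x :=
  LinearMap.congr_fun ((Pi.basisFun T' (Fin m)).ext fun i => by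
    rw [Pi.basisFun_apply, ← comp_single f, h]) x

theorem qv_ext_of (f : T →+* T') {A B : Matrix (Fin m) (Fin m) T'}
    (h : ∀ x : Fin m → T, qv A (f ∘ x) = qv B (f ∘ x)) : ∀ x, qv A x = qv B x := by
  have h1 : ∀ i, qv A (Pi.single i 1) = qv B (Pi.single i 1) := fun i => by
    rw [← comp_single f, h]
  refine (qv_ext_iff _ _).2 ⟨fun i => by simpa only [qv_single] using h1 i, ?_⟩
  ext i j
  have := h (Pi.single i 1 + Pi.single j 1)
  rw [show f ∘ (Pi.single i 1 + Pi.single j 1 : Fin m → T) = Pi.single i 1 + Pi.single j 1 by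
    rw [← comp_single f i, ← comp_single f j]; funext k; exact map_add f _ _, qv_add, qv_add, h1, h1,
    bv_single, bv_single] at this
  exact add_left_cancel this

variable {c c' c'' : Fin m → Matrix (Fin m) (Fin m) T} {g g' Q Q' : Matrix (Fin m) (Fin m) T}
  {e e' : Fin m → T} {μ : Bil T m}

theorem qv_lin (Q : Matrix (Fin m) (Fin m) T) (l : (Fin m → T) →ₗ[T] (Fin m → T)) (x : Fin m → T) :
    qv Q (l x) = qv ((LinearMap.toMatrix' l)ᵀ * Q * LinearMap.toMatrix' l) x := by
  rw [← qv_mulVec, LinearMap.toMatrix'_mulVec]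

theorem Cmp.map (h : Cmp Q (oM c) e) (f : T →+* T') :
    Cmp (Q.map f) (oM fun k => (c k).map f) (f ∘ e) where
  unim := h.unim.map f
  one_mul := lin_ext_of f (b := LinearMap.id) fun x => by rw [oM_map, h.one_mul]; rfl
  mul_one := lin_ext_of f (a := (oM fun k => (c k).map f).flip (f ∘ e)) (b := LinearMap.id)
    fun x => by rw [LinearMap.flip_apply, oM_map, h.mul_one]; rfl
  comp x y := by
    rw [qv_lin, ← qv_smul_mat]
    refine qv_ext_of f (fun y => ?_) y
    rw [← qv_lin, qv_smul_mat, mul_comm, ← qv_smul_mat, ← LinearMap.flip_apply (oM _), qv_lin]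
    refine qv_ext_of f (fun x => ?_) x
    rw [← qv_lin, LinearMap.flip_apply, qv_smul_mat, oM_map, qv_map, qv_map, qv_map, h.comp,
      map_mul, mul_comm]
  norm_one := by rw [qv_map, h.norm_one, map_one]

theorem Cmp.of_map (f : T →+* T') (hf : Function.Injective f) [IsLocalHom f]
    (h : Cmp (Q.map f) (oM fun k => (c k).map f) (f ∘ e)) : Cmp Q (oM c) e where
  unim := Unim.of_map f h.unim
  one_mul x := hf.comp_left (by change f ∘ _ = f ∘ _; rw [← oM_map, h.one_mul])
  mul_one x := hf.comp_left (by change f ∘ _ = f ∘ _; rw [← oM_map, h.mul_one])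
  comp x y := hf (by rw [map_mul, ← qv_map, ← qv_map, ← qv_map, ← oM_map, h.comp])
  norm_one := hf (by rw [← qv_map, h.norm_one, map_one])

/-- The product determines the norm. -/
theorem Cmp.norm_unique (h : Cmp Q μ e) (h' : Cmp Q' μ e) (hm : 2 ≤ m) :
    ∀ x, qv Q x = qv Q' x := by
  have hx : ∀ x, (bv Q x e - bv Q' x e) • x = (qv Q x - qv Q' x) • e := fun x => by
    have := (h.sq x).symm.trans (h'.sq x)
    rw [sub_smul, sub_smul]
    exact sub_eq_sub_iff_sub_eq_sub.1 this
  let l : Fin m → T := fun i => bv Q (Pi.single i 1) e - bv Q' (Pi.single i 1) e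
  have a1 : ∀ i j, i ≠ j → l i * e j = 0 := fun i j hij => by
    have p := congrFun (hx (Pi.single i 1)) i
    have q := congrFun (hx (Pi.single i 1)) j
    simp only [Pi.smul_apply, smul_eq_mul, Pi.single_eq_same, Pi.single_eq_of_ne' hij] at p q
    simp only [l]
    linear_combination e j * p - e i * q
  have a2 : ∀ j, l j * e j * e j = 0 := fun j => by
    have : Nontrivial (Fin m) := Fin.nontrivial_iff_two_le.2 hm
    obtain ⟨i, hij⟩ := exists_ne j
    have p := congrFun (hx (Pi.single i 1 + Pi.single j 1)) i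
    have q := congrFun (hx (Pi.single i 1 + Pi.single j 1)) j
    have r := a1 i j hij
    have s := a1 j i hij.symm
    simp only [Pi.smul_apply, smul_eq_mul, Pi.add_apply, Pi.single_eq_same, bv_add_left,
      Pi.single_eq_of_ne' hij, Pi.single_eq_of_ne hij] at p q
    simp only [l] at r s ⊢
    linear_combination (e j * e j) * p - (e i * e j) * q + (e i - e j) * r + e j * s
  have hn : ∑ i, e i * (Q *ᵥ e) i = 1 := h.norm_one
  have a3 : ∀ j, l j = 0 := fun j => by
    have : l j = l j * e j * (Q *ᵥ e) j := by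
      conv_lhs => rw [← _root_.mul_one (l j), ← hn, Finset.mul_sum, Finset.sum_eq_single j (fun i _ hi => by
        rw [← mul_assoc, a1 j i hi.symm, zero_mul]) (by simp), ← mul_assoc]
    linear_combination (1 + e j * (Q *ᵥ e) j) * this + ((Q *ᵥ e) j) ^ 2 * a2 j
  intro x
  have a4 : bv Q x e = bv Q' x e := by
    have : x = ∑ j, x j • (Pi.single j 1 : Fin m → T) := by
      funext k; simp [Finset.sum_apply, Pi.single_apply]
    rw [this, bv_sum_left, bv_sum_left]
    exact Finset.sum_congr rfl fun j _ => by rw [sub_eq_zero.1 (a3 j)]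
  have := congrArg (fun v => v ⬝ᵥ Q *ᵥ e) (hx x)
  simp only [a4, sub_self, zero_smul, zero_dotProduct, smul_dotProduct, smul_eq_mul] at this
  have k : e ⬝ᵥ Q *ᵥ e = 1 := hn
  rw [k, _root_.mul_one] at this
  exact sub_eq_zero.1 this.symm

/-- `g` is multiplicative. -/
def OHom (g : Matrix (Fin m) (Fin m) T) (c c' : Fin m → Matrix (Fin m) (Fin m) T) : Prop :=
  ∀ x y, g *ᵥ oM c x y = oM c' (g *ᵥ x) (g *ᵥ y)

theorem OHom.map (h : OHom g c c') (f : T →+* T') :
    OHom (g.map f) (fun k => (c k).map f) fun k => (c' k).map f := fun x y =>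
  LinearMap.congr_fun (lin_ext_of f
    (a := (oM fun k => (c k).map f).compr₂ (g.map f).mulVecLin)
    (b := (oM fun k => (c' k).map f).compl₁₂ (g.map f).mulVecLin (g.map f).mulVecLin)
    (fun x => LinearMap.ext (lin_ext_of f fun y => by
      simp only [LinearMap.compr₂_apply, LinearMap.compl₁₂_apply, mulVecLin_apply, oM_map,
        map_mulVec', h x y])) x) y

theorem OHom.mul (h : OHom g c c') (h' : OHom g' c' c'') : OHom (g' * g) c c'' := fun x y => by
  rw [← mulVec_mulVec, ← mulVec_mulVec, ← mulVec_mulVec, h, h']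

theorem cancel_mulVec (hg : IsUnit g.det) {x y : Fin m → T} (h : g *ᵥ x = g *ᵥ y) : x = y := by
  simpa only [mulVec_mulVec, nonsing_inv_mul _ hg, one_mulVec] using congrArg (g⁻¹ *ᵥ ·) h

theorem OHom.inv (h : OHom g c c') (hg : IsUnit g.det) : OHom g⁻¹ c' c := fun x y =>
  cancel_mulVec hg (by simp only [h _ _, mulVec_mulVec, mul_nonsing_inv _ hg, one_mulVec])

theorem OHom.unique (h : OHom g c c'') (h' : OHom g c' c'') (hg : IsUnit g.det) : c = c' := by
  funext k
  ext i j
  have := congrFun (cancel_mulVec hg ((h (Pi.single i 1) (Pi.single j 1)).trans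
    (h' _ _).symm)) k
  simpa [oM_apply] using this

theorem exists_oHom (c : Fin m → Matrix (Fin m) (Fin m) T) (hg : IsUnit g.det) :
    ∃ c', OHom g c' c := by
  refine ⟨fun k => ∑ l, g⁻¹ k l • (gᵀ * c l * g), fun x y => ?_⟩
  have : oM (fun k => ∑ l, g⁻¹ k l • (gᵀ * c l * g)) x y = g⁻¹ *ᵥ oM c (g *ᵥ x) (g *ᵥ y) := by
    funext k
    simp only [oM_apply, sum_mulVec, dotProduct_sum, smul_mulVec, dotProduct_smul, ← mulVec_mulVec,
      dotProduct_mulVec x gᵀ, vecMul_transpose, smul_eq_mul]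
    rfl
  rw [this, mulVec_mulVec, mul_nonsing_inv _ hg, one_mulVec]

theorem OHom.cmp (h : OHom g c c') (hg : IsUnit g.det) (k : Cmp Q' (oM c') e') (hQ : Carries g Q Q')
    (he : g *ᵥ e = e') : Cmp Q (oM c) e where
  unim := hQ.unim hg k.unim
  one_mul x := cancel_mulVec hg (by rw [h, he, k.one_mul])
  mul_one x := cancel_mulVec hg (by rw [h, he, k.mul_one])
  comp x y := by rw [← hQ, h, k.comp, hQ, hQ]
  norm_one := by rw [← hQ, he, k.norm_one]

/-- Automorphisms fix the unit and preserve the norm. -/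
theorem OHom.aut (h : OHom g c c) (hg : IsUnit g.det) (k : Cmp Q (oM c) e) (hm : 2 ≤ m) :
    g *ᵥ e = e ∧ Carries g Q Q := by
  have he : g *ᵥ e = e := by
    have := h e (g⁻¹ *ᵥ e)
    rw [k.one_mul, mulVec_mulVec, mul_nonsing_inv _ hg, one_mulVec, k.mul_one] at this
    exact this.symm
  exact ⟨he, fun x => (qv_mulVec Q g x).trans
    ((h.cmp hg k (fun x => qv_mulVec Q g x) he).norm_unique k hm x)⟩

theorem IsoA.exists_oHom (h : IsoA (oM c) (oM c')) : ∃ g, IsUnit (Matrix.det g) ∧ OHom g c c' := by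
  obtain ⟨g, hg⟩ := h
  exact ⟨LinearMap.toMatrix' g.toLinearMap, g.isUnit_det (Pi.basisFun _ _) (Pi.basisFun _ _),
    fun x y => by simp only [LinearMap.toMatrix'_mulVec, LinearEquiv.coe_coe, hg]⟩

end Pool.Agent.GU
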