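import Pool.Agent.P.MP_c1f06d_ag.u.G2Alg

/-! Frames in quadratic modules over a semilocal ring. -/

open Matrix

namespace Pool.Agent.GU

open Pool.Agent.P.MP_c1f06d_ag

variable {T : Type*} [CommRing T] {m : ℕ}

theorem isUnit_of_forall_max {x : T} (h : ∀ N : MaximalSpectrum T, x ∉ N.asIdeal) : IsUnit x := by
  by_contra hx
  obtain ⟨I, hI, hx⟩ := exists_max_ideal_of_mem_nonunits (mem_nonunits_iff.2 hx)
  exact h ⟨I, hI⟩ hx

/-- A value that is a unit modulo each maximal ideal somewhere on an affine set is a unit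
somewhere. -/
theorem pick_unit [Finite (MaximalSpectrum T)] (A : Set (Fin m → T)) (h0 : A.Nonempty)
    (hA : ∀ x ∈ A, ∀ y ∈ A, ∀ a : T, a • x + (1 - a) • y ∈ A) (f : (Fin m → T) → T)
    (hf : ∀ (N : Ideal T) x y, Ideal.Quotient.mk N ∘ x = Ideal.Quotient.mk N ∘ y →
      Ideal.Quotient.mk N (f x) = Ideal.Quotient.mk N (f y))
    (h : ∀ N : MaximalSpectrum T, ∃ x ∈ A, f x ∉ N.asIdeal) : ∃ x ∈ A, IsUnit (f x) := by
  classical
  have key : ∀ s : Finset (MaximalSpectrum T), ∃ x ∈ A, ∀ N ∈ s, f x ∉ N.asIdeal := by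
    intro s
    induction s using Finset.induction_on with
    | empty => exact h0.imp fun x hx => ⟨hx, by simp⟩
    | insert N s hN ih =>
      obtain ⟨x, hx, hx'⟩ := ih
      obtain ⟨y, hy, hy'⟩ := h N
      obtain ⟨a, ha⟩ := Ideal.pi_quotient_surjective (I := fun M : MaximalSpectrum T => M.asIdeal)
        (fun M M' ne => Ideal.isCoprime_of_isMaximal (MaximalSpectrum.ext_iff.ne.mp ne))
        (fun M => if M = N then 0 else 1)
      refine ⟨_, hA x hx y hy a, fun M hM => ?_⟩
      have e := ha M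
      rw [← Ideal.Quotient.eq_zero_iff_mem]
      rcases Finset.mem_insert.1 hM with rfl | hM'
      · rw [if_pos rfl] at e
        rw [hf _ _ y (by funext i; simp [e]), Ideal.Quotient.eq_zero_iff_mem]
        exact hy'
      · rw [if_neg (fun e' : M = N => hN (e' ▸ hM'))] at e
        rw [hf _ _ x (by funext i; simp [e]), Ideal.Quotient.eq_zero_iff_mem]
        exact hx' M hM'
  have := Fintype.ofFinite (MaximalSpectrum T)
  obtain ⟨x, hx, hx'⟩ := key Finset.univ
  exact ⟨x, hx, isUnit_of_forall_max fun N => hx' N (Finset.mem_univ N)⟩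

variable {Q : Matrix (Fin m) (Fin m) T} {μ μ' : Bil T m} {e w : Fin m → T}
  {B : Submodule T (Fin m → T)} {ι : Type} [Fintype ι] [DecidableEq ι] {f f' : ι → Fin m → T}

omit [DecidableEq ι] in
theorem bv_sum_left (c : ι → T) (f : ι → Fin m → T) (y : Fin m → T) :
    bv Q (∑ i, c i • f i) y = ∑ i, c i * bv Q (f i) y := by
  simp only [bv, sum_dotProduct, smul_dotProduct, smul_eq_mul]

/-- A basis of `B` and its dual basis. -/
structure Frame (Q : Matrix (Fin m) (Fin m) T) (B : Submodule T (Fin m → T))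
    (f f' : ι → Fin m → T) : Prop where
  mem : ∀ i, f i ∈ B
  mem' : ∀ i, f' i ∈ B
  dual : ∀ i j, bv Q (f i) (f' j) = if i = j then 1 else 0
  exp : ∀ a ∈ B, ∑ i, bv Q a (f' i) • f i = a

omit [DecidableEq ι] in
/-- The vectors `f' i` do not span modulo a maximal ideal. -/
theorem not_span (N : MaximalSpectrum T) (hc : Fintype.card ι < m) (f' : ι → Fin m → T)
    (c : Fin m → ι → T) :
    ¬ ∀ j k, (Pi.single j (1 : T) - ∑ i, c j i • f' i : Fin m → T) k ∈ N.asIdeal := by
  intro hk
  have := N.isMaximal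
  have : Nontrivial (T ⧸ N.asIdeal) := Ideal.Quotient.nontrivial_iff.2 this.ne_top
  have e : (Matrix.of c).map (Ideal.Quotient.mk N.asIdeal) *
      (Matrix.of f').map (Ideal.Quotient.mk N.asIdeal) = 1 := by
    rw [← Matrix.map_mul, ← Matrix.map_one (Ideal.Quotient.mk N.asIdeal) (map_zero _) (map_one _)]
    ext j k
    rw [map_apply, map_apply, eq_comm, Ideal.Quotient.eq]
    simpa [mul_apply, one_apply, Pi.single_apply, Finset.sum_apply, eq_comm] using hk j k
  have h1 := rank_mul_le_left ((Matrix.of c).map (Ideal.Quotient.mk N.asIdeal))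
    ((Matrix.of f').map (Ideal.Quotient.mk N.asIdeal))
  rw [e, rank_one, Fintype.card_fin] at h1
  exact absurd (h1.trans (rank_le_card_width _)) (not_le.2 hc)

theorem Frame.perp (hF : Frame Q B f f') (x : Fin m → T) :
    Perp Q B (x - ∑ i, bv Q x (f i) • f' i) := fun a ha => by
  have : ∀ j, bv Q (f j) (x - ∑ i, bv Q x (f i) • f' i) = 0 := fun j => by
    rw [bv_sub_right, bv_comm Q _ (∑ i, _), bv_sum_left]
    simp [bv_comm Q (f' _), hF.dual, bv_comm Q x]
  rw [← hF.exp a ha, bv_sum_left]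
  simp [this]

theorem Frame.exists_perp (hQ : Unim Q) (hF : Frame Q B f f') (hc : Fintype.card ι < m)
    (N : MaximalSpectrum T) : ∃ w, Perp Q B w ∧ qv Q w ∉ N.asIdeal := by
  by_contra hn
  push Not at hn
  refine not_span N hc f' (fun j i => bv Q (Pi.single j 1) (f i)) fun j k => ?_
  obtain ⟨y, hy⟩ := hQ.exists_bv_eq k
  have h1 := hF.perp (Pi.single j 1)
  have h2 := hF.perp y
  generalize (Pi.single j (1 : T) - ∑ i, bv Q (Pi.single j 1) (f i) • f' i : Fin m → T) = x at h1
  have h3 := hn (x + (y - ∑ i, bv Q y (f i) • f' i)) fun a ha => by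
    rw [bv_add_right, h1 a ha, h2 a ha, add_zero]
  rw [qv_add, N.asIdeal.add_mem_iff_right (add_mem (hn _ h1) (hn _ h2)), bv_sub_right, hy,
    bv_comm, h1 _ (B.sum_mem fun i _ => B.smul_mem _ (hF.mem' i)), sub_zero] at h3
  exact h3

theorem Frame.exists_unit [Finite (MaximalSpectrum T)] (hQ : Unim Q) (hF : Frame Q B f f')
    (hc : Fintype.card ι < m) : ∃ w, Perp Q B w ∧ IsUnit (qv Q w) :=
  pick_unit {w | Perp Q B w} ⟨0, fun _ _ => bv_zero_right _ _⟩
    (fun x hx y hy c a ha => by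
      rw [bv_add_right, bv_smul_right, bv_smul_right, hx a ha, hy a ha]; ring) _
    (fun N x y h => by rw [← qv_map, ← qv_map, h]) (hF.exists_perp hQ hc)

theorem Frame.top (hF : Frame Q B f f') (hc : Fintype.card ι = m) (x : Fin m → T) : x ∈ B := by
  have e : Matrix.of f * Matrix.of (fun j i => bv Q (Pi.single j 1) (f' i)) = 1 := by
    ext i k
    have : f i = ∑ j, f i j • (Pi.single j 1 : Fin m → T) := by
      funext l; simp [Finset.sum_apply, Pi.single_apply]
    rw [one_apply, ← hF.dual, this, bv_sum_left]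
    simp [mul_apply]
  replace e := (mul_eq_one_comm_of_card_eq _ _ _ (hc.trans (Fintype.card_fin m).symm)).1 e
  have : x = ∑ i, (x ᵥ* Matrix.of (fun j i => bv Q (Pi.single j 1) (f' i))) i • f i := by
    conv_lhs => rw [← vecMul_one x, ← e, ← vecMul_vecMul]
    funext l
    simp [vecMul, dotProduct, Finset.sum_apply]
  rw [this]
  exact B.sum_mem fun i _ => B.smul_mem _ (hF.mem i)

theorem Frame.dbl (h : Cmp Q μ e) (hB : SubA μ e B) (hw : Perp Q B w) {c : T}
    (hc : c * qv Q w = 1) (hF : Frame Q B f f') :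
    Frame Q (dbl μ B w) (Sum.elim f fun i => μ (f i) w) (Sum.elim f' fun i => μ (c • f' i) w) := by
  have l : ∀ a ∈ B, a ∈ GU.dbl μ B w := fun a ha => Submodule.mem_sup_left ha
  have r : ∀ a ∈ B, μ a w ∈ GU.dbl μ B w := fun a ha => Submodule.mem_sup_right ⟨a, ha, rfl⟩
  have k : ∀ a b, bv Q (μ a w) (μ (c • b) w) = bv Q a b := fun a b => by
    rw [h.b_right, bv_smul_right]; linear_combination bv Q a b * hc
  refine ⟨?_, ?_, ?_, ?_⟩
  · rintro (i | i)
    exacts [l _ (hF.mem i), r _ (hF.mem i)]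
  · rintro (i | i)
    exacts [l _ (hF.mem' i), r _ (B.smul_mem _ (hF.mem' i))]
  · rintro (i | i) (j | j)
    · simpa using hF.dual i j
    · simpa using h.perp_mul hB hw (hF.mem i) (B.smul_mem c (hF.mem' j))
    · simpa [bv_comm Q (μ _ w)] using h.perp_mul hB hw (hF.mem' j) (hF.mem i)
    · simp only [Sum.elim_inr, k, hF.dual, Sum.inr.injEq]
  · intro x hx
    obtain ⟨a, ha, b, hb, rfl⟩ := mem_dbl.1 hx
    simp only [Fintype.sum_sum_type, Sum.elim_inl, Sum.elim_inr, bv_add_left, k,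
      bv_comm Q (μ b w) (f' _), h.perp_mul hB hw (hF.mem' _) hb,
      h.perp_mul hB hw ha (B.smul_mem c (hF.mem' _)), add_zero, zero_add, hF.exp a ha]
    conv_rhs => rw [← hF.exp b hb]
    simp

/-- The linear map that exchanges two doublings of `B`. -/
theorem Frame.exists_map (h : Cmp Q μ e) (hB : SubA μ e B) (hw : Perp Q B w) {c : T}
    (hc : c * qv Q w = 1) (hF : Frame Q B f f') (μ' : Bil T m) :
    ∃ g : (Fin m → T) →ₗ[T] (Fin m → T), ∀ a ∈ B, ∀ b ∈ B, g (a + μ b w) = a + μ' b w := by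
  let L : (Fin m → T) → (Fin m → T) →ₗ[T] T := fun y =>
    { toFun := fun x => bv Q x y
      map_add' := fun x x' => bv_add_left Q x x' y
      map_smul' := fun a x => bv_smul_left Q a x y }
  have k : ∀ a b, bv Q (μ a w) (μ (c • b) w) = bv Q a b := fun a b => by
    rw [h.b_right, bv_smul_right]; linear_combination bv Q a b * hc
  refine ⟨∑ i, (L (f' i)).smulRight (f i) + ∑ i, (L (μ (c • f' i) w)).smulRight (μ' (f i) w),
    fun a ha b hb => ?_⟩
  simp only [LinearMap.add_apply, LinearMap.sum_apply, LinearMap.smulRight_apply, L,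
    LinearMap.coe_mk, AddHom.coe_mk, bv_add_left, k,
    bv_comm Q (μ b w) (f' _), h.perp_mul hB hw (hF.mem' _) hb,
    h.perp_mul hB hw ha (B.smul_mem c (hF.mem' _)), add_zero, zero_add, hF.exp a ha]
  conv_rhs => rw [← hF.exp b hb]
  simp

end Pool.Agent.GU
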