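import Pool.Agent.P.MP_c1f06d_ag.H90

/-! Matrix cocycles over a semilocal base are coboundaries on the same cover. -/

open Matrix TensorProduct

universe u

namespace Pool.Agent.GU

open Pool.Agent.P.MP_c1f06d_ag

variable {R : Type u} [CommRing R]

theorem basis_of_form [Finite (MaximalSpectrum R)] {S M : Type u} [CommRing S] [Algebra R S]
    [Module.FaithfullyFlat R S] [AddCommGroup M] [Module R M] {n : ℕ}
    (φ : S ⊗[R] M ≃ₗ[S] (Fin n → S)) : Nonempty (Module.Basis (Fin n) R M) := by
  have h1 : Module.Finite S (S ⊗[R] M) := Module.Finite.equiv φ.symm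
  have h2 : Module.Free S (S ⊗[R] M) := Module.Free.of_equiv φ.symm
  have h3 : Module.Finite R M := Module.Finite.of_finite_tensorProduct_of_faithfullyFlat S
  have h4 : Module.Flat R M := Module.Flat.of_flat_tensorProduct R M S
  refine Module.nonempty_basis_of_flat_of_finrank_eq R M n fun P => ?_
  have := P.isMaximal
  let _ := Ideal.Quotient.field P.asIdeal
  obtain ⟨q, hq, hq'⟩ := Ideal.exists_isPrime_liesOver_of_faithfullyFlat (B := S) P.asIdeal
  have : Nontrivial S := (algebraMap S (S ⧸ q)).domain_nontrivial
  rw [← Module.finrank_baseChange (R := S ⧸ q),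
    (AlgebraTensorModule.cancelBaseChange R (R ⧸ P.asIdeal) (S ⧸ q) (S ⧸ q) M).finrank_eq,
    ← (AlgebraTensorModule.cancelBaseChange R S (S ⧸ q) (S ⧸ q) M).finrank_eq,
    Module.finrank_baseChange, φ.finrank_eq, Module.finrank_fin_fun]

theorem h90_semi [Finite (MaximalSpectrum R)] {S : Type u} [CommRing S] [Algebra R S]
    [Module.FaithfullyFlat R S] {n : ℕ}
    (g : ∀ (T : Type u) [CommRing T] [Algebra R T],
      (S →ₐ[R] T) → (S →ₐ[R] T) → Matrix (Fin n) (Fin n) T)
    (hnat : ∀ (T T' : Type u) [CommRing T] [Algebra R T] [CommRing T'] [Algebra R T']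
      (f : T →ₐ[R] T') (a b : S →ₐ[R] T), (g T a b).map f = g T' (f.comp a) (f.comp b))
    (hone : ∀ (T : Type u) [CommRing T] [Algebra R T] (a : S →ₐ[R] T), g T a a = 1)
    (hmul : ∀ (T : Type u) [CommRing T] [Algebra R T] (a b c : S →ₐ[R] T),
      g T b c * g T a b = g T a c) :
    ∃ h : Matrix (Fin n) (Fin n) S, IsUnit h.det ∧
      ∀ (T : Type u) [CommRing T] [Algebra R T] (a b : S →ₐ[R] T),
        g T a b * h.map a = h.map b := by
  set il : S →ₐ[R] S ⊗[R] S := Algebra.TensorProduct.includeLeft with hil
  set ir : S →ₐ[R] S ⊗[R] S := Algebra.TensorProduct.includeRight with hir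
  set G := g (S ⊗[R] S) il ir with hG
  have hspan : ∀ x, x ∈ Submodule.span S (LinearMap.ker (h90d G) : Set (Fin n → S)) := by
    intro x
    obtain ⟨ξ, hξ⟩ := (piRight R R S (fun _ : Fin n => S)).surjective (G *ᵥ fun i => il (x i))
    rw [piRight_apply] at hξ
    have h0 : (h90d G).lTensor S ξ = 0 := by
      apply (piRight R R S (fun _ : Fin n => S ⊗[R] S)).injective
      rw [map_zero, piRight_apply]
      funext i
      rw [h90_lTensor, hξ]
      set p12 := Algebra.TensorProduct.map (AlgHom.id R S) il with hp12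
      set p13 := Algebra.TensorProduct.map (AlgHom.id R S) ir with hp13
      set p23 : S ⊗[R] S →ₐ[R] S ⊗[R] (S ⊗[R] S) := Algebra.TensorProduct.includeRight with hp23
      have e1 : p13.comp il = p12.comp il := by
        rw [hp12, hp13, hil, Algebra.TensorProduct.map_comp_includeLeft,
          Algebra.TensorProduct.map_comp_includeLeft]
      have e2 : p23.comp il = p12.comp ir := by
        rw [hp12, hir, Algebra.TensorProduct.map_comp_includeRight]
      have e3 : p23.comp ir = p13.comp ir := by
        rw [hp13, hir, Algebra.TensorProduct.map_comp_includeRight]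
      have hc : G.map p23 * G.map p12 = G.map p13 := by
        rw [hG, hnat, hnat, hnat, e1, e2, e3, hmul]
      have hx : ∀ k, p13 (il (x k)) = p12 (il (x k)) := fun k => AlgHom.congr_fun e1 (x k)
      have hc' : ∀ k, p13 (G i k) = ∑ j, ((1 : S) ⊗ₜ[R] G i j) * p12 (G j k) := fun k =>
        (congrFun (congrFun hc i) k).symm
      simp only [mulVec, dotProduct, map_sum, map_mul, hx, hc', Finset.mul_sum, Finset.sum_mul,
        Pi.zero_apply, mul_assoc]
      rw [Finset.sum_comm, sub_self]
    obtain ⟨η, hη⟩ :=
      (Module.Flat.lTensor_exact S (LinearMap.exact_subtype_ker_map (h90d G)) ξ).1 h0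
    have h1 := h90_mem_span (LinearMap.ker (h90d G)) η
    rw [hη, hξ] at h1
    have h2 : G.map (Algebra.TensorProduct.lmul' R : S ⊗[R] S →ₐ[R] S) = 1 := by
      rw [hG, hnat, hil, hir, Algebra.TensorProduct.lmul'_comp_includeLeft,
        Algebra.TensorProduct.lmul'_comp_includeRight, hone]
    have h3 : (fun i => Algebra.TensorProduct.lmul' R ((G *ᵥ fun i => il (x i)) i)) = x := by
      funext i
      have h4 : ∀ j, Algebra.TensorProduct.lmul' R (G i j) = (1 : Matrix (Fin n) (Fin n) S) i j :=
        fun j => congrFun (congrFun h2 i) j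
      have h5 : ∀ j, Algebra.TensorProduct.lmul' R (il (x j)) = x j := fun j => by simp [hil]
      simp only [mulVec, dotProduct, map_sum, map_mul, h4, h5]
      exact congrFun (one_mulVec x) i
    rwa [h3] at h1
  have hker : ∀ (y : LinearMap.ker (h90d G)) i,
      ∑ j, G i j * (y.1 j ⊗ₜ[R] (1 : S)) = (1 : S) ⊗ₜ[R] y.1 i := fun y i => by
    have h7 : h90d G y.1 i = 0 := congrFun (LinearMap.mem_ker.1 y.2) i
    rwa [h90d_apply, sub_eq_zero] at h7
  let φ := (LinearMap.ker (h90d G)).subtype.liftBaseChange S
  have hφ : ∀ ξ, (G *ᵥ fun i => il (φ ξ i)) =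
      piRightHom R R S (fun _ : Fin n => S) ((LinearMap.ker (h90d G)).subtype.lTensor S ξ) := by
    intro ξ
    induction ξ using TensorProduct.induction_on with
    | zero => simp only [map_zero, Pi.zero_apply]; exact mulVec_zero _
    | add a b ha hb => simp only [map_add, Pi.add_apply, ← ha, ← hb]; exact mulVec_add _ _ _
    | tmul s y =>
      funext i
      have : s ⊗ₜ[R] y.1 i = il s * ((1 : S) ⊗ₜ[R] y.1 i) := by simp [hil]
      simp only [φ, LinearMap.liftBaseChange_tmul, LinearMap.lTensor_tmul, piRightHom_tmul,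
        Submodule.subtype_apply, this, ← hker, mulVec, dotProduct, Pi.smul_apply, smul_eq_mul,
        map_mul, Finset.mul_sum]
      exact Finset.sum_congr rfl fun j _ => mul_left_comm _ _ _
  have hbij : Function.Bijective φ := by
    refine ⟨(injective_iff_map_eq_zero φ).2 fun ξ h0 => ?_, fun x => ?_⟩
    · apply Module.Flat.lTensor_preserves_injective_linearMap (M := S) _
        (LinearMap.ker (h90d G)).injective_subtype
      apply (piRight R R S (fun _ : Fin n => S)).injective
      rw [piRight_apply, ← hφ, h0]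
      simp only [map_zero, Pi.zero_apply]
      exact mulVec_zero _
    · rw [← Set.mem_range, ← LinearMap.coe_range, SetLike.mem_coe, LinearMap.range_liftBaseChange,
        Submodule.range_subtype]
      exact hspan x
  obtain ⟨b⟩ := basis_of_form (LinearEquiv.ofBijective φ hbij)
  let b' := (b.baseChange S).map (LinearEquiv.ofBijective φ hbij)
  have hb' : ∀ k, b' k = (b k).1 := fun k => by simp [b', φ]
  refine ⟨(Pi.basisFun S (Fin n)).toMatrix b', ?_, fun T _ _ a c => ?_⟩
  · have := (Pi.basisFun S (Fin n)).invertibleToMatrix b'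
    exact isUnit_det_of_invertible _
  have h6 : g T a c = G.map (Algebra.TensorProduct.productMap a c) := by
    rw [hG, hnat, hil, hir, Algebra.TensorProduct.productMap_left,
      Algebra.TensorProduct.productMap_right]
  ext i k
  have h8 := congrArg (Algebra.TensorProduct.productMap a c) (hker (b k) i)
  simp only [map_sum, map_mul, Algebra.TensorProduct.productMap_left_apply,
    Algebra.TensorProduct.productMap_right_apply] at h8
  rw [h6, mul_apply]
  simpa only [map_apply, Module.Basis.toMatrix_apply, Pi.basisFun_repr, hb'] using h8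

end Pool.Agent.GU
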