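import Pool.Agent.P.MP_c1f06d_ag.u.GS
import Pool.Agent.P.MP_c1f06d_ag.u.G2Def
import Pool.Agent.P.MP_c1f06d_ag.u.G2Co
import Pool.Agent.P.MP_c1f06d_ag.u.G2H90
import Pool.Agent.P.MP_c1f06d_ag.Tors2

/-! Cocycles in the automorphism group of an octonion algebra. -/

open Matrix TensorProduct

universe u

namespace Pool.Agent.GU

open Pool.Agent.P.MP_c1f06d_ag

variable {R : Type u} [CommRing R] {c c' : Fin 8 → Matrix (Fin 8) (Fin 8) R}
  {T T' : Type u} [CommRing T] [Algebra R T] [CommRing T'] [Algebra R T']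

theorem IsOctonion.cmp (h : IsOctonion c) : ∃ Q e, Cmp Q (oM c) e := by
  obtain ⟨e, Q, h1, h2, h3⟩ := h
  have e0 : ∀ x y, octMul c R x y = oM c x y := fun x y => funext fun k => by
    rw [octMul, Algebra.algebraMap_self, RingHom.coe_id, Matrix.map_id, oM_apply]
  simp only [e0] at h2 h3
  refine ⟨Q, e, h1, fun x => (h2 x).1, fun x => (h2 x).2, h3, ?_⟩
  have k : ∀ x, qv Q x = qv Q e * qv Q x := fun x => by
    have := h3 e x
    rwa [(h2 x).1] at this
  have := congrFun (Unim.eq_zero h1 (x := (qv Q e - 1) • (fun _ => 1 : Fin 8 → R)) fun y => by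
    have := k ((fun _ => 1) + y)
    rw [qv_add] at this
    rw [bv_smul_left]
    linear_combination k (fun _ => 1) + k y - this) 0
  simpa [sub_eq_zero] using this

variable (T) in
/-- Structure constants over an algebra. -/
abbrev cOver (c : Fin 8 → Matrix (Fin 8) (Fin 8) R) : Fin 8 → Matrix (Fin 8) (Fin 8) T :=
  fun k => (c k).map (algebraMap R T)

theorem OHom.mapAlg {g : Matrix (Fin 8) (Fin 8) T} (h : OHom g (cOver T c) (cOver T c'))
    (f : T →ₐ[R] T') : OHom (g.map f) (cOver T' c) (cOver T' c') := by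
  have e : ∀ c : Fin 8 → Matrix (Fin 8) (Fin 8) R,
      (fun k => (cOver T c k).map f.toRingHom) = cOver T' c := fun c =>
    funext fun k => map_algebraMap_algHom (c k) f
  have := h.map f.toRingHom
  rwa [e, e] at this

theorem isUnit_det_map {g : Matrix (Fin 8) (Fin 8) T} (h : IsUnit g.det) (f : T →ₐ[R] T') :
    IsUnit (g.map f).det := by
  have := h.map f
  rwa [AlgHom.map_det] at this

theorem G2Pt.oHom (x : G2Pt c T) : OHom x.val (cOver T c) (cOver T c) := x.map_mul

/-- The image of a point. -/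
def G2Pt.map (x : G2Pt c T) (f : T →ₐ[R] T') : G2Pt c T' :=
  ⟨x.val.map f, isUnit_det_map x.isUnit f, x.oHom.mapAlg f⟩

theorem g2_good (c : Fin 8 → Matrix (Fin 8) (Fin 8) R) : (g2GF c).Good where
  chart := ⟨R, inferInstance, inferInstance, inferInstance, ⟨PUnit.unit⟩⟩
  one T _ _ _ := ⟨⟨1, by simp, fun x y => by simp only [one_mulVec]⟩, rfl⟩
  mul T _ _ _ x y := ⟨⟨x.val * y.val, by rw [det_mul]; exact x.isUnit.mul y.isUnit,
    y.oHom.mul x.oHom⟩, rfl⟩
  push _ _ _ _ _ _ f _ := ⟨PUnit.unit, fun x => ⟨x.map f, rfl⟩⟩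
  comp T T' T'' _ _ _ _ _ _ f g _ _ _ x x' x'' h h' := by
    have e : x'.val = x.val.map f := h
    have e' : x''.val = x'.val.map g := h'
    exact e'.trans (e ▸ rfl)
  cmp T _ _ _ _ := ⟨T, inferInstance, inferInstance, inferInstance, inferInstance, inferInstance,
    PUnit.unit, fun x => ⟨x.map _, rfl⟩, fun x => ⟨x.map _, rfl⟩⟩

theorem IsTypeG.good {G : GF R} (h : IsTypeG G) : G.Good := by
  obtain ⟨c, -, rfl⟩ := h
  exact g2_good c

theorem IsTypeG.gs_of_iso [Finite (MaximalSpectrum R)] {G : GF R} (hG : IsTypeG G) (K : Type u)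
    [Field K] [Algebra R K] (HI : ∀ Q Q' : Matrix (Fin 8) (Fin 8) R, Unim Q → Unim Q' →
      Iso (Q.map (algebraMap R K)) (Q'.map (algebraMap R K)) → Iso Q Q') : G.GS K := by
  obtain ⟨c, hc, rfl⟩ := hG
  obtain ⟨Q, e0, hC⟩ := hc.cmp
  intro S _ _ τ E _ _ _ e p hp
  let γ : ∀ (T : Type u) [CommRing T] [Algebra R T], (S →ₐ[R] T) → (S →ₐ[R] T) →
      Matrix (Fin 8) (Fin 8) T := fun T _ _ a b => G2Pt.val (τ.γ T PUnit.unit a b)
  have gn : ∀ (T T' : Type u) [CommRing T] [Algebra R T] [CommRing T'] [Algebra R T']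
      (f : T →ₐ[R] T') (a b : S →ₐ[R] T), (γ T a b).map f = γ T' (f.comp a) (f.comp b) :=
    fun T T' _ _ _ _ f a b => congrArg G2Pt.val
      (τ.map T T' PUnit.unit PUnit.unit f a b (G2Pt.map (τ.γ T PUnit.unit a b) f) rfl)
  have gm : ∀ (T : Type u) [CommRing T] [Algebra R T] (a b d : S →ₐ[R] T),
      γ T b d * γ T a b = γ T a d := fun T _ _ a b d => (τ.mul T PUnit.unit a b d).symm
  have gh : ∀ (T : Type u) [CommRing T] [Algebra R T] (a b : S →ₐ[R] T),
      OHom (γ T a b) (cOver T c) (cOver T c) := fun T _ _ a b => G2Pt.oHom _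
  have ga : ∀ (T : Type u) [CommRing T] [Algebra R T] (a b : S →ₐ[R] T),
      γ T a b *ᵥ (algebraMap R T ∘ e0) = algebraMap R T ∘ e0 ∧
      Carries (γ T a b) (Q.map (algebraMap R T)) (Q.map (algebraMap R T)) := fun T _ _ a b =>
    (gh T a b).aut (G2Pt.isUnit _) (hC.map (algebraMap R T)) (by omega)
  obtain ⟨h, hdet, hh⟩ := h90_semi (R := R) (S := E) (fun T _ _ a b => γ T (a.comp e) (b.comp e))
    (fun T T' _ _ _ _ f a b => gn T T' f _ _) (fun T _ _ a => τ.self T PUnit.unit _)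
    fun T _ _ a b d => gm T _ _ _
  obtain ⟨c1, hc1⟩ := exists_oHom (cOver E c) hdet
  have hd : ∀ k i j, ∃ r, algebraMap R E r = c1 k i j := fun k i j =>
    desc_base _ fun T _ _ a b => by
      have e1 : ∀ a : E →ₐ[R] T, OHom (h.map a) (fun k => (c1 k).map a) (cOver T c) := fun a => by
        have := hc1.map a.toRingHom
        rwa [show (fun k => (cOver E c k).map a.toRingHom) = cOver T c from
          funext fun k => map_algebraMap_algHom (c k) a] at this
      have e2 := (e1 a).mul (gh T (a.comp e) (b.comp e))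
      rw [hh] at e2
      exact congrFun (congrFun (congrFun (e2.unique (e1 b) (isUnit_det_map hdet b)) k) i) j
  choose c' hc' using hd
  obtain rfl : cOver E (fun k => Matrix.of (c' k)) = c1 := funext fun k => Matrix.ext (hc' k)
  generalize (fun k => Matrix.of (c' k)) = c2 at hc1
  obtain ⟨Q', hQ'⟩ := desc_form (R := R) (hᵀ * Q.map (algebraMap R E) * h) (by
    intro T _ _ a b x
    have e1 : ∀ a : E →ₐ[R] T, qv ((hᵀ * Q.map (algebraMap R E) * h).map a) x =
        qv (Q.map (algebraMap R T)) (h.map a *ᵥ x) := by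
      intro a
      rw [qv_mulVec, map_mul_algHom, map_mul_algHom, map_algebraMap_algHom, transpose_map]
    rw [e1, e1, ← hh T a b, ← mulVec_mulVec, (ga _ _ _).2])
  have hcar : Carries h (Q'.map (algebraMap R E)) (Q.map (algebraMap R E)) := fun x => by
    rw [qv_mulVec, hQ']
  have he : h *ᵥ (h⁻¹ *ᵥ (algebraMap R E ∘ e0)) = algebraMap R E ∘ e0 := by
    rw [mulVec_mulVec, mul_nonsing_inv _ hdet, one_mulVec]
  generalize h⁻¹ *ᵥ (algebraMap R E ∘ e0) = e1 at he
  have hd : ∀ i, ∃ r, algebraMap R E r = e1 i := fun i =>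
    desc_base _ fun T _ _ a b => by
      have e2 : ∀ a : E →ₐ[R] T, h.map a *ᵥ (a ∘ e1) = algebraMap R T ∘ e0 := fun a =>
        (map_mulVec' a.toRingHom h e1).trans (by rw [he]; funext i; exact a.commutes _)
      refine congrFun (cancel_mulVec (isUnit_det_map hdet b) (x := a ∘ e1) (y := b ∘ e1) ?_) i
      rw [e2 b, ← hh T a b, ← mulVec_mulVec, e2 a, (ga _ _ _).1]
  choose e' he' using hd
  obtain rfl : algebraMap R E ∘ e' = e1 := funext he'
  have hC' : Cmp Q' (oM c2) e' := Cmp.of_map (algebraMap R E)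
    (FaithfulSMul.algebraMap_injective R E) (hc1.cmp hdet (hC.map _) hcar he)
  let j : K →ₐ[R] K ⊗[R] E := Algebra.TensorProduct.includeLeft
  let r : E →ₐ[R] K ⊗[R] E := Algebra.TensorProduct.includeRight
  have key : ∀ i k, ∃ c, j c = (γ _ (r.comp e) p * h.map r) i k := fun i k => by
    refine desc_field _ fun T _ _ a b hab => ?_
    have e1 : ∀ a : K ⊗[R] E →ₐ[R] T, (γ _ (r.comp e) p * h.map r).map a =
        γ T ((a.comp r).comp e) (a.comp p) * h.map (a.comp r) := by
      intro a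
      rw [map_mul_algHom, gn, map_map_algHom]; rfl
    have e3 : γ T (a.comp p) (b.comp p) = 1 := hp T PUnit.unit a b hab
    have e2 : (γ _ (r.comp e) p * h.map r).map a = (γ _ (r.comp e) p * h.map r).map b := by
      rw [e1, e1, ← hh T (a.comp r) (b.comp r), ← Matrix.mul_assoc, gm,
        ← gm T _ (a.comp p) (b.comp p), e3, Matrix.one_mul]
    exact congrFun (congrFun e2 i) k
  choose hK hhK using key
  obtain ⟨g, hg, hg'⟩ := (bix rfl hC' hC (HI Q' Q hC'.unim hC.unim ⟨Matrix.of hK,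
    Carries.of_mapAlg j (RingHom.injective j.toRingHom) (by
      rw [show (Matrix.of hK).map j = _ from Matrix.ext hhK]
      exact (hcar.mapAlg r).mul (ga _ _ _).2)⟩)).exists_oHom
  refine ⟨E, inferInstance, inferInstance, inferInstance, AlgHom.id R E, PUnit.unit,
    ⟨g.map (algebraMap R E) * h⁻¹, ?_, (hc1.inv hdet).mul (hg'.map (algebraMap R E))⟩,
    fun T _ _ _ a b x y hx hy => ?_⟩
  · rw [det_mul]
    exact (isUnit_det_map hg (Algebra.ofId R E)).mul (isUnit_nonsing_inv_det _ hdet)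
  have e1 : G2Pt.val x = (g.map (algebraMap R E) * h⁻¹).map a := hx
  have e2 : G2Pt.val y = (g.map (algebraMap R E) * h⁻¹).map b := hy
  change G2Pt.val x = G2Pt.val y * γ T (a.comp e) (b.comp e)
  refine ((isUnit_iff_isUnit_det _).2 (isUnit_det_map hdet a)).mul_right_cancel ?_
  rw [Matrix.mul_assoc, hh, e1, e2, ← map_mul_algHom, ← map_mul_algHom, Matrix.mul_assoc,
    nonsing_inv_mul _ hdet, Matrix.mul_one, map_algebraMap_algHom, map_algebraMap_algHom]

end Pool.Agent.GU
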