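import Mathlib

open TensorProduct

universe u

namespace Pool.Agent.GU

/-- A group functor on `R`-algebras, read in charts: for every `R`-algebra `T` and every chart `c`
over `T` a set of points, with the graphs of the unit, of the product `z = x y`, and of the maps
induced by maps of `R`-algebras. -/
structure GF (R : Type u) [CommRing R] where
  Ch : ∀ (T : Type u) [CommRing T] [Algebra R T], Type u
  Pt : ∀ (T : Type u) [CommRing T] [Algebra R T], Ch T → Type u
  IsOne : ∀ (T : Type u) [CommRing T] [Algebra R T] (c : Ch T), Pt T c → Prop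
  IsMul : ∀ (T : Type u) [CommRing T] [Algebra R T] (c : Ch T), Pt T c → Pt T c → Pt T c → Prop
  IsMap : ∀ (T T' : Type u) [CommRing T] [Algebra R T] [CommRing T'] [Algebra R T']
    (c : Ch T) (c' : Ch T'), (T →ₐ[R] T') → Pt T c → Pt T' c' → Prop

variable {R : Type u} [CommRing R]

/-- The product of two group functors. -/
def GF.prod (G H : GF R) : GF R where
  Ch T _ _ := G.Ch T × H.Ch T
  Pt T _ _ c := G.Pt T c.1 × H.Pt T c.2
  IsOne T _ _ c x := G.IsOne T c.1 x.1 ∧ H.IsOne T c.2 x.2
  IsMul T _ _ c z x y := G.IsMul T c.1 z.1 x.1 y.1 ∧ H.IsMul T c.2 z.2 x.2 y.2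
  IsMap T T' _ _ _ _ c c' f x x' :=
    G.IsMap T T' c.1 c'.1 f x.1 x'.1 ∧ H.IsMap T T' c.2 c'.2 f x.2 x'.2

/-- The map `Z ⊗ T → Z ⊗ T'` induced by `f`. -/
noncomputable def weilMap (Z : Type u) [CommRing Z] [Algebra R Z] {T T' : Type u} [CommRing T]
    [Algebra R T] [CommRing T'] [Algebra R T'] (f : T →ₐ[R] T') : Z ⊗[R] T →ₐ[Z] Z ⊗[R] T' :=
  Algebra.TensorProduct.map (AlgHom.id Z Z) f

variable (R) in
/-- The Weil restriction from `Z` to `R`: its points over `T` are the points over `Z ⊗ T`. -/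
noncomputable def GF.weil {Z : Type u} [CommRing Z] [Algebra R Z] (G : GF Z) : GF R where
  Ch T _ _ := G.Ch (Z ⊗[R] T)
  Pt T _ _ c := G.Pt (Z ⊗[R] T) c
  IsOne T _ _ c x := G.IsOne (Z ⊗[R] T) c x
  IsMul T _ _ c z x y := G.IsMul (Z ⊗[R] T) c z x y
  IsMap T T' _ _ _ _ c c' f x x' := G.IsMap (Z ⊗[R] T) (Z ⊗[R] T') c c' (weilMap Z f) x x'

/-- A family of maps `G(T) × E(T) → E(T)`, one for every `R`-algebra `T` and chart over `T`. -/
def GF.Action (G : GF R) (E : Type u) [CommRing E] [Algebra R E] : Type (u + 1) :=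
  ∀ (T : Type u) [CommRing T] [Algebra R T] (c : G.Ch T), G.Pt T c → (E →ₐ[R] T) → (E →ₐ[R] T)

variable {G : GF R} {E : Type u} [CommRing E] [Algebra R E]

/-- The unit acts trivially and products act by composition. -/
def GF.Action.IsAction (act : G.Action E) : Prop :=
  ∀ (T : Type u) [CommRing T] [Algebra R T] (c : G.Ch T) (e : E →ₐ[R] T),
    (∀ x, G.IsOne T c x → act T c x e = e) ∧
    ∀ z x y, G.IsMul T c z x y → act T c z e = act T c x (act T c y e)

/-- The action commutes with maps of `R`-algebras. -/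
def GF.Action.IsNatural (act : G.Action E) : Prop :=
  ∀ (T T' : Type u) [CommRing T] [Algebra R T] [CommRing T'] [Algebra R T'] (c : G.Ch T)
    (c' : G.Ch T') (f : T →ₐ[R] T') (x : G.Pt T c) (x' : G.Pt T' c') (e : E →ₐ[R] T),
      G.IsMap T T' c c' f x x' → f.comp (act T c x e) = act T' c' x' (f.comp e)

/-- Exactly one group element moves a given point to a given point. -/
def GF.Action.IsSimplyTransitive (act : G.Action E) : Prop :=
  ∀ (T : Type u) [CommRing T] [Algebra R T] (c : G.Ch T) (e e' : E →ₐ[R] T),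
    ∃! x : G.Pt T c, act T c x e = e'

/-- `Spec E` is a torsor under `G`: it is faithfully flat over `R`, and `G(T)` acts simply
transitively on `E(T)`, naturally in the `R`-algebra `T`. -/
def GF.IsTorsor (G : GF R) (E : Type u) [CommRing E] [Algebra R E] : Prop :=
  Module.FaithfullyFlat R E ∧
    ∃ act : G.Action E, act.IsAction ∧ act.IsNatural ∧ act.IsSimplyTransitive

end Pool.Agent.GU
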