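import Pool.Agent.P.MP_c1f06d_ag.u.GF
import Pool.Agent.P.MP_c1f06d_ag.H90

open TensorProduct

universe u

namespace Pool.Agent.GU

open Pool.Agent.P.MP_c1f06d_ag

variable {R : Type u} [CommRing R]

/-- Every point in the chart `c` has an image in the chart `c'`. -/
def GF.Tot (G : GF R) {T T' : Type u} [CommRing T] [Algebra R T] [CommRing T'] [Algebra R T']
    (f : T →ₐ[R] T') (c : G.Ch T) (c' : G.Ch T') : Prop :=
  ∀ x : G.Pt T c, ∃ x' : G.Pt T' c', G.IsMap T T' c c' f x x'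

/-- What the product theorem uses of a group functor. -/
structure GF.Good (G : GF R) : Prop where
  chart : ∃ (S : Type u) (_ : CommRing S) (_ : Algebra R S),
    Module.FaithfullyFlat R S ∧ Nonempty (G.Ch S)
  one : ∀ (T : Type u) [CommRing T] [Algebra R T] (c : G.Ch T), ∃ x, G.IsOne T c x
  mul : ∀ (T : Type u) [CommRing T] [Algebra R T] (c : G.Ch T) x y, ∃ z, G.IsMul T c z x y
  push : ∀ (T T' : Type u) [CommRing T] [Algebra R T] [CommRing T'] [Algebra R T']
    (f : T →ₐ[R] T') (c : G.Ch T), ∃ c', G.Tot f c c'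
  comp : ∀ (T T' T'' : Type u) [CommRing T] [Algebra R T] [CommRing T'] [Algebra R T']
    [CommRing T''] [Algebra R T''] (f : T →ₐ[R] T') (g : T' →ₐ[R] T'') c c' c'' x x' x'',
    G.IsMap T T' c c' f x x' → G.IsMap T' T'' c' c'' g x' x'' → G.IsMap T T'' c c'' (g.comp f) x x''
  cmp : ∀ (T : Type u) [CommRing T] [Algebra R T] (c1 c2 : G.Ch T),
    ∃ (T' : Type u) (_ : CommRing T') (_ : Algebra R T') (_ : Algebra T T')
      (_ : IsScalarTower R T T'), Module.FaithfullyFlat T T' ∧ ∃ c',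
        G.Tot (IsScalarTower.toAlgHom R T T') c1 c' ∧ G.Tot (IsScalarTower.toAlgHom R T T') c2 c'

/-- A cocycle for the cover `S`. -/
structure GF.Gam (G : GF R) (S : Type u) [CommRing S] [Algebra R S] where
  γ : ∀ (T : Type u) [CommRing T] [Algebra R T] (c : G.Ch T), (S →ₐ[R] T) → (S →ₐ[R] T) → G.Pt T c
  self : ∀ (T : Type u) [CommRing T] [Algebra R T] (c : G.Ch T) a, G.IsOne T c (γ T c a a)
  mul : ∀ (T : Type u) [CommRing T] [Algebra R T] (c : G.Ch T) a a' a'',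
    G.IsMul T c (γ T c a a'') (γ T c a' a'') (γ T c a a')
  map : ∀ (T T' : Type u) [CommRing T] [Algebra R T] [CommRing T'] [Algebra R T'] (c : G.Ch T)
    (c' : G.Ch T') (f : T →ₐ[R] T') a a' y,
    G.IsMap T T' c c' f (γ T c a a') y → y = γ T' c' (f.comp a) (f.comp a')
  refl : ∀ (T T' : Type u) [CommRing T] [Algebra R T] [CommRing T'] [Algebra R T'] (c : G.Ch T)
    (c' : G.Ch T') (f : T →ₐ[R] T') a a' x, Function.Injective f →
    G.IsMap T T' c c' f x (γ T' c' (f.comp a) (f.comp a')) → x = γ T c a a'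

variable {G H : GF R} {S : Type u} [CommRing S] [Algebra R S]

/-- The cocycle, pulled back along `j`, is the coboundary of `g`. -/
def GF.Gam.Cob (τ : G.Gam S) {S' : Type u} [CommRing S'] [Algebra R S'] (j : S →ₐ[R] S')
    (c : G.Ch S') (g : G.Pt S' c) : Prop :=
  ∀ (T : Type u) [CommRing T] [Algebra R T] (c' : G.Ch T) (a b : S' →ₐ[R] T) ga gb,
    G.IsMap S' T c c' a g ga → G.IsMap S' T c c' b g gb →
      G.IsMul T c' ga gb (τ.γ T c' (a.comp j) (b.comp j))

/-- The cocycle is trivial along `p` over `K`. -/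
def GF.Gam.Gen (τ : G.Gam S) (K : Type u) [CommRing K] [Algebra R K] {S1 : Type u} [CommRing S1]
    [Algebra R S1] (p : S →ₐ[R] K ⊗[R] S1) : Prop :=
  ∀ (T : Type u) [CommRing T] [Algebra R T] (c : G.Ch T) (a b : K ⊗[R] S1 →ₐ[R] T),
    a.comp (Algebra.TensorProduct.includeLeft : K →ₐ[R] K ⊗[R] S1) =
      b.comp (Algebra.TensorProduct.includeLeft : K →ₐ[R] K ⊗[R] S1) →
    G.IsOne T c (τ.γ T c (a.comp p) (b.comp p))

/-- Cocycles that are trivial over `K` are coboundaries. -/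
def GF.GS (G : GF R) (K : Type u) [CommRing K] [Algebra R K] : Prop :=
  ∀ (S : Type u) [CommRing S] [Algebra R S] (τ : G.Gam S) (S1 : Type u) [CommRing S1] [Algebra R S1]
    [Module.FaithfullyFlat R S1] (e : S →ₐ[R] S1) (p : S →ₐ[R] K ⊗[R] S1), τ.Gen K p →
    ∃ (S' : Type u) (_ : CommRing S') (_ : Algebra R S'), Module.FaithfullyFlat R S' ∧
      ∃ (j : S1 →ₐ[R] S') (c : G.Ch S') (g : G.Pt S' c), τ.Cob (j.comp e) c g

section
variable {K : Type u} [CommRing K] [Algebra R K] {S1 S2 : Type u} [CommRing S1] [Algebra R S1]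
  [CommRing S2] [Algebra R S2]

theorem GF.Gam.Gen.map {τ : G.Gam S} {p : S →ₐ[R] K ⊗[R] S1} (h : τ.Gen K p) (j : S1 →ₐ[R] S2) :
    τ.Gen K ((Algebra.TensorProduct.map (AlgHom.id R K) j).comp p) := fun T _ _ c a b hab => by
  have e : (Algebra.TensorProduct.map (AlgHom.id R K) j).comp
      (Algebra.TensorProduct.includeLeft : K →ₐ[R] K ⊗[R] S1) =
      (Algebra.TensorProduct.includeLeft : K →ₐ[R] K ⊗[R] S2) := by ext; simp
  exact h T c (a.comp (Algebra.TensorProduct.map (AlgHom.id R K) j))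
    (b.comp (Algebra.TensorProduct.map (AlgHom.id R K) j)) (by rw [AlgHom.comp_assoc, AlgHom.comp_assoc, e, hab])

theorem GF.Gam.Cob.push (hG : G.Good) {τ : G.Gam S} {e : S →ₐ[R] S1} {c : G.Ch S1} {g : G.Pt S1 c}
    (h : τ.Cob e c g) (j : S1 →ₐ[R] S2) : ∃ c' g', τ.Cob (j.comp e) c' g' := by
  obtain ⟨c', hc⟩ := hG.push S1 S2 j c
  obtain ⟨g', hg⟩ := hc g
  exact ⟨c', g', fun T _ _ c'' a b ga gb ha hb => h T c'' (a.comp j) (b.comp j) ga gb
    (hG.comp _ _ _ _ _ _ _ _ _ _ _ hg ha) (hG.comp _ _ _ _ _ _ _ _ _ _ _ hg hb)⟩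

/-- Pull back of a cocycle. -/
def GF.Gam.pull (τ : G.Gam S) (j : S →ₐ[R] S1) : G.Gam S1 where
  γ T _ _ c a b := τ.γ T c (a.comp j) (b.comp j)
  self T _ _ c _ := τ.self T c _
  mul T _ _ c _ _ _ := τ.mul T c _ _ _
  map T T' _ _ _ _ c c' f _ _ y h := τ.map T T' c c' f _ _ y h
  refl T T' _ _ _ _ c c' f _ _ x hf h := τ.refl T T' c c' f _ _ x hf h

end

theorem ff_injective (T T' : Type u) [CommRing T] [Algebra R T] [CommRing T'] [Algebra R T']
    [Algebra T T'] [IsScalarTower R T T'] [Module.FaithfullyFlat T T'] :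
    Function.Injective (IsScalarTower.toAlgHom R T T') := FaithfulSMul.algebraMap_injective T T'

theorem torsor_main (K : Type u) [CommRing K] [Algebra R K] (hG : G.Good) (hS : G.GS K)
    {E : Type u} [CommRing E] [Algebra R E] (hE : G.IsTorsor E) (eK : E →ₐ[R] K) :
    Nonempty (E →ₐ[R] R) := by
  obtain ⟨_, act, h1, h2, h3⟩ := hE
  choose γ hγ hu using h3
  beta_reduce at hγ hu
  let τ : G.Gam E :=
    { γ := γ
      self := fun T _ _ c a => by
        obtain ⟨o, ho⟩ := hG.one T c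
        exact hu T c a a o ((h1 T c a).1 o ho) ▸ ho
      mul := fun T _ _ c a a' a'' => by
        obtain ⟨z, hz⟩ := hG.mul T c (γ T c a' a'') (γ T c a a')
        exact hu T c a a'' z (by rw [(h1 T c a).2 _ _ _ hz, hγ, hγ]) ▸ hz
      map := fun T T' _ _ _ _ c c' f a a' y h => hu T' c' _ _ y (by
        rw [← h2 T T' c c' f _ y a h, hγ])
      refl := fun T T' _ _ _ _ c c' f a a' x hf h => hu T c a a' x (AlgHom.ext fun t => hf (by
        have := h2 T T' c c' f x _ a h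
        rw [hγ] at this
        exact AlgHom.congr_fun this t)) }
  obtain ⟨S, _, _, _, j, c, g, hg⟩ := hS E τ E (AlgHom.id R E)
    ((Algebra.TensorProduct.includeLeft : K →ₐ[R] K ⊗[R] E).comp eK) fun T _ _ c a b hab => by
      rw [← AlgHom.comp_assoc, ← AlgHom.comp_assoc, hab]; exact τ.self T c _
  let a : S →ₐ[R] S ⊗[R] S := Algebra.TensorProduct.includeLeft
  let b : S →ₐ[R] S ⊗[R] S := Algebra.TensorProduct.includeRight
  obtain ⟨ca, ha⟩ := hG.push _ _ a c
  obtain ⟨cb, hb⟩ := hG.push _ _ b c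
  obtain ⟨T, _, _, _, _, _, c', ha', hb'⟩ := hG.cmp _ ca cb
  obtain ⟨g1, e1⟩ := ha g
  obtain ⟨g2, e2⟩ := hb g
  obtain ⟨ga, e3⟩ := ha' g1
  obtain ⟨gb, e4⟩ := hb' g2
  have e5 := hG.comp _ _ _ _ _ _ _ _ _ _ _ e1 e3
  have e6 := hG.comp _ _ _ _ _ _ _ _ _ _ _ e2 e4
  have key := (h1 T c' (((IsScalarTower.toAlgHom R _ T).comp a).comp j)).2 _ _ _
    (hg T c' _ _ ga gb e5 e6)
  erw [hγ] at key
  refine exists_algHom_of_eq (act S c g j) fun x => ff_injective (R := R) (S ⊗[R] S) T ?_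
  exact AlgHom.congr_fun ((h2 _ _ _ _ _ _ _ j e5).trans (key.trans (h2 _ _ _ _ _ _ _ j e6).symm)) x

end Pool.Agent.GU
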