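import Pool.Agent.P.MP_c1f06d_ag.u.GS
import Pool.Agent.P.MP_c1f06d_ag.u.Stmt
import Pool.Agent.P.MP_c1f06d_ag.su.Main
import Pool.Agent.P.MP_c1f06d_ag.su.CH90

open Matrix IsLocalRing TensorProduct

universe u

namespace Pool.Agent.GU

open Pool.Agent.SU Pool.Agent.SU.SAlg Pool.Agent.P.MP_c1f06d_ag

variable {R B : Type u} [CommRing R] [Ring B] [Algebra R B] {σ : B →ₗ[R] B} {N d : ℕ} {A : SAlg R N}

/-- A point in coordinates. -/
noncomputable def suU (c : Brid σ A) (hA : Form d A) {T : Type u} [CommRing T] [Algebra R T]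
    (x : SUPt σ d T) : UPt d A T :=
  have h : star (c.ε T x.val) * c.ε T x.val = 1 := by rw [← c.st, ← map_mul, x.unitary.1, map_one]
  ⟨c.ε T x.val, h, (c.nrdOne_iff hA h).1 x.nrdOne⟩

theorem su_val (c : Brid σ A) (hA : Form d A) {T : Type u} [CommRing T] [Algebra R T]
    (x : UPt d A T) : c.ε T (c.pt hA x).val = x.val := (c.ε T).apply_symm_apply _

theorem su_tot (c : Brid σ A) (hA : Form d A) {T T' : Type u} [CommRing T] [Algebra R T]
    [CommRing T'] [Algebra R T'] (f : T →ₐ[R] T') (x : SUPt σ d T) :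
    (c.pt hA ((suU c hA x).map f)).val = extend f x.val :=
  (c.ε T').injective (by rw [c.nat, su_val]; rfl)

theorem su_good_of_brid (c : Brid σ A) (hA : Form d A) : (suGF σ d).Good where
  chart := ⟨R, inferInstance, inferInstance, inferInstance, ⟨PUnit.unit⟩⟩
  one T _ _ _ := ⟨c.pt hA ⟨1, by rw [star_one, one_mul], isNrd_one⟩, map_one (c.ε T).symm⟩
  mul T _ _ _ x y := ⟨c.pt hA ((suU c hA x).mul (suU c hA y)),
    (c.ε T).injective (by rw [su_val, map_mul]; rfl)⟩
  push _ _ _ _ _ _ f _ := ⟨PUnit.unit, fun x => ⟨_, su_tot c hA f x⟩⟩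
  comp T T' T'' _ _ _ _ _ _ f g _ _ _ x x' x'' h h' := (c.ε T'').injective (by
    have e : x'.val = extend f x.val := h
    have e' : x''.val = extend g x'.val := h'
    rw [c.nat, e', c.nat, e, c.nat, up_up])
  cmp T _ _ _ _ := ⟨T, inferInstance, inferInstance, inferInstance, inferInstance, inferInstance,
    PUnit.unit, fun x => ⟨_, su_tot c hA _ x⟩, fun x => ⟨_, su_tot c hA _ x⟩⟩

theorem su_gs_of_core [IsLocalRing R] (c : Brid σ A) (hA : Form d A) {K : Type u} [CommRing K]
    [Algebra R K] (HT : ∀ s z : A.Car, Adm d s z →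
      Triv d (A.bc (algebraMap R K) s) (A.bc (algebraMap R K) z) → Triv d s z) :
    (suGF σ d).GS K := by
  intro S _ _ τ E _ _ _ e p hp
  let γ : ∀ (T : Type u) [CommRing T] [Algebra R T], (S →ₐ[R] T) → (S →ₐ[R] T) →
      UPt d A T := fun T _ _ a b => suU c hA (τ.γ T PUnit.unit b a)
  have gn : ∀ (T T' : Type u) [CommRing T] [Algebra R T] [CommRing T'] [Algebra R T']
      (f : T →ₐ[R] T') (a b : S →ₐ[R] T), up A f (γ T a b).val = (γ T' (f.comp a) (f.comp b)).val :=
    fun T T' _ _ _ _ f a b => (su_val c hA ((γ T a b).map f)).symm.trans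
      (congrArg (fun y : SUPt σ d T' => c.ε T' y.val)
        (τ.map T T' PUnit.unit PUnit.unit f b a _ (su_tot c hA f _)))
  have g1 : ∀ (T : Type u) [CommRing T] [Algebra R T] (a b : S →ₐ[R] T),
      (suGF σ d).IsOne T PUnit.unit (τ.γ T PUnit.unit b a) → (γ T a b).val = 1 :=
    fun T _ _ a b h => (congrArg (c.ε T) h).trans (map_one _)
  have gm : ∀ (T : Type u) [CommRing T] [Algebra R T] (a b k : S →ₐ[R] T),
      (γ T a b).val * (γ T b k).val = (γ T a k).val := fun T _ _ a b k =>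
    (map_mul _ _ _).symm.trans (congrArg (c.ε T) (τ.mul T PUnit.unit k b a)).symm
  have gu : ∀ (T : Type u) [CommRing T] [Algebra R T] (a b : S →ₐ[R] T),
      (γ T a b).val * star (γ T a b).val = 1 := fun T _ _ a b => mul_eq_one_comm' (γ T a b).uni
  obtain ⟨β, hβ, hb⟩ : ∃ β : (A.map (algebraMap R E)).Car, IsUnit β ∧
      ∀ (T : Type u) [CommRing T] [Algebra R T] (a b : E →ₐ[R] T),
        up A a β * (γ T (a.comp e) (b.comp e)).val = up A b β :=
    h90E hA.sep E (fun T _ _ a b => (γ T (a.comp e) (b.comp e)).val)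
      (fun T T' _ _ _ _ f a b => gn T T' f _ _) (fun T _ _ a => g1 T _ _ (τ.self T _ _))
      fun T _ _ a b k => gm T _ _ _
  have hi : Function.Injective (algebraMap R E) := FaithfulSMul.algebraMap_injective R E
  have hl : IsLocalHom (algebraMap R E) := isLocalHom_of_faithfullyFlat
  have hS := hA.map (algebraMap R E)
  obtain ⟨s, hs⟩ := desc_car (β * star β) fun T _ _ a b => by
    rw [map_mul, map_mul, up_star, up_star, ← hb T a b, star_mul, mul_assoc,
      ← mul_assoc (γ T _ _).val, gu, one_mul]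
  obtain ⟨z, hz⟩ := desc_car (nrd d β) fun T _ _ a b => by
    have := (γ T (a.comp e) (b.comp e)).nrd.eq (hA.map _)
    rw [up_nrd hA, up_nrd hA, ← hb T a b, (hA.map _).nrd_mul, this, mul_one]
  have hadm : Adm d s z := by
    refine ⟨bc_injective hi ?_, isUnit_of_bc (algebraMap R E) (hs ▸ hβ.mul hβ.star),
      fun y => bc_injective hi ?_, ?_⟩
    · rw [bc_star, hs, star_mul, star_star]
    · rw [map_mul, map_mul, hz, hS.nrd_cen]
    · have : nrd d s = z * star z := bc_injective hi (by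
        rw [← hA.nrd_bc, hs, map_mul, bc_star, hz, hS.nrd_mul, hS.nrd_star])
      exact this ▸ hA.isNrd s
  let il : K →ₐ[R] K ⊗[R] E := Algebra.TensorProduct.includeLeft
  let ir : E →ₐ[R] K ⊗[R] E := Algebra.TensorProduct.includeRight
  have hil : Function.Injective il := FaithfulSMul.algebraMap_injective K (K ⊗[R] E)
  obtain ⟨bK, hbK⟩ : ∃ bK, up A il bK = up A ir β * (γ _ (ir.comp e) p).val :=
    ch90_desc A K E (up A ir β * (γ _ (ir.comp e) p).val) fun T _ _ a b hab => by
      change up A a _ = up A b _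
      rw [map_mul, map_mul, up_up, up_up, gn, gn, ← hb T (a.comp ir) (b.comp ir), mul_assoc]
      simp only [← AlgHom.comp_assoc]
      rw [gm, ← gm T _ (a.comp p) (b.comp p), g1 T _ _ (hp T _ b a hab.symm), mul_one]
  obtain ⟨b0, h1, h2⟩ := HT s z hadm ⟨bK, up_injective hil (by
    rw [map_mul, up_star, hbK, up_bc, ← up_bc ir, hs, map_mul, up_star, star_mul,
      mul_assoc, ← mul_assoc (γ _ _ _).val, gu, one_mul]), by
    have : nrd d bK = A.bc (algebraMap R K) z := up_injective hil (by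
      rw [up_nrd hA, hbK, (hA.map _).nrd_mul, (γ _ _ _).nrd.eq (hA.map _), mul_one, up_bc,
        ← up_bc ir, hz, up_nrd hA])
    exact this ▸ (hA.map _).isNrd bK⟩
  obtain ⟨k, hk⟩ := (isUnit_of_mul_left (h1 ▸ hadm.2.1)).exists_left_inv
  have hk' : star b0 * star k = 1 := by rw [← star_mul, hk, star_one]
  let g : UPt d A E := ⟨A.bc _ k * β, mul_eq_one_comm' (by
    rw [star_mul, mul_assoc, ← mul_assoc β, ← hs, ← bc_star, ← map_mul, ← map_mul, h1, mul_assoc,
      hk', mul_one, hk, map_one]), by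
    have := ((hA.isNrd k).bc (algebraMap R E)).mul (hS.isNrd β)
    rwa [← hz, ← map_mul, ← h2.eq hA, ← hA.nrd_mul, hk, hA.nrd_one, map_one] at this⟩
  refine ⟨E, inferInstance, inferInstance, inferInstance, AlgHom.id R E, PUnit.unit, c.pt hA g,
    fun T _ _ _ a b ga gb ha hb' => (c.ε T).injective ?_⟩
  have e1 : SUPt.val ga = extend a (c.pt hA g).val := ha
  have e2 : SUPt.val gb = extend b (c.pt hA g).val := hb'
  rw [map_mul, e1, e2, c.nat, c.nat, su_val]
  change up A a (A.bc _ k * β) = up A b (A.bc _ k * β) * _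
  rw [map_mul, map_mul, up_bc, up_bc, mul_assoc, ← hb T b a]
  rfl

theorem su_good [IsLocalRing R] (hd : 0 < d) (hB : IsUnitaryAlgebra σ d) : (suGF σ d).Good := by
  obtain ⟨N, ⟨b⟩⟩ := hB.exists_basis
  obtain ⟨A, ⟨c⟩⟩ := exists_brid hB.1 b
  exact su_good_of_brid c (c.form hd hB)

theorem su_gs (V C : Type u) [CommRing V] [IsDomain V] [ValuationRing V] [CommRing C]
    [Algebra V C] [Algebra.Smooth V C] (p : Ideal C) [p.IsPrime] [Algebra C R]
    [IsLocalization.AtPrime R p] (K : Type u) [Field K] [Algebra R K] [IsFractionRing R K]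
    (hd : 0 < d) (hB : IsUnitaryAlgebra σ d) : (suGF σ d).GS K := by
  have : IsLocalRing R := IsLocalization.AtPrime.isLocalRing R p
  have : IsDomain R := isDomain_of_smooth V C p R
  obtain ⟨N, ⟨b⟩⟩ := hB.exists_basis
  obtain ⟨A, ⟨c⟩⟩ := exists_brid hB.1 b
  have hA := c.form hd hB
  exact su_gs_of_core c hA fun _ _ h ht => triv_main V C p R K hA.good h ht

theorem IsTypeA.good [IsLocalRing R] {G : GF R} (h : IsTypeA G) : G.Good := by
  obtain ⟨B, _, _, τ, d, hd, hB, rfl⟩ := h
  exact su_good hd hB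

theorem IsTypeA.gs (V C : Type u) [CommRing V] [IsDomain V] [ValuationRing V] [CommRing C]
    [Algebra V C] [Algebra.Smooth V C] (p : Ideal C) [p.IsPrime] [Algebra C R]
    [IsLocalization.AtPrime R p] {G : GF R} (h : IsTypeA G) : G.GS (FractionRing R) := by
  obtain ⟨B, _, _, τ, d, hd, hB, rfl⟩ := h
  have : IsLocalRing R := IsLocalization.AtPrime.isLocalRing R p
  have : IsDomain R := isDomain_of_smooth V C p R
  exact su_gs V C p (FractionRing R) hd hB

end Pool.Agent.GU
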