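import Pool.Agent.P.MP_c1f06d_ag.u.Stmt
import Pool.Agent.P.MP_c1f06d_ag.u.GS
import Pool.Agent.P.MP_c1f06d_ag.BCliff

open Matrix CliffordAlgebra Pool.Agent.P.MP_c1f06d_ag Pool.Agent.GSD

universe u

namespace Pool.Agent.GU

variable {R : Type u} [CommRing R] {m : ℕ} {Q : Matrix (Fin m) (Fin m) R}

section
variable {T T' : Type u} [CommRing T] [Algebra R T] [CommRing T'] [Algebra R T']

theorem sends_iff (f : T →ₐ[R] T') (x : Cl Q T) (x' : Cl Q T') :
    Sends (formOver Q T) (formOver Q T') f (fun v => f ∘ v) x x' ↔ clMap Q f x = x' := by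
  refine ⟨?_, fun h => ⟨clMap Q f, clMap_algebraMap Q f, clMap_ι Q f, h⟩⟩
  rintro ⟨Ψ, h1, h2, rfl⟩
  induction x using CliffordAlgebra.induction with
  | algebraMap r => rw [clMap_algebraMap, h1]
  | ι v => rw [clMap_ι, h2]
  | mul a b ha hb => rw [map_mul, map_mul, ha, hb]
  | add a b ha hb => rw [map_add, map_add, ha, hb]

theorem spin_tot (f : T →ₐ[R] T') (c : (spinGF Q).Ch T) (c' : (spinGF Q).Ch T') :
    (spinGF Q).Tot f c c' := fun x => by
  obtain ⟨x', hx'⟩ := exists_spin_map' f (ofPt x)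
  exact ⟨toPt x', (sends_iff f _ _).2 hx'⟩

end

theorem spin_good (Q : Matrix (Fin m) (Fin m) R) : (spinGF Q).Good where
  chart := ⟨R, inferInstance, inferInstance, inferInstance, ⟨PUnit.unit⟩⟩
  one T _ _ _ := ⟨toPt 1, rfl⟩
  mul T _ _ _ x y := ⟨toPt (ofPt x * ofPt y), rfl⟩
  push T T' _ _ _ _ f c := ⟨PUnit.unit, spin_tot f c _⟩
  comp T T' T'' _ _ _ _ _ _ f g _ _ _ x x' x'' h1 h2 := by
    refine (sends_iff (g.comp f) _ _).2 ?_
    rw [← clMap_comp, (sends_iff f _ _).1 h1, (sends_iff g _ _).1 h2]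
  cmp T _ _ c1 c2 := ⟨T, inferInstance, inferInstance, inferInstance, inferInstance, inferInstance,
    PUnit.unit, spin_tot _ _ _, spin_tot _ _ _⟩

theorem IsTypeB.good {G : GF R} (h : IsTypeB G) : G.Good := by
  obtain ⟨m, Q, -, -, rfl⟩ := h
  exact spin_good Q

end Pool.Agent.GU
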