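import Pool.Agent.P.MP_c1f06d_ag.u.GS

open TensorProduct

universe u

namespace Pool.Agent.GU

variable {R : Type u} [CommRing R]

/-- A transport of points between any two charts along any map of algebras. -/
structure GF.Str (G : GF R) where
  tr : ∀ {T T' : Type u} [CommRing T] [Algebra R T] [CommRing T'] [Algebra R T']
    (c : G.Ch T) (c' : G.Ch T'), (T →ₐ[R] T') → G.Pt T c → G.Pt T' c'
  of_isMap : ∀ {T T' : Type u} [CommRing T] [Algebra R T] [CommRing T'] [Algebra R T']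
    {c : G.Ch T} {c' : G.Ch T'} {f : T →ₐ[R] T'} {x y}, G.IsMap T T' c c' f x y → y = tr c c' f x
  tr_tr : ∀ {T T' T'' : Type u} [CommRing T] [Algebra R T] [CommRing T'] [Algebra R T']
    [CommRing T''] [Algebra R T''] (c : G.Ch T) (c' : G.Ch T') (c'' : G.Ch T'') (f : T →ₐ[R] T')
    (g : T' →ₐ[R] T'') x, tr c' c'' g (tr c c' f x) = tr c c'' (g.comp f) x
  tr_inj : ∀ {T T' : Type u} [CommRing T] [Algebra R T] [CommRing T'] [Algebra R T']
    (c : G.Ch T) (c' : G.Ch T') {f : T →ₐ[R] T'}, Function.Injective f →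
      Function.Injective (tr c c' f)
  tr_one : ∀ {T T' : Type u} [CommRing T] [Algebra R T] [CommRing T'] [Algebra R T']
    {c : G.Ch T} (c' : G.Ch T') (f : T →ₐ[R] T') {x}, G.IsOne T c x → G.IsOne T' c' (tr c c' f x)
  tr_mul : ∀ {T T' : Type u} [CommRing T] [Algebra R T] [CommRing T'] [Algebra R T']
    {c : G.Ch T} (c' : G.Ch T') (f : T →ₐ[R] T') {z x y}, G.IsMul T c z x y →
      G.IsMul T' c' (tr c c' f z) (tr c c' f x) (tr c c' f y)
  ch : ∀ {T T' : Type u} [CommRing T] [Algebra R T] [CommRing T'] [Algebra R T'],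
    (T →ₐ[R] T') → G.Ch T → G.Ch T'
  mul : ∀ {T : Type u} [CommRing T] [Algebra R T] {c : G.Ch T} x y, ∃ z, G.IsMul T c z x y
  uniq : ∀ {T : Type u} [CommRing T] [Algebra R T] {c : G.Ch T} {z z' x y},
    G.IsMul T c z x y → G.IsMul T c z' x y → z = z'
  assoc : ∀ {T : Type u} [CommRing T] [Algebra R T] {c : G.Ch T} {v w x y z t},
    G.IsMul T c v x y → G.IsMul T c w y z → (G.IsMul T c t v z ↔ G.IsMul T c t x w)
  one_mul : ∀ {T : Type u} [CommRing T] [Algebra R T] {c : G.Ch T} {o z y},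
    G.IsOne T c o → G.IsMul T c z o y → z = y

variable {G : GF R} {S S' : Type u} [CommRing S] [Algebra R S] [CommRing S'] [Algebra R S']

/-- The same functor with the transport as its maps. -/
abbrev GF.Str.gf (Γ : G.Str) : GF R where
  Ch := G.Ch
  Pt := G.Pt
  IsOne := G.IsOne
  IsMul := G.IsMul
  IsMap _ _ _ _ _ _ c c' f x y := y = Γ.tr c c' f x

namespace GF.Str

variable (Γ : G.Str)

section
variable {T T' : Type u} [CommRing T] [Algebra R T] [CommRing T'] [Algebra R T']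

theorem gam_tr (hG : G.Good) (τ : G.Gam S) (c : G.Ch T) (c' : G.Ch T') (f : T →ₐ[R] T')
    (a b : S →ₐ[R] T) : Γ.tr c c' f (τ.γ T c a b) = τ.γ T' c' (f.comp a) (f.comp b) := by
  have key : ∀ {T T' : Type u} [CommRing T] [Algebra R T] [CommRing T'] [Algebra R T']
      {c : G.Ch T} {c' : G.Ch T'} {f : T →ₐ[R] T'} (a b : S →ₐ[R] T), G.Tot f c c' →
      Γ.tr c c' f (τ.γ T c a b) = τ.γ T' c' (f.comp a) (f.comp b) := fun a b h => by
    obtain ⟨y, hy⟩ := h (τ.γ _ _ a b)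
    rw [← Γ.of_isMap hy, τ.map _ _ _ _ _ _ _ _ hy]
  obtain ⟨c1, h1⟩ := hG.push T T' f c
  obtain ⟨U, _, _, _, _, _, c'', h2, h3⟩ := hG.cmp T' c1 c'
  refine Γ.tr_inj c' c'' (ff_injective (R := R) T' U) ?_
  rw [key _ _ h3, ← key _ _ h2, ← key _ _ h1, Γ.tr_tr, Γ.tr_tr]

theorem nat (τ : Γ.gf.Gam S) (c : G.Ch T) (c' : G.Ch T') (f : T →ₐ[R] T')
    (a b : S →ₐ[R] T) : Γ.tr c c' f (τ.γ T c a b) = τ.γ T' c' (f.comp a) (f.comp b) :=
  τ.map T T' c c' f a b _ rfl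

theorem mul_of_tr (c : G.Ch T) (c' : G.Ch T') {f : T →ₐ[R] T'} (hf : Function.Injective f)
    {z x y : G.Pt T c} (h : G.IsMul T' c' (Γ.tr c c' f z) (Γ.tr c c' f x) (Γ.tr c c' f y)) :
    G.IsMul T c z x y := by
  obtain ⟨w, hw⟩ := Γ.mul x y
  rwa [Γ.tr_inj c c' hf (Γ.uniq h (Γ.tr_mul c' f hw))]

end

/-- A natural family is a cocycle. -/
def mkGam (γ : ∀ (T : Type u) [CommRing T] [Algebra R T] (c : G.Ch T),
      (S →ₐ[R] T) → (S →ₐ[R] T) → G.Pt T c)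
    (h1 : ∀ (T : Type u) [CommRing T] [Algebra R T] (c : G.Ch T) a, G.IsOne T c (γ T c a a))
    (h2 : ∀ (T : Type u) [CommRing T] [Algebra R T] (c : G.Ch T) a a' a'',
      G.IsMul T c (γ T c a a'') (γ T c a' a'') (γ T c a a'))
    (h3 : ∀ (T T' : Type u) [CommRing T] [Algebra R T] [CommRing T'] [Algebra R T'] (c : G.Ch T)
      (c' : G.Ch T') (f : T →ₐ[R] T') a b,
      Γ.tr c c' f (γ T c a b) = γ T' c' (f.comp a) (f.comp b)) : Γ.gf.Gam S where
  γ := γ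
  self := h1
  mul := h2
  map T T' _ _ _ _ c c' f a b _ h := h.trans (h3 T T' c c' f a b)
  refl T T' _ _ _ _ c c' f a b _ hf h := Γ.tr_inj c c' hf (h.symm.trans (h3 T T' c c' f a b).symm)

/-- A cocycle for the transport is a cocycle. -/
def ofGam (τ : Γ.gf.Gam S) : G.Gam S where
  γ := τ.γ
  self := τ.self
  mul := τ.mul
  map T T' _ _ _ _ c c' f a b y h := τ.map T T' c c' f a b y (Γ.of_isMap h)
  refl T T' _ _ _ _ c c' f a b x hf h := τ.refl T T' c c' f a b x hf (Γ.of_isMap h)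

variable {K : Type u} [CommRing K] [Algebra R K]

theorem gs_of_gf (hG : G.Good) (h : Γ.gf.GS K) : G.GS K := by
  intro S _ _ τ S1 _ _ _ e p hp
  obtain ⟨S', _, _, hf, j, c, g, hg⟩ :=
    h S (Γ.mkGam τ.γ τ.self τ.mul fun T T' _ _ _ _ => Γ.gam_tr hG τ) S1 e p hp
  exact ⟨S', inferInstance, inferInstance, hf, j, c, g, fun T _ _ c' a b ga gb ha hb =>
    hg T c' a b ga gb (Γ.of_isMap ha) (Γ.of_isMap hb)⟩

theorem gf_gs (hG : G.Good) (h : G.GS K) : Γ.gf.GS K := by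
  intro S _ _ τ S1 _ _ _ e p hp
  obtain ⟨S', _, _, hf, j, c, g, hg⟩ := h S (Γ.ofGam τ) S1 e p hp
  refine ⟨S', inferInstance, inferInstance, hf, j, c, g, fun T _ _ c' a b ga gb ha hb => ?_⟩
  obtain ⟨ca, h1⟩ := hG.push _ _ a c
  obtain ⟨cb, h2⟩ := hG.push _ _ b c
  obtain ⟨U, _, _, _, _, _, c'', h3, h4⟩ := hG.cmp _ ca cb
  obtain ⟨g1, e1⟩ := h1 g
  obtain ⟨g2, e2⟩ := h2 g
  obtain ⟨g3, e3⟩ := h3 g1
  obtain ⟨g4, e4⟩ := h4 g2
  have e5 := hG.comp _ _ _ _ _ _ _ _ _ _ _ e1 e3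
  have e6 := hG.comp _ _ _ _ _ _ _ _ _ _ _ e2 e4
  refine Γ.mul_of_tr c' c'' (ff_injective (R := R) T U) ?_
  rw [show ga = _ from ha, show gb = _ from hb, Γ.tr_tr, Γ.tr_tr, ← Γ.of_isMap e5, ← Γ.of_isMap e6,
    Γ.nat]
  exact hg U c'' _ _ g3 g4 e5 e6

variable {Γ} {τ : Γ.gf.Gam S}

theorem cob_iff {j : S →ₐ[R] S'} {c : G.Ch S'} {g : G.Pt S' c} : τ.Cob j c g ↔
    ∀ (T : Type u) [CommRing T] [Algebra R T] (c' : G.Ch T) (a b : S' →ₐ[R] T),
      G.IsMul T c' (Γ.tr c c' a g) (Γ.tr c c' b g) (τ.γ T c' (a.comp j) (b.comp j)) :=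
  ⟨fun h T _ _ c' a b => h T c' a b _ _ rfl rfl, fun h T _ _ c' a b ga gb ha hb => by
    rw [show ga = _ from ha, show gb = _ from hb]; exact h T c' a b⟩

theorem cob_push {j : S →ₐ[R] S'} {c : G.Ch S'} {g : G.Pt S' c} (h : τ.Cob j c g)
    {S2 : Type u} [CommRing S2] [Algebra R S2] (f : S' →ₐ[R] S2) (c2 : G.Ch S2) :
    τ.Cob (f.comp j) c2 (Γ.tr c c2 f g) := cob_iff.2 fun T _ _ c' a b => by
  rw [Γ.tr_tr, Γ.tr_tr]
  exact cob_iff.1 h T c' _ _

theorem cob_shift {j : S →ₐ[R] S'} {c : G.Ch S'} {g : G.Pt S' c} (h : τ.Cob j c g)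
    (j' : S →ₐ[R] S') : ∃ g', τ.Cob j' c g' := by
  obtain ⟨g', hg⟩ := Γ.mul g (τ.γ S' c j' j)
  refine ⟨g', cob_iff.2 fun T _ _ c' a b => ?_⟩
  have ha := Γ.tr_mul c' a hg
  have hb := Γ.tr_mul c' b hg
  rw [Γ.nat] at ha hb
  exact (Γ.assoc hb (τ.mul T c' (a.comp j') (b.comp j') (b.comp j))).2
    ((Γ.assoc (cob_iff.1 h T c' a b) (τ.mul T c' (a.comp j') (a.comp j) (b.comp j))).1 ha)

variable (Γ)

theorem gs_of_chart (h0 : ∃ (S : Type u) (_ : CommRing S) (_ : Algebra R S),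
      Module.FaithfullyFlat R S ∧ Nonempty (G.Ch S))
    (h : ∀ (S : Type u) [CommRing S] [Algebra R S] (τ : Γ.gf.Gam S) (S1 : Type u) [CommRing S1]
      [Algebra R S1] [Module.FaithfullyFlat R S1] (e : S →ₐ[R] S1) (p : S →ₐ[R] K ⊗[R] S1),
      G.Ch S → τ.Gen K p →
      ∃ (S' : Type u) (_ : CommRing S') (_ : Algebra R S'), Module.FaithfullyFlat R S' ∧
        ∃ (j : S1 →ₐ[R] S') (c : G.Ch S') (g : G.Pt S' c), τ.Cob (j.comp e) c g) : Γ.gf.GS K := by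
  intro S _ _ τ S1 _ _ _ e p hp
  obtain ⟨S0, _, _, _, ⟨c0⟩⟩ := h0
  have : Module.FaithfullyFlat R (S1 ⊗[R] S0) := Module.FaithfullyFlat.trans R S1 _
  let il : S1 →ₐ[R] S1 ⊗[R] S0 := Algebra.TensorProduct.includeLeft
  let p' : S ⊗[R] S0 →ₐ[R] K ⊗[R] (S1 ⊗[R] S0) := Algebra.TensorProduct.productMap
    ((Algebra.TensorProduct.map (AlgHom.id R K) il).comp p)
    (Algebra.TensorProduct.includeRight.comp Algebra.TensorProduct.includeRight)
  obtain ⟨S', _, _, hf, j, c, g, hg⟩ := h (S ⊗[R] S0) (τ.pull Algebra.TensorProduct.includeLeft)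
    (S1 ⊗[R] S0) (Algebra.TensorProduct.map e (AlgHom.id R S0)) p'
    (Γ.ch Algebra.TensorProduct.includeRight c0) fun T _ _ c a b hab => by
      have := hp.map il T c a b hab
      rw [← Algebra.TensorProduct.productMap_left
        ((Algebra.TensorProduct.map (AlgHom.id R K) il).comp p)
        ((Algebra.TensorProduct.includeRight : S1 ⊗[R] S0 →ₐ[R] K ⊗[R] (S1 ⊗[R] S0)).comp
          Algebra.TensorProduct.includeRight)] at this
      exact this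
  refine ⟨S', inferInstance, inferInstance, hf, j.comp il, c, g, fun T _ _ c' a b ga gb ha hb => ?_⟩
  have := hg T c' a b ga gb ha hb
  rw [AlgHom.comp_assoc, ← Algebra.TensorProduct.map_comp_includeLeft e (AlgHom.id R S0)]
  exact this

theorem gs_of_point (h0 : ∃ (S : Type u) (_ : CommRing S) (_ : Algebra R S),
      Module.FaithfullyFlat R S ∧ Nonempty (G.Ch S)) (ε : K →ₐ[R] R) : Γ.gf.GS K := by
  refine Γ.gs_of_chart h0 fun S _ _ τ S1 _ _ _ e p c0 hp => ?_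
  let π : K ⊗[R] S1 →ₐ[R] S1 :=
    Algebra.TensorProduct.productMap ((Algebra.ofId R S1).comp ε) (AlgHom.id R S1)
  refine ⟨S1, inferInstance, inferInstance, inferInstance, AlgHom.id R S1, Γ.ch e c0,
    τ.γ S1 _ e (π.comp p), cob_iff.2 fun T _ _ c' a b => ?_⟩
  have h1 := hp T c' (a.comp π) (b.comp π) (by
    rw [AlgHom.comp_assoc, AlgHom.comp_assoc, Algebra.TensorProduct.productMap_left,
      ← AlgHom.comp_assoc, ← AlgHom.comp_assoc, Subsingleton.elim (a.comp _) (b.comp _)])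
  rw [Γ.nat, Γ.nat, ← AlgHom.comp_assoc, ← Γ.one_mul h1 (τ.mul T c' (a.comp e) _ _)]
  exact τ.mul T c' _ _ _

end GF.Str

end Pool.Agent.GU
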