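import Pool.Agent.P.MP_c1f06d_ag.u.Stmt
import Pool.Agent.P.MP_c1f06d_ag.u.Str
import Pool.Agent.P.MP_c1f06d_ag.u.DIso
import Pool.Agent.P.MP_c1f06d_ag.d.TAct

open Matrix CliffordAlgebra Pool.Agent.P.MP_c1f06d_ag Pool.Agent.GSD

universe u

namespace Pool.Agent.GSD.Splitting

variable {R A : Type u} [CommRing R] [Ring A] [Algebra R A] [StarRing A] {l : A} {d : ℕ}
variable {T T' T'' : Type u} [CommRing T] [Algebra R T] [CommRing T'] [Algebra R T']
  [CommRing T''] [Algebra R T'']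
variable {s : Splitting R l d T} {s' : Splitting R l d T'} {s'' : Splitting R l d T''}

/-- A point of the functor as a point of the subgroup. -/
noncomputable def Pt.sp (x : s.Pt) : Spin s.Q T := ofPt (Q := s.Q) ⟨x.val, x.inSpin⟩

/-- A point as an element of the Clifford algebra. -/
def Pt.v (x : s.Pt) : s.C := x.val

theorem Pt.even (x : s.Pt) : x.v ∈ even s.q := x.inSpin.1

theorem Pt.ext' {x y : s.Pt} (h : x.v = y.v) : x = y := by
  obtain ⟨v, hv⟩ := x
  obtain ⟨w, hw⟩ := y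
  have e : v = w := h
  subst e
  rfl

variable (s') in
/-- Transport of points. -/
noncomputable def Pt.tr (f : T →ₐ[R] T') (x : s.Pt) : s'.Pt :=
  s'.pt (exists_spin_trC s' f x.sp).choose

theorem Pt.tr_v (f : T →ₐ[R] T') (x : s.Pt) : (x.tr s' f).v = s.trC s' f x.v :=
  (exists_spin_trC s' f x.sp).choose_spec

variable (s' s'') in
theorem Pt.tr_tr (f : T →ₐ[R] T') (g : T' →ₐ[R] T'') (x : s.Pt) :
    (x.tr s' f).tr s'' g = x.tr s'' (g.comp f) := Pt.ext' (by
  rw [Pt.tr_v, Pt.tr_v, Pt.tr_v, trC_trC (Pt.even x)])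

theorem trC_inj {f : T →ₐ[R] T'} (hf : Function.Injective f) {x y : s.C} (hx : x ∈ even s.q)
    (hy : y ∈ even s.q) (h : s.trC s' f x = s.trC s' f y) : x = y := by
  obtain ⟨U, _, _, t, j, m, m', Ψ, Φ, a1, a2, a3, a4, hj, -⟩ := s.exists_test s' f
  refine a2.injective a1.isUnit_det (hj.comp hf) ?_
  rw [tr_trC hx U t j m m' Ψ Φ a1 a2 a3 a4, tr_trC hy U t j m m' Ψ Φ a1 a2 a3 a4, h]

theorem IsHom.comp {f : T →ₐ[R] T'} {g : T' →ₐ[R] T''} {h : Matrix (Fin d) (Fin d) T'}
    {h' : Matrix (Fin d) (Fin d) T''} (H : s.IsHom s' f h) (H' : s'.IsHom s'' g h') :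
    s.IsHom s'' (g.comp f) (h' * h.map g) := by
  refine ⟨?_, fun a => ?_⟩
  · have e := congrArg (fun X => X.map g) H.1
    simp only [Matrix.map_mul, ← H'.1] at e
    rw [transpose_mul, ← transpose_map]
    simp only [Matrix.mul_assoc] at e ⊢
    exact e
  · have e := congrArg (fun X => X.map g) (H.2 a)
    simp only [Matrix.map_mul] at e
    rw [← Matrix.mul_assoc, H'.2, Matrix.mul_assoc, e, Matrix.mul_assoc]
    rfl

theorem IsHom.tot {f : T →ₐ[R] T'} {h : Matrix (Fin d) (Fin d) T'} (H : s.IsHom s' f h) :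
    (GU.pairGF R l d).Tot f s s' := fun x => by
  obtain ⟨Ψ, hΨ⟩ := H.exists_sem
  exact ⟨Pt.tr s' f x, h, H, Ψ, hΨ.1, hΨ.2,
    ((Pt.tr_v f x).trans (hΨ.trC_eq H (Pt.even x))).symm⟩

end Pool.Agent.GSD.Splitting

namespace Pool.Agent.GU

open Splitting

variable {R A : Type u} [CommRing R] [Ring A] [Algebra R A] [StarRing A] {l : A} {d : ℕ}

theorem pair_mul {T : Type u} [CommRing T] [Algebra R T] {s : Splitting R l d T} (x y : s.Pt) :
    ∃ z : s.Pt, z.val = x.val * y.val := ⟨s.pt (x.sp * y.sp), rfl⟩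

variable (R l d) in
/-- The transport of the spin group of a quadratic pair. -/
noncomputable def pairStr : (pairGF R l d).Str where
  tr _ s' f x := Pt.tr s' f x
  of_isMap {_ _ _ _ _ _ s s' f x y} h := by
    obtain ⟨h, H, Ψ, h1, h2, h3⟩ := h
    have hΨ : Sem s s' f h Ψ := ⟨h1, h2⟩
    exact Pt.ext' (h3.symm.trans ((Pt.tr_v f x).trans (hΨ.trC_eq H (Pt.even x))).symm)
  tr_tr _ s' s'' f g x := Pt.tr_tr s' s'' f g x
  tr_inj s s' f hf x y h := Pt.ext' (trC_inj (s' := s') hf (Pt.even x) (Pt.even y)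
    ((Pt.tr_v f x).symm.trans ((congrArg Pt.v h).trans (Pt.tr_v f y))))
  tr_one s' f x h := (Pt.tr_v f x).trans ((congrArg _ h).trans trC_one)
  tr_mul s' f z x y h := (Pt.tr_v f z).trans ((congrArg _ h).trans
    ((trC_mul (Pt.even x) (Pt.even y)).trans
      (congrArg₂ (· * ·) (Pt.tr_v f x).symm (Pt.tr_v f y).symm)))
  ch f s := Splitting.map s f
  mul x y := pair_mul x y
  uniq h h' := Pt.ext' (Eq.trans h (Eq.symm h'))
  assoc {_ _ _ s v w x y z t} h h' := by
    change v.val = x.val * y.val at h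
    change w.val = y.val * z.val at h'
    change t.val = v.val * z.val ↔ t.val = x.val * w.val
    rw [h, h', mul_assoc]
  one_mul {_ _ _ s o z y} h h' := by
    change o.val = 1 at h
    change z.val = o.val * y.val at h'
    rw [h, one_mul] at h'
    exact Pt.ext' h'

theorem pair_good (hA : IsQuadPair R l d) : (pairGF R l d).Good where
  chart := hA.2.2
  one _ _ _ s := ⟨Splitting.pt s 1, rfl⟩
  mul _ _ _ _ x y := pair_mul x y
  push _ _ _ _ _ _ f s := ⟨Splitting.map s f, (isHom_map s f).tot⟩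
  comp T T' T'' _ _ _ _ _ _ f g s s' s'' x x' x'' := by
    rintro ⟨h, H, Ψ, h1, h2, h3⟩ ⟨h', H', Ψ', k1, k2, k3⟩
    refine ⟨_, H.comp H', Ψ'.comp Ψ, fun c => (congrArg Ψ' (h1 c)).trans (k1 _),
      fun v => (congrArg Ψ' (h2 v)).trans ((k2 _).trans (congrArg _ ?_)),
      (congrArg Ψ' h3).trans k3⟩
    beta_reduce
    rw [← mulVec_mulVec]
    congr 1
    funext i
    exact RingHom.map_mulVec g.toRingHom h _ i
  cmp T _ _ s s' := by
    obtain ⟨T', _, _, _, _, hf, h, H⟩ := exists_hom_ff s s'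
    exact ⟨T', inferInstance, inferInstance, inferInstance, inferInstance, hf, _, H.tot,
      (isHom_map s' _).tot⟩

theorem IsTypeD.good {G : GF R} (h : IsTypeD G) : G.Good := by
  obtain ⟨A, _, _, _, l, n, -, -, hA, rfl⟩ := h
  exact pair_good hA

end Pool.Agent.GU
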