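import Pool.Agent.P.MP_c1f06d_ag.u.Prod

open TensorProduct

universe u

namespace Pool.Agent.GU

variable {R : Type u} [CommRing R]

theorem exists_common {W L : Type u} [CommRing W] [CommRing L] [Algebra W L]
    [Module.FaithfullyFlat W L] (T : Type u) [CommRing T] {n : ℕ} (χ : Fin n → W →+* T) :
    ∃ (T' : Type u) (_ : CommRing T') (_ : Algebra T T'), Module.FaithfullyFlat T T' ∧
      ∃ ψ : Fin n → L →+* T', ∀ i x, ψ i (algebraMap W L x) = algebraMap T T' (χ i x) := by
  induction n with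
  | zero => exact ⟨T, inferInstance, inferInstance, inferInstance, Fin.elim0, fun i => i.elim0⟩
  | succ n ih =>
    obtain ⟨T1, _, _, _, ψ, hψ⟩ := ih fun i => χ i.succ
    let _ : Algebra W T1 := ((algebraMap T T1).comp (χ 0)).toAlgebra
    refine ⟨T1 ⊗[W] L, inferInstance, inferInstance, Module.FaithfullyFlat.trans T T1 _,
      Fin.cons (Algebra.TensorProduct.includeRight : L →ₐ[W] T1 ⊗[W] L).toRingHom
        fun i => (algebraMap T1 (T1 ⊗[W] L)).comp (ψ i), fun i x => ?_⟩
    induction i using Fin.cases with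
    | zero => exact (Algebra.TensorProduct.includeRight : L →ₐ[W] T1 ⊗[W] L).commutes x
    | succ i => exact congrArg (algebraMap T1 (T1 ⊗[W] L)) (hψ i x)

variable (Z : Type u) [CommRing Z] [Algebra R Z]

theorem split_bc {n : ℕ} {R1 : Type u} [CommRing R1] [Algebra R R1]
    (e : R1 ⊗[R] Z ≃ₐ[R1] (Fin n → R1)) (T : Type u) [CommRing T] [Algebra R T] [Algebra R1 T]
    [IsScalarTower R R1 T] : ∃ σ : Z ⊗[R] T ≃+* (Fin n → T),
      ∀ z t i, σ (z ⊗ₜ t) i = t * algebraMap R1 T (e (1 ⊗ₜ z) i) := by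
  refine ⟨(Algebra.TensorProduct.comm R Z T).toRingEquiv.trans
    ((Algebra.TensorProduct.cancelBaseChange R R1 T T Z).symm.trans
      ((Algebra.TensorProduct.congr AlgEquiv.refl e).trans
        (Algebra.TensorProduct.piScalarRight R1 T T (Fin n)))).toRingEquiv, fun z t i => ?_⟩
  simp [Algebra.smul_def, mul_comm]

theorem weilMap_comp {T T' T'' : Type u} [CommRing T] [Algebra R T] [CommRing T'] [Algebra R T']
    [CommRing T''] [Algebra R T''] (f : T →ₐ[R] T') (g : T' →ₐ[R] T'') :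
    weilMap Z (g.comp f) = (weilMap Z g).comp (weilMap Z f) :=
  Algebra.TensorProduct.map_comp (AlgHom.id Z Z) (AlgHom.id Z Z) g f

variable [IsLocalRing R] [Module.Finite R Z] [Algebra.Etale R Z]

/-- A cover of `Z ⊗ T` is refined by the base change of a cover of `T`. -/
theorem weil_refine (T : Type u) [CommRing T] [Algebra R T] (L : Type u) [CommRing L]
    [Algebra Z L] [Algebra (Z ⊗[R] T) L] [IsScalarTower Z (Z ⊗[R] T) L]
    [Module.FaithfullyFlat (Z ⊗[R] T) L] :
    ∃ (T' : Type u) (_ : CommRing T') (_ : Algebra R T') (_ : Algebra T T')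
      (_ : IsScalarTower R T T'), Module.FaithfullyFlat T T' ∧ ∃ ψ : L →ₐ[Z] Z ⊗[R] T',
        ψ.comp (IsScalarTower.toAlgHom Z (Z ⊗[R] T) L) =
          weilMap Z (IsScalarTower.toAlgHom R T T') := by
  have : Module.Free R Z := Module.free_of_flat_of_isLocalRing
  obtain ⟨R1, _, _, _, -, -, n, ⟨e⟩⟩ := Algebra.IsFiniteSplit.exists_tensorProduct_of_etale
    (Module.rankAtStalk_eq_finrank_of_free (R := R) (M := Z))
  let _ : Algebra R1 (T ⊗[R] R1) := Algebra.TensorProduct.rightAlgebra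
  obtain ⟨σ1, h1⟩ := split_bc Z e (T ⊗[R] R1)
  let l : T →ₐ[R] T ⊗[R] R1 := Algebra.TensorProduct.includeLeft
  obtain ⟨T', _, _, _, ψ, hψ⟩ := exists_common (W := Z ⊗[R] T) (L := L) (T ⊗[R] R1)
    fun i => (Pi.evalRingHom _ i).comp (σ1.toRingHom.comp (weilMap Z l).toRingHom)
  let _ : Algebra R T' := ((algebraMap (T ⊗[R] R1) T').comp (algebraMap R _)).toAlgebra
  let _ : Algebra T T' := ((algebraMap (T ⊗[R] R1) T').comp (algebraMap T _)).toAlgebra
  let _ : Algebra R1 T' := ((algebraMap (T ⊗[R] R1) T').comp (algebraMap R1 _)).toAlgebra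
  have : IsScalarTower T (T ⊗[R] R1) T' := .of_algebraMap_eq' rfl
  have : IsScalarTower R T T' := .of_algebraMap_eq fun r => rfl
  have : IsScalarTower R R1 T' := .of_algebraMap_eq fun r =>
    congrArg (algebraMap (T ⊗[R] R1) T') (IsScalarTower.algebraMap_apply R R1 (T ⊗[R] R1) r)
  obtain ⟨σ, h⟩ := split_bc Z e T'
  have key : ∀ x, σ.symm (fun i => ψ i (algebraMap _ L x)) =
      weilMap Z (IsScalarTower.toAlgHom R T T') x := fun x => by
    rw [RingEquiv.symm_apply_eq]
    funext i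
    rw [hψ]
    induction x with
    | zero => simp
    | add x y hx hy => rw [map_add, map_add, map_add, map_add, hx, hy]; rfl
    | tmul z t =>
      change algebraMap _ T' (σ1 (z ⊗ₜ l t) i) = σ (z ⊗ₜ algebraMap T T' t) i
      rw [h1, h, map_mul]; rfl
  refine ⟨T', inferInstance, inferInstance, inferInstance, inferInstance,
    Module.FaithfullyFlat.trans T (T ⊗[R] R1) T',
    ⟨σ.symm.toRingHom.comp (RingHom.pi ψ), fun z => ?_⟩, AlgHom.ext key⟩
  rw [IsScalarTower.algebraMap_apply Z (Z ⊗[R] T) L]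
  exact (key _).trans (AlgHom.commutes _ z)

/-- A cover of `Z` is refined by the base change of a cover of `R`. -/
theorem weil_refine_base (L : Type u) [CommRing L] [Algebra Z L] [Module.FaithfullyFlat Z L] :
    ∃ (S : Type u) (_ : CommRing S) (_ : Algebra R S), Module.FaithfullyFlat R S ∧
      Nonempty (L →ₐ[Z] Z ⊗[R] S) := by
  obtain ⟨S, _, i1, i2, ht, hf, ψ, -⟩ := weil_refine (R := R) Z R ((Z ⊗[R] R) ⊗[Z] L)
  obtain rfl : i1 = i2 := Algebra.algebra_ext _ _ fun r =>
    @IsScalarTower.algebraMap_apply R R S _ _ _ _ i2 i1 ht r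
  exact ⟨S, inferInstance, i1, hf, ⟨ψ.comp Algebra.TensorProduct.includeRight⟩⟩

variable {Z}

theorem GF.Good.weil {H : GF Z} (hH : H.Good) : (H.weil R).Good where
  chart := by
    obtain ⟨L, _, _, _, ⟨c⟩⟩ := hH.chart
    obtain ⟨S, _, _, hS, ⟨ψ⟩⟩ := weil_refine_base (R := R) Z L
    exact ⟨S, inferInstance, inferInstance, hS, ⟨(hH.push _ _ ψ c).choose⟩⟩
  one T _ _ c := hH.one _ c
  mul T _ _ c := hH.mul _ c
  push T T' _ _ _ _ f c := hH.push _ _ (weilMap Z f) c
  comp T T' T'' _ _ _ _ _ _ f g c c' c'' x x' x'' h h' := by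
    have := hH.comp _ _ _ _ _ _ _ _ _ _ _ h h'
    rwa [← weilMap_comp] at this
  cmp T _ _ c1 c2 := by
    obtain ⟨L, _, _, _, _, _, c, h1, h2⟩ := hH.cmp (Z ⊗[R] T) c1 c2
    obtain ⟨T', _, _, _, _, hT, ψ, hψ⟩ := weil_refine (R := R) Z T L
    obtain ⟨c', h⟩ := hH.push _ _ ψ c
    have e1 := h1.comp hH h
    have e2 := h2.comp hH h
    rw [hψ] at e1 e2
    exact ⟨T', inferInstance, inferInstance, inferInstance, inferInstance, hT, c', e1, e2⟩

end Pool.Agent.GU
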