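import Pool.Agent.P.MP_c1f06d_ag.u.StrW
import Pool.Agent.P.MP_c1f06d_ag.u.Weil
import Pool.Agent.P.MP_c1f06d_ag.u.GoodB
import Pool.Agent.P.MP_c1f06d_ag.u.GoodD

open Matrix CliffordAlgebra TensorProduct Pool.Agent.P.MP_c1f06d_ag Pool.Agent.GSD

universe u

namespace Pool.Agent.GU

section
variable {R : Type u} [CommRing R] {m : ℕ} {Q : Matrix (Fin m) (Fin m) R}
variable {T T' : Type u} [CommRing T] [Algebra R T] [CommRing T'] [Algebra R T']

theorem clMap_injective {f : T →ₐ[R] T'} (hf : Function.Injective f) :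
    Function.Injective (clMap Q f) := by
  rw [injective_iff_map_eq_zero]
  have h0 : ∀ i (x : Cl Q T), clMap Q f x = 0 →
      clMap Q f (contractLeft (Q := formOver Q T) (LinearMap.proj i) x) = 0 := by
    intro i x hx
    rw [semi_ctr (f := f.toRingHom) (clMap_algebraMap Q f) (clMap_ι Q f) (d' := LinearMap.proj i)
      (fun _ => rfl), hx, map_zero]
  have key : ∀ t : Finset (Fin m), ∀ x ∈ cliffSub Q T t, clMap Q f x = 0 → x = 0 := by
    intro t
    induction t using Finset.induction_on with
    | empty =>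
      intro x hx h1
      rw [cliffSub, Finset.coe_empty, Set.image_empty, Algebra.adjoin_empty, Algebra.mem_bot] at hx
      obtain ⟨c, rfl⟩ := hx
      rw [clMap_algebraMap, ← map_zero (algebraMap T' (Cl Q T')), ← map_zero f] at h1
      rw [hf (cl_algebraMap_injective h1), map_zero]
    | insert i t hi ih =>
      intro x hx h1
      obtain ⟨a, ha, b, hb, e⟩ := cliff_split i t hx
      have h2 := h0 i x h1
      rw [e, map_add, cliff_kill hi ha, contractLeft_ι_mul, cliff_kill hi hb] at h2
      have h3 : b = 0 := ih b hb (by simpa using h2)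
      rw [h3, mul_zero, add_zero] at e
      exact ih x (e ▸ ha) h1
  exact fun x hx => key Finset.univ x (cliff_univ x) hx

theorem spinPt_ext {x y : SpinPt Q T} (h : x.val = y.val) : x = y := by
  obtain ⟨v, hv⟩ := x
  obtain ⟨w, hw⟩ := y
  obtain rfl : v = w := h
  rfl

/-- Base change of points. -/
noncomputable def spinTr (f : T →ₐ[R] T') (x : SpinPt Q T) : SpinPt Q T' :=
  toPt (exists_spin_map' f (ofPt x)).choose

theorem spinTr_val (f : T →ₐ[R] T') (x : SpinPt Q T) : (spinTr f x).val = clMap Q f x.val :=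
  (exists_spin_map' f (ofPt x)).choose_spec.symm

variable (Q) in
/-- The transport of the spin group of a form. -/
noncomputable def spinStr : (spinGF Q).Str where
  tr _ _ f x := spinTr f x
  of_isMap {_ _ _ _ _ _ _ _ f x _} h :=
    spinPt_ext (((sends_iff f _ _).1 h).symm.trans (spinTr_val f x).symm)
  tr_tr _ _ _ f g x := spinPt_ext ((spinTr_val g _).trans ((congrArg _ (spinTr_val f x)).trans
    ((clMap_comp f g _).trans (spinTr_val _ x).symm)))
  tr_inj _ _ f hf x y h := spinPt_ext (clMap_injective hf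
    ((spinTr_val f x).symm.trans ((congrArg SpinPt.val h).trans (spinTr_val f y))))
  tr_one _ f x h := (spinTr_val f x).trans ((congrArg _ h).trans (map_one _))
  tr_mul _ f z x y h := (spinTr_val f z).trans ((congrArg _ h).trans ((map_mul _ _ _).trans
    (congrArg₂ (· * ·) (spinTr_val f x).symm (spinTr_val f y).symm)))
  ch _ _ := PUnit.unit
  mul x y := ⟨toPt (ofPt x * ofPt y), rfl⟩
  uniq h h' := spinPt_ext (Eq.trans h (Eq.symm h'))
  assoc {_ _ _ _ v w x y z t} h h' := by
    change v.val = x.val * y.val at h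
    change w.val = y.val * z.val at h'
    change t.val = v.val * z.val ↔ t.val = x.val * w.val
    rw [h, h', mul_assoc]
  one_mul {_ _ _ _ o z y} h h' := by
    change o.val = 1 at h
    change z.val = o.val * y.val at h'
    rw [h, one_mul] at h'
    exact spinPt_ext h'

end

variable {R Z : Type u} [CommRing R] [IsDomain R] [IsLocalRing R] [CommRing Z] [IsDomain Z]
  [Algebra R Z] [Module.Finite R Z] [Algebra.Etale R Z] {H : GF Z}

theorem weil_of_gf (Γ : H.Str) (hH : H.Good) (h : Γ.gf.GS (FractionRing Z)) :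
    (H.weil R).GS (FractionRing R) :=
  Γ.gs_weil (IsFractionRing.liftAlgHom (g := Algebra.ofId R (FractionRing Z))
    ((IsFractionRing.injective Z _).comp (FaithfulSMul.algebraMap_injective R Z))) hH.weil
    (fun L _ _ _ => weil_refine_base Z L) h

theorem IsTypeB.weil_of (h : IsTypeB H) (hZ : H.GS (FractionRing Z)) :
    (H.weil R).GS (FractionRing R) := by
  obtain ⟨m, Q, -, -, rfl⟩ := h
  exact weil_of_gf (spinStr Q) (spin_good Q) ((spinStr Q).gf_gs (spin_good Q) hZ)

theorem IsTypeD.weil_of (h : IsTypeD H) (hZ : H.GS (FractionRing Z)) :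
    (H.weil R).GS (FractionRing R) := by
  obtain ⟨A, _, _, _, l, n, -, -, hA, rfl⟩ := h
  exact weil_of_gf (pairStr Z l _) (pair_good hA) ((pairStr Z l _).gf_gs (pair_good hA) hZ)

end Pool.Agent.GU
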