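import Pool.Agent.P.MP_c1f06d_ag.u.SpinG
import Pool.Agent.P.MP_c1f06d_ag.u.WeilGS
import Pool.Agent.P.MP_c1f06d_ag.w.CoreS

open Matrix Pool.Agent.P.MP_c1f06d_ag Pool.Agent.SU Pool.Agent.GW

universe u

namespace Pool.Agent.GU

variable (V C : Type u) [CommRing V] [IsDomain V] [ValuationRing V] [CommRing C] [Algebra V C]
  [Algebra.Smooth V C] (p : Ideal C) [p.IsPrime] (R : Type u) [CommRing R] [Algebra C R]
  [IsLocalization.AtPrime R p] {Z : Type u} [CommRing Z] [IsDomain Z] [Algebra R Z]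
  [Module.Finite R Z] [Algebra.Etale R Z]
include V p R

/-- The spin group of a form over a domain that is finite etale over `R`. -/
theorem spin_gs_etale (K : Type u) [Field K] [Algebra Z K] [IsFractionRing Z K] {m : ℕ}
    (hm : 5 ≤ m) {Q : Matrix (Fin m) (Fin m) Z} (hQ : SmoothQuadric Q) : (spinGF Q).GS K := by
  obtain ⟨_, hc⟩ := geo_cases V C p R Z K
  have hs := smq_of_smooth Q hQ
  rcases id hs with h | ⟨r, ρ, h⟩
  · exact spin_gs_unim h (by omega) (fun _ hQ' => iso_mainZ hc hQ' h) fun _ => sn_mainZ hc hs hm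
  · exact spin_gs_semi h (by omega) (fun _ hQ' => iso_mainZ hc hQ' h.unim_ext)
      fun _ => sn_mainZ hc hs hm

theorem IsTypeB.gs_etale {H : GF Z} (h : IsTypeB H) : H.GS (FractionRing Z) := by
  obtain ⟨m, Q, hm, hQ, rfl⟩ := h
  exact spin_gs_etale V C p R _ hm hQ

variable {R} in
theorem IsTypeB.gs_weil {H : GF Z} (h : IsTypeB H) : (H.weil R).GS (FractionRing R) := by
  have : IsLocalRing R := IsLocalization.AtPrime.isLocalRing R p
  have : IsDomain R := isDomain_of_smooth V C p R
  exact h.weil_of (h.gs_etale V C p R)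

end Pool.Agent.GU
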