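import Pool.Agent.P.MP_c1f06d_ag.u.GoodC

open Matrix IsLocalRing TensorProduct

universe u

namespace Pool.Agent.GU

open Pool.Agent.SU Pool.Agent.SU.SAlg Pool.Agent.P.MP_c1f06d_ag Pool.Agent.SU.C

variable {R B : Type u} [CommRing R] [Ring B] [Algebra R B] {σ : B →ₗ[R] B} {N : ℕ} {A : SAlg R N}

theorem sp_tot (c : Coord σ A) {T T' : Type u} [CommRing T] [Algebra R T] [CommRing T']
    [Algebra R T'] (f : T →ₐ[R] T') (x : SpPt σ T) :
    (c.pt _ (alg_unit f (c.unit x))).val = extend f x.val :=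
  (c.Ψ T').injective (by rw [spc_extend, c.nat, c.pt_val])

theorem sp_gs_of_core [IsLocalRing R] (c : Coord σ A) (hA : CD A) {K : Type u} [CommRing K]
    [Algebra R K] (core : ∀ q : A.Car, IsUnit (q + star q) →
      IsN (A.bc (algebraMap R K) (q + star q)) → IsN (q + star q)) : (spGF σ).GS K := by
  intro S _ _ τ E _ _ _ e p hp
  let γ : ∀ (T : Type u) [CommRing T] [Algebra R T], (S →ₐ[R] T) → (S →ₐ[R] T) →
      (A.map (algebraMap R T)).Car := fun T _ _ a b => c.Ψ T (SpPt.val (τ.γ T PUnit.unit b a))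
  have gn : ∀ (T T' : Type u) [CommRing T] [Algebra R T] [CommRing T'] [Algebra R T']
      (f : T →ₐ[R] T') (a b : S →ₐ[R] T), A.alg f (γ T a b) = γ T' (f.comp a) (f.comp b) :=
    fun T T' _ _ _ _ f a b => (c.pt_val _ (alg_unit f (c.unit _))).symm.trans
      (congrArg (fun y : SpPt σ T' => c.Ψ T' y.val)
        (τ.map T T' PUnit.unit PUnit.unit f b a _ (sp_tot c f _)))
  have g1 : ∀ (T : Type u) [CommRing T] [Algebra R T] (a b : S →ₐ[R] T),
      (spGF σ).IsOne T PUnit.unit (τ.γ T PUnit.unit b a) → γ T a b = 1 :=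
    fun T _ _ a b h => (congrArg (c.Ψ T) h).trans (map_one _)
  have gm : ∀ (T : Type u) [CommRing T] [Algebra R T] (a b d : S →ₐ[R] T),
      γ T a b * γ T b d = γ T a d := fun T _ _ a b d =>
    (map_mul _ _ _).symm.trans (congrArg (c.Ψ T) (τ.mul T PUnit.unit d b a)).symm
  have gu : ∀ (T : Type u) [CommRing T] [Algebra R T] (a b : S →ₐ[R] T),
      γ T a b * star (γ T a b) = 1 := fun T _ _ a b => c.unit _
  obtain ⟨β, hβ, hb⟩ := h90E hA.sep E (fun T _ _ a b => γ T (a.comp e) (b.comp e))
    (fun T T' _ _ _ _ f a b => gn T T' f _ _) (fun T _ _ a => g1 T _ _ (τ.self T _ _))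
    fun T _ _ a b d => gm T _ _ _
  have hd : ∀ i, ∃ r, algebraMap R E r = (β * star β).co i := fun i =>
    desc_base _ fun T _ _ a b => by
      have : A.alg a (β * star β) = A.alg b (β * star β) := by
        rw [map_mul, map_mul, alg_star, alg_star, ← hb T a b, star_mul, mul_assoc,
          ← mul_assoc (γ T _ _), gu, one_mul]
      exact congrFun (congrArg Car.co this) i
  choose h0 hh using hd
  have hh' : A.bc (algebraMap R E) ⟨h0⟩ = β * star β := Car.ext (funext hh)
  generalize (⟨h0⟩ : A.Car) = h at hh'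
  obtain ⟨P, hP⟩ := hA.half
  have hi : Function.Injective (algebraMap R E) := FaithfulSMul.algebraMap_injective R E
  have hq : ap A P h + star (ap A P h) = h := by
    refine bc_injective hi ?_
    have h1 := (hP.map (algebraMap R E)).2
    generalize ap _ (P.map (algebraMap R E)) (1 : (A.map (algebraMap R E)).Car) = l at h1
    have h2 : β * star β = β * l * star β + star (β * l * star β) := by
      rw [star_mul, star_mul, star_star, ← mul_assoc, ← add_mul, ← mul_add, h1, mul_one]
    rw [map_add, bc_star, bc_ap, hh', h2]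
    exact (hP.map _).apply _
  have := isLocalHom_of_faithfullyFlat (R := R) (S := E)
  have hhu : IsUnit h := isUnit_of_bc (algebraMap R E) (hh' ▸ hβ.mul hβ.star)
  let r : E →ₐ[R] K ⊗[R] E := Algebra.TensorProduct.includeRight
  obtain ⟨y, hy⟩ := ch90_desc A K E (A.alg r β * γ _ (r.comp e) p) fun T _ _ a b hab => by
    rw [map_mul, map_mul, alg_alg, alg_alg, gn, gn, ← hb T (a.comp r) (b.comp r), mul_assoc]
    simp only [← AlgHom.comp_assoc]
    rw [gm, ← gm T _ (a.comp p) (b.comp p), g1 T _ _ (hp T _ b a hab.symm), mul_one]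
  obtain ⟨x, hx⟩ := core (ap A P h) (by rwa [hq]) ⟨star y, ch90_inj A _ (ch90_left_inj K E) (by
    rw [hq, star_star, map_mul, alg_star, hy, star_mul, mul_assoc, ← mul_assoc (γ _ _ _), gu,
      one_mul, ← alg_star, ← map_mul, ← hh', alg_bc, alg_bc])⟩
  rw [hq] at hx
  obtain ⟨x', hx'⟩ := (isUnit_of_mul_right (hx ▸ hhu : IsUnit (star x * x))).exists_right_inv
  have hk : A.bc (algebraMap R E) (star x') * β * star (A.bc (algebraMap R E) (star x') * β) = 1 := by
    rw [star_mul, mul_assoc, ← mul_assoc β, ← hh', ← bc_star, ← map_mul, ← map_mul, star_star, ← hx,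
      mul_assoc, hx', mul_one, ← star_mul, hx', star_one, map_one]
  refine ⟨E, inferInstance, inferInstance, inferInstance, AlgHom.id R E, PUnit.unit, c.pt _ hk,
    fun T _ _ _ a b ga gb ha hb' => (c.Ψ T).injective ?_⟩
  have e1 : a.toLinearMap.rTensor B (c.pt _ hk).val = SpPt.val ga :=
    (spc_extend a _).symm.trans (Eq.symm ha)
  have e2 : b.toLinearMap.rTensor B (c.pt _ hk).val = SpPt.val gb :=
    (spc_extend b _).symm.trans (Eq.symm hb')
  rw [map_mul, ← e1, ← e2, c.nat, c.nat, c.pt_val, map_mul, map_mul, alg_bc, alg_bc, mul_assoc,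
    ← hb T b a]
  rfl

theorem sp_gs (V C : Type u) [CommRing V] [IsDomain V] [ValuationRing V] [CommRing C]
    [Algebra V C] [Algebra.Smooth V C] (p : Ideal C) [p.IsPrime] [Algebra C R]
    [IsLocalization.AtPrime R p] (K : Type u) [Field K] [Algebra R K] [IsFractionRing R K]
    (hσ : IsSymplectic σ) : (spGF σ).GS K := by
  have : IsLocalRing R := IsLocalization.AtPrime.isLocalRing R p
  have : IsDomain R := isDomain_of_smooth V C p R
  obtain ⟨N, A, hA, ⟨c⟩⟩ := exists_coord hσ
  exact sp_gs_of_core c hA fun q hq ht => isN_main V C p R K hA hq ht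

theorem IsTypeC.gs (V C : Type u) [CommRing V] [IsDomain V] [ValuationRing V] [CommRing C]
    [Algebra V C] [Algebra.Smooth V C] (p : Ideal C) [p.IsPrime] {R : Type u} [CommRing R]
    [Algebra C R] [IsLocalization.AtPrime R p] {G : GF R} (h : IsTypeC G) :
    G.GS (FractionRing R) := by
  obtain ⟨B, _, _, σ, hσ, rfl⟩ := h
  have : IsLocalRing R := IsLocalization.AtPrime.isLocalRing R p
  have : IsDomain R := isDomain_of_smooth V C p R
  exact sp_gs V C p (FractionRing R) hσ

end Pool.Agent.GU
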