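import Pool.Agent.P.MP_c1f06d_ag.u.PairGS
import Pool.Agent.P.MP_c1f06d_ag.d.DOri
import Pool.Agent.P.MP_c1f06d_ag.d.DBrid
import Pool.Agent.P.MP_c1f06d_ag.BMain

open Matrix Module Pool.Agent.SU Pool.Agent.P.MP_c1f06d_ag Pool.Agent.GSD

universe u

namespace Pool.Agent.GU

theorem isTypeB_of_splitting {R A T : Type u} [CommRing R] [Ring A] [StarRing A] [Algebra R A]
    [CommRing T] [Algebra R T] {l : A} {d : ℕ} (s : Splitting R l d T) (hd : 5 ≤ d) :
    IsTypeB (spinGF s.Q) :=
  ⟨d, s.Q, hd, fun k _ f x _ h => smooth_of_unim s.Q s.isUnit_det_B k f x h, rfl⟩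

theorem point_of_finite (R : Type u) [CommRing R] [IsDomain R] [Finite (FractionRing R)] :
    Nonempty (FractionRing R →ₐ[R] R) := by
  have : Finite R := Finite.of_injective _ (IsFractionRing.injective R (FractionRing R))
  exact ⟨(AlgEquiv.ofBijective (Algebra.ofId R (FractionRing R)) ⟨IsFractionRing.injective R _,
    IsFractionRing.surjective_iff_isField.2 (Finite.isField_of_domain R)⟩).symm.toAlgHom⟩

/-- The three facts about a quadratic pair and its generic fibre. -/
structure Cores (R : Type u) [CommRing R] {A : Type u} [Ring A] [StarRing A] [Algebra R A] (l : A)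
    (m : ℕ) : Prop where
  coreA : ∀ (B : Type u) [Ring B] [StarRing B] [Algebra (FractionRing R) B]
    [StarFix (FractionRing R) B] (j : A →+* B), SBC (algebraMap R (FractionRing R)) j →
    ∀ th : A, IsUnit (th + star th) → FormIso (j l) (j th) → FormIso l th
  coreB : ∀ (B : Type u) [Ring B] [StarRing B] [Algebra (FractionRing R) B]
    [StarFix (FractionRing R) B] (j : A →+* B), SBC (algebraMap R (FractionRing R)) j →
    ∀ c : R, IsUnit c → PairN (FractionRing R) (j l) (algebraMap R (FractionRing R) c) → WN R l c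
  coreC : ∀ (B : Type u) [Ring B] [StarRing B] [Algebra (FractionRing R) B]
    [StarFix (FractionRing R) B] (j : A →+* B), SBC (algebraMap R (FractionRing R)) j →
    ∀ v : B, v ≠ 0 → R1 v → IsSplit R m l

theorem pair_gs_of_cores {R A : Type u} [CommRing R] [IsDomain R] [Finite (MaximalSpectrum R)]
    [Ring A] [StarRing A] [Algebra R A] [Module.Free R A] [Module.Finite R A] {l : A} {d : ℕ}
    (hA : IsQuadPair R l d) (h5 : 5 ≤ d) (hB : ∀ G : GF R, IsTypeB G → G.GS (FractionRing R))
    (H : Cores R l d) : (pairGF R l d).GS (FractionRing R) := by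
  refine (pairStr R l d).gs_of_gf (pair_good hA) ?_
  have h : QAz R d l := hA.qaz
  have := h.starFix
  by_cases hs : IsSplit R d l
  · obtain ⟨φ, Q, hQ⟩ := hs
    obtain ⟨s, -, -⟩ := QSpl.splitting (T := R) (S := R) hQ
    exact pair_gs_split s (hB _ (isTypeB_of_splitting s h5))
  cases finite_or_infinite (FractionRing R) with
  | inl hf => exact (pairStr R l d).gs_of_point hA.2.2 (point_of_finite R).some
  | inr hi =>
    obtain ⟨B, _, _, _, _, j, hj⟩ := exists_sbc (A := A) (algebraMap R (FractionRing R))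
    let _ : Algebra R B := ((algebraMap (FractionRing R) B).comp
      (algebraMap R (FractionRing R))).toAlgebra' fun c x => Algebra.commutes _ x
    have : IsScalarTower R (FractionRing R) B := IsScalarTower.of_algebraMap_eq fun _ => rfl
    let i : A →ₐ[R] B := ⟨j, hj.alg⟩
    have hi : SBC (algebraMap R (FractionRing R)) (i : A →+* B) := hj
    have hK1 := h.map hj
    have hp : ∀ g : B, Iso (j l) g → ∃ y1 y2 : Bˣ, La (j l) y1 ∧ La (j l) y2 ∧
        SN (FractionRing R) (j l) g
          (nrd (FractionRing R) (y1 : B) * nrd (FractionRing R) (y2 : B)) := fun g hg => by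
      obtain ⟨y1, y2, h1, h2, rfl⟩ := isPair_of_no_r1 hK1 (fun v hv => by
        by_contra h0
        exact hs (H.coreC B j hj v h0 hv)) hg
      exact ⟨y1, y2, h1, h2, sn_gl hK1 h1 h2⟩
    refine pair_gs_semi hA (FractionRing R) (IsFractionRing.injective R _) i hi.genB
      (fun th hth ⟨x, _, hx⟩ => ?_) (fun g hg => ?_) (fun c hc ⟨g, hg⟩ => ?_)
    · obtain ⟨y, hy⟩ := H.coreA B j hj th hth ⟨x, hx⟩
      exact ⟨y, isUnit_of_formIso (T := R) h.add_star hth hy, hy⟩
    · obtain ⟨y1, y2, -, -, h3⟩ := hp g hg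
      exact ⟨_, SN.snw h hi h3⟩
    · have hc' := hc.map (algebraMap R (FractionRing R))
      have h1 := SNw.sn h hi hc' hg
      obtain ⟨y1, y2, e1, e2, h3⟩ := hp g (h1.iso hK1).1
      obtain ⟨s, hs'⟩ := h1.ratio hK1 h3
      obtain ⟨v, hv⟩ := (h3.isUnit hK1).exists_right_inv
      obtain ⟨g0, h0⟩ := H.coreB B j hj c hc ⟨y1, y2, s * v, _, _, e1, e2,
        hK1.az.isNrd _, hK1.az.isNrd _, by
          linear_combination (exp := 1) (v ^ 2 * (nrd (FractionRing R) (y1 : B) *
            nrd (FractionRing R) (y2 : B))) * hs' - (algebraMap R (FractionRing R) c *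
            (1 + nrd (FractionRing R) (y1 : B) * nrd (FractionRing R) (y2 : B) * v)) * hv⟩
      exact ⟨g0, SN.snw (i := AlgHom.id R A) h SBC.refl h0⟩

end Pool.Agent.GU
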