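import Pool.Agent.P.MP_c1f06d_ag.u.GSB
import Pool.Agent.P.MP_c1f06d_ag.u.PairCore
import Pool.Agent.P.MP_c1f06d_ag.w.XCoreA
import Pool.Agent.P.MP_c1f06d_ag.w.XCoreB

open Matrix Pool.Agent.SU Pool.Agent.P.MP_c1f06d_ag Pool.Agent.GSD Pool.Agent.GW

universe u

namespace Pool.Agent.GU

theorem IsTypeD.gs_weil (V C : Type u) [CommRing V] [IsDomain V] [ValuationRing V] [CommRing C]
    [Algebra V C] [Algebra.Smooth V C] (p : Ideal C) [p.IsPrime] {R : Type u} [CommRing R]
    [Algebra C R] [IsLocalization.AtPrime R p] {Z : Type u} [CommRing Z] [IsDomain Z] [Algebra R Z]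
    [Module.Finite R Z] [Algebra.Etale R Z] {H : GF Z} (h : IsTypeD H) :
    (H.weil R).GS (FractionRing R) := by
  have : IsLocalRing R := IsLocalization.AtPrime.isLocalRing R p
  have : IsDomain R := isDomain_of_smooth V C p R
  refine h.weil_of ?_
  obtain ⟨A, _, _, _, l, n, _, hn, hA, rfl⟩ := h
  obtain ⟨_, hG⟩ := geoV_cases V C p R Z (FractionRing Z)
  have : Module.Free Z A := hA.free_semi
  have h : QAz Z (2 * n) l := hA.qaz
  exact pair_gs_of_cores hA (by omega) (fun _ h => h.gs_etale V C p R)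
    ⟨fun _ _ _ _ _ _ hj _ => coreA_geo hG h (by omega) hj,
      fun _ _ _ _ _ _ hj _ => coreB_geo hG h (even_two_mul n) (by omega) hj,
      fun _ _ _ _ _ _ hj _ => coreC_geo hG h (by omega) hj⟩

end Pool.Agent.GU
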