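import Pool.Agent.P.MP_c1f06d_ag.u.G2GS
import Pool.Agent.P.MP_c1f06d_ag.u.WeilGS
import Pool.Agent.P.MP_c1f06d_ag.w.CoreS

open Matrix Pool.Agent.P.MP_c1f06d_ag Pool.Agent.SU Pool.Agent.GW

universe u

namespace Pool.Agent.GU

theorem G2Pt.ext' {R T : Type u} [CommRing R] [CommRing T] [Algebra R T]
    {c : Fin 8 → Matrix (Fin 8) (Fin 8) R} {x y : G2Pt c T} (h : x.val = y.val) : x = y := by
  cases x; cases y; cases h; rfl

/-- The transport of automorphisms along maps of algebras. -/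
def g2Str {R : Type u} [CommRing R] (c : Fin 8 → Matrix (Fin 8) (Fin 8) R) : (g2GF c).Str where
  tr _ _ f x := G2Pt.map x f
  of_isMap h := G2Pt.ext' h
  tr_tr _ _ _ _ _ _ := G2Pt.ext' rfl
  tr_inj _ _ _ hf _ _ h := G2Pt.ext' (Matrix.map_injective hf (congrArg G2Pt.val h))
  tr_one _ f _ h := (congrArg (fun g => Matrix.map g f) h).trans
    (Matrix.map_one _ (map_zero f) (map_one f))
  tr_mul _ f _ _ _ h := (congrArg (fun g => Matrix.map g f) h).trans (map_mul_algHom _ _ f)
  ch _ _ := PUnit.unit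
  mul x y := (g2_good c).mul _ _ x y
  uniq h h' := G2Pt.ext' (Eq.trans h (Eq.symm h'))
  assoc {_ _ _ _ v w x y z t} h h' := by
    change G2Pt.val v = _ at h
    change G2Pt.val w = _ at h'
    change G2Pt.val t = _ ↔ G2Pt.val t = _
    rw [h, h', Matrix.mul_assoc]
  one_mul {_ _ _ _ o z y} h h' := by
    change G2Pt.val o = _ at h
    change G2Pt.val z = _ at h'
    rw [h, Matrix.one_mul] at h'
    exact G2Pt.ext' h'

theorem IsTypeG.gs_weil (V C : Type u) [CommRing V] [IsDomain V] [ValuationRing V] [CommRing C]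
    [Algebra V C] [Algebra.Smooth V C] (p : Ideal C) [p.IsPrime] {R : Type u} [CommRing R]
    [Algebra C R] [IsLocalization.AtPrime R p] {Z : Type u} [CommRing Z] [IsDomain Z] [Algebra R Z]
    [Module.Finite R Z] [Algebra.Etale R Z] {H : GF Z} (h : IsTypeG H) :
    (H.weil R).GS (FractionRing R) := by
  have : IsLocalRing R := IsLocalization.AtPrime.isLocalRing R p
  have : IsDomain R := isDomain_of_smooth V C p R
  obtain ⟨hf, hc⟩ := geo_cases V C p R Z (FractionRing Z)
  have h1 := h.gs_of_iso (FractionRing Z) fun Q Q' h1 h2 => iso_mainZ hc h1 h2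
  obtain ⟨c, -, rfl⟩ := h
  exact weil_of_gf (g2Str c) (g2_good c) ((g2Str c).gf_gs (g2_good c) h1)

end Pool.Agent.GU
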