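import Pool.Agent.P.MP_c1f06d_ag.u.Stmt
import Pool.Agent.P.MP_c1f06d_ag.u.GS
import Pool.Agent.P.MP_c1f06d_ag.su.CMain

open Matrix TensorProduct Pool.Agent.P.MP_c1f06d_ag Pool.Agent.SU Pool.Agent.SU.C

universe u

namespace Pool.Agent.GU

variable {R B : Type u} [CommRing R] [Ring B] [Algebra R B] {σ : B →ₗ[R] B}

theorem spc_extend {T T' : Type u} [CommRing T] [Algebra R T] [CommRing T'] [Algebra R T']
    (f : T →ₐ[R] T') (x : T ⊗[R] B) : extend f x = f.toLinearMap.rTensor B x := by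
  induction x using TensorProduct.induction_on with
  | zero => simp [extend]
  | tmul a b => simp [extend]
  | add x y hx hy =>
    rw [map_add, ← hx, ← hy]
    exact map_add (Algebra.TensorProduct.map f (AlgHom.id R B)) x y

theorem spc_mul (hσ : IsSymplectic σ) (x y : B) : σ (x * y) = σ y * σ x := by
  obtain ⟨S, _, _, r, n, hff, φ, hφ⟩ := hσ
  have hi := Module.FaithfullyFlat.tensorProduct_mk_injective (A := R) (B := S) B
  have e : ∀ x, φ (1 ⊗ₜ σ x) = stdInv (φ (1 ⊗ₜ x)) := fun x => hφ (1 ⊗ₜ x)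
  have m : ∀ a b : B, φ (1 ⊗ₜ (a * b)) = φ (1 ⊗ₜ a) * φ (1 ⊗ₜ b) := fun a b => by
    rw [← map_mul, Algebra.TensorProduct.tmul_mul_tmul, one_mul]
  exact hi (φ.injective (by
    rw [TensorProduct.mk_apply, TensorProduct.mk_apply, e, m, m, e, e, stdInv_mul]))

theorem spc_one (hσ : IsSymplectic σ) : σ 1 = 1 := by
  obtain ⟨S, _, _, r, n, hff, φ, hφ⟩ := hσ
  have hi := Module.FaithfullyFlat.tensorProduct_mk_injective (A := R) (B := S) B
  have e : φ (1 ⊗ₜ σ 1) = stdInv (φ (1 ⊗ₜ 1)) := hφ (1 ⊗ₜ 1)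
  have o : φ (1 ⊗ₜ 1) = 1 := map_one φ
  refine hi (φ.injective ?_)
  rw [TensorProduct.mk_apply, TensorProduct.mk_apply, e, o]
  have h := stdInv_mul (stdInv (1 : Mats n S)) 1
  rw [mul_one, stdInv_stdInv, mul_one] at h
  exact h.symm

variable {T T' : Type u} [CommRing T] [Algebra R T] [CommRing T'] [Algebra R T']

theorem spc_bc_mul (hσ : IsSymplectic σ) (x y : T ⊗[R] B) :
    σ.baseChange T (x * y) = σ.baseChange T y * σ.baseChange T x := by
  induction x using TensorProduct.induction_on with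
  | zero => simp
  | add x x' hx hx' => rw [add_mul, map_add, map_add, mul_add, hx, hx']
  | tmul a b =>
    induction y using TensorProduct.induction_on with
    | zero => simp
    | add y y' hy hy' => rw [mul_add, map_add, map_add, add_mul, hy, hy']
    | tmul a' b' =>
      simp only [Algebra.TensorProduct.tmul_mul_tmul, LinearMap.baseChange_tmul, spc_mul hσ,
        mul_comm a a']

theorem spc_bc_one (hσ : IsSymplectic σ) : σ.baseChange T 1 = 1 := by
  rw [Algebra.TensorProduct.one_def, LinearMap.baseChange_tmul, spc_one hσ]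

theorem spc_bc_map (f : T →ₐ[R] T') (x : T ⊗[R] B) :
    σ.baseChange T' (Algebra.TensorProduct.map f (AlgHom.id R B) x) =
      Algebra.TensorProduct.map f (AlgHom.id R B) (σ.baseChange T x) := by
  induction x using TensorProduct.induction_on with
  | zero => simp
  | tmul a b => simp
  | add x y hx hy => simp only [map_add, hx, hy]

theorem spc_tot (f : T →ₐ[R] T') (x : SpPt σ T) : ∃ x' : SpPt σ T', x'.val = extend f x.val :=
  ⟨⟨Algebra.TensorProduct.map f (AlgHom.id R B) x.val,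
    by rw [spc_bc_map, ← map_mul, x.inSp.1, map_one],
    by rw [spc_bc_map, ← map_mul, x.inSp.2, map_one]⟩, rfl⟩

theorem sp_good (hσ : IsSymplectic σ) : (spGF σ).Good where
  chart := ⟨R, inferInstance, inferInstance, inferInstance, ⟨PUnit.unit⟩⟩
  one T _ _ _ := ⟨⟨1, by rw [spc_bc_one hσ, mul_one], by rw [spc_bc_one hσ, mul_one]⟩, rfl⟩
  mul T _ _ _ x y := ⟨⟨SpPt.val x * SpPt.val y,
    by rw [spc_bc_mul hσ, mul_assoc, ← mul_assoc (SpPt.val y), (SpPt.inSp y).1, one_mul,
      (SpPt.inSp x).1],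
    by rw [spc_bc_mul hσ, mul_assoc, ← mul_assoc _ (SpPt.val x), (SpPt.inSp x).2, one_mul,
      (SpPt.inSp y).2]⟩, rfl⟩
  push _ _ _ _ _ _ f _ := ⟨PUnit.unit, fun x => spc_tot f x⟩
  comp T T' T'' _ _ _ _ _ _ f g _ _ _ x x' x'' h h' := by
    have e : SpPt.val x' = extend f (SpPt.val x) := h
    have e' : SpPt.val x'' = extend g (SpPt.val x') := h'
    change SpPt.val x'' = extend (g.comp f) (SpPt.val x)
    rw [e', e, spc_extend, spc_extend, spc_extend, ← LinearMap.comp_apply, ← LinearMap.rTensor_comp]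
    rfl
  cmp T _ _ _ _ := ⟨T, inferInstance, inferInstance, inferInstance, inferInstance, inferInstance,
    PUnit.unit, fun x => spc_tot _ x, fun x => spc_tot _ x⟩

theorem IsTypeC.good {G : GF R} (h : IsTypeC G) : G.Good := by
  obtain ⟨B, _, _, σ, hσ, rfl⟩ := h
  exact sp_good hσ

end Pool.Agent.GU
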