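import Pool.Agent.P.MP_c1f06d_ag.u.GSA
import Pool.Agent.P.MP_c1f06d_ag.u.GSC
import Pool.Agent.P.MP_c1f06d_ag.u.GSD
import Pool.Agent.P.MP_c1f06d_ag.u.GSG
import Pool.Agent.P.MP_c1f06d_ag.u.Bridge

universe u

namespace Pool.Agent.GU

theorem family_main (V C : Type u) [CommRing V] [IsDomain V] [ValuationRing V] [CommRing C]
    [Algebra V C] [Algebra.Smooth V C] (p : Ideal C) [p.IsPrime] {R : Type u} [CommRing R]
    [Algebra C R] [IsLocalization.AtPrime R p] {G : GUS.GF R} (hG : GUS.Family G) {E : Type u}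
    [CommRing E] [Algebra R E] (hE : G.IsTorsor E) (hK : Nonempty (E →ₐ[R] FractionRing R)) :
    Nonempty (E →ₐ[R] R) := by
  have : IsLocalRing R := IsLocalization.AtPrime.isLocalRing R p
  obtain ⟨H, ⟨h1, h2⟩, h3⟩ := GUS.bridge (fun H => H.Good ∧ H.GS (FractionRing R))
    (fun _ h => ⟨h.good, h.gs V C p⟩) (fun _ h => ⟨h.good, h.gs V C p⟩)
    (fun Z _ _ _ _ _ H h => by
      rcases h with h | h | h
      · exact ⟨h.good.weil, h.gs_weil V C p⟩
      · exact ⟨h.good.weil, h.gs_weil V C p⟩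
      · exact ⟨h.good.weil, h.gs_weil V C p⟩)
    (fun _ _ h h' => ⟨h.1.prod h'.1, GF.GS.prod h.1 h'.1 h.2 h'.2⟩) hG hE
  exact torsor_main (FractionRing R) h1 h2 h3 hK.some

end Pool.Agent.GU
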