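import Pool.Agent.P.MP_c1f06d_ag.u.GoodD
import Pool.Agent.P.MP_c1f06d_ag.u.PCoc

open Matrix CliffordAlgebra TensorProduct Pool.Agent.P.MP_c1f06d_ag Pool.Agent.GSD

universe u

namespace Pool.Agent.GU

open Splitting

variable {R A : Type u} [CommRing R] [Ring A] [Algebra R A] [StarRing A] {l : A} {d : ℕ}
variable {S : Type u} [CommRing S] [Algebra R S]

/-- The cocycle with values in the subgroups. -/
noncomputable def pcoc (τ : (pairStr R l d).gf.Gam S) : PCoc R l d S where
  gam s a b := Pt.sp (τ.γ _ s a b)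
  gam_self s a := Subtype.ext (Units.ext (τ.self _ s a))
  gam_mul' s a b c := Eq.symm (τ.mul _ s a b c)
  gam_map s s' f a b := (Pt.tr_v f (τ.γ _ s a b)).symm.trans
    (congrArg Pt.v ((pairStr R l d).nat τ s s' f a b))

theorem inv_rel {T : Type u} [CommRing T] [Algebra R T] {s : Splitting R l d S}
    {s' : Splitting R l d T} {y z : s.C} {m : Matrix (Fin d) (Fin d) S} (hy : s.Gd y m 1)
    (hz : z ∈ even s.q) (h : z * y = 1) {a b : S →ₐ[R] T} {γ : s'.C}
    (hc : γ * s.trC s' a y = s.trC s' b y) : s.trC s' a z = s.trC s' b z * γ := by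
  apply (hy.trC s' a).isUnit.mul_right_cancel
  rw [mul_assoc, hc, ← trC_mul hz hy.even, ← trC_mul hz hy.even, h, trC_one, trC_one]

/-- The cocycle form of the reduction, over a ring with finitely many maximal ideals. -/
theorem pair_gs_semi [Finite (MaximalSpectrum R)] [Module.Free R A] [Module.Finite R A]
    (hA : IsQuadPair R l d) (K : Type u) [Field K] [Algebra R K]
    (hRK : Function.Injective (algebraMap R K))
    {B : Type u} [Ring B] [StarRing B] [Algebra R B] [Algebra K B] [IsScalarTower R K B]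
    (i : A →ₐ[R] B) (hi : GenB K i)
    (HA : ∀ θ : A, IsUnit (θ + star θ) → (∃ x : B, IsUnit x ∧ Alt (star x * i l * x - i θ)) →
      ∃ x : A, IsUnit x ∧ Alt (star x * l * x - θ))
    (HW : ∀ g : B, Iso (i l) g → ∃ c : K, SNw l d i g c)
    (HB : ∀ c : R, IsUnit c → (∃ g : B, SNw l d i g (algebraMap R K c)) →
      ∃ g : A, SNw l d (AlgHom.id R A) g c) : (pairStr R l d).gf.GS K := by
  refine (pairStr R l d).gs_of_chart hA.2.2 fun S _ _ τ S1 _ _ _ e p c0 hp => ?_
  obtain ⟨S', _, _, hf, j, s, y, m, hy, hc⟩ := PCoc.reduction hA K hRK i hi HA HW HB (pcoc τ) e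
    (Splitting.map c0 e) (p1 := p) fun T _ _ s' a b hab x => congrArg Pt.sp
      ((pairStr R l d).one_mul (hp T s' a b hab) (τ.mul T s' x _ _)).symm
  let k : Spin s.Q S' :=
    ⟨hy.isUnit.unit, mem_spin hy.det hy.even (hy.norm.trans (map_one _)) hy.ind⟩
  refine ⟨S', inferInstance, inferInstance, hf, j, s, s.pt k⁻¹,
    GF.Str.cob_iff.2 fun T _ _ s' a b => ?_⟩
  exact (Pt.tr_v a (s.pt k⁻¹)).trans ((inv_rel hy (k⁻¹).2.1 hy.isUnit.val_inv_mul
    (hc T s' a b)).trans (congrArg (· * _) (Pt.tr_v b (s.pt k⁻¹)).symm))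

section Split

variable (s : Splitting R l d R) {T T' : Type u} [CommRing T] [Algebra R T] [CommRing T']
  [Algebra R T']

/-- A point for the extended splitting as a point of the spin group of the form. -/
noncomputable def ptS (x : (s.map (Algebra.ofId R T)).Pt) : SpinPt s.Q T := (s.pt0_surj x).choose

theorem pt0_ptS (x : (s.map (Algebra.ofId R T)).Pt) : s.pt0 (ptS s x) = x :=
  (s.pt0_surj x).choose_spec

theorem ptS_val (x : (s.map (Algebra.ofId R T)).Pt) : (ptS s x).val = x.val :=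
  congrArg Splitting.Pt.val (pt0_ptS s x)

theorem isMap0_iff (f : T →ₐ[R] T') (x : SpinPt s.Q T) (y : SpinPt s.Q T') :
    (spinGF s.Q).IsMap T T' PUnit.unit PUnit.unit f x y ↔
      s.pt0 y = Pt.tr (s.map (Algebra.ofId R T')) f (s.pt0 x) := by
  constructor
  · rintro ⟨Ψ, h1, h2, h3⟩
    exact (pairStr R l d).of_isMap ⟨1, s.isHom0 f, s.sends0 f Ψ ⟨h1, h2⟩ x y h3⟩
  · intro h
    obtain ⟨Ψ, hΨ⟩ := (s.isHom0 f).exists_sem
    have e := (congrArg Pt.v h).trans ((Pt.tr_v f _).trans (hΨ.trC_eq (s.isHom0 f) (Pt.even _)))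
    exact ⟨Ψ, hΨ.1, fun v => (hΨ.2 v).trans (congrArg (vec s.Q T') (one_mulVec _)), e.symm⟩

/-- With a splitting over the base the cocycle has values in the spin group of a form. -/
noncomputable def scoc (τ : (pairStr R l d).gf.Gam S) : (spinGF s.Q).Gam S where
  γ T _ _ _ a b := ptS s (τ.γ T (s.map (Algebra.ofId R T)) a b)
  self T _ _ _ a := (ptS_val s _).trans (τ.self T _ a)
  mul T _ _ _ a b c := (ptS_val s _).trans (Eq.trans (τ.mul T _ a b c)
    (congrArg₂ (· * ·) (ptS_val s _).symm (ptS_val s _).symm))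
  map T T' _ _ _ _ _ _ f a b y h := by
    have e := (isMap0_iff s f _ _).1 h
    erw [pt0_ptS] at e
    exact s.pt0_inj ((τ.map T T' _ _ f a b _ e).trans (pt0_ptS s _).symm)
  refl T T' _ _ _ _ _ _ f a b x hf h := by
    have e := (isMap0_iff s f _ _).1 h
    erw [pt0_ptS] at e
    exact s.pt0_inj ((τ.refl T T' _ _ f a b _ hf e).trans (pt0_ptS s _).symm)

theorem pair_gs_split {K : Type u} [CommRing K] [Algebra R K] (h : (spinGF s.Q).GS K) :
    (pairStr R l d).gf.GS K := by
  intro S _ _ τ S1 _ _ _ e p hp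
  obtain ⟨S', _, _, hf, j, c, g, hg⟩ := h S (scoc s τ) S1 e p fun T _ _ _ a b hab =>
    (ptS_val s _).trans (hp T _ a b hab)
  refine ⟨S', inferInstance, inferInstance, hf, j, s.map (Algebra.ofId R S'), s.pt0 g,
    GF.Str.cob_iff.2 fun T _ _ s' a b => ?_⟩
  have h1 := hg T PUnit.unit a b _ _ ((isMap0_iff s a _ _).2 (pt0_ptS s _))
    ((isMap0_iff s b _ _).2 (pt0_ptS s _))
  have h2 : (pairGF R l d).IsMul T (s.map (Algebra.ofId R T))
      ((pairStr R l d).tr (s.map (Algebra.ofId R S')) _ a (s.pt0 g))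
      ((pairStr R l d).tr (s.map (Algebra.ofId R S')) _ b (s.pt0 g))
      (τ.γ T _ (a.comp (j.comp e)) (b.comp (j.comp e))) :=
    (ptS_val s _).symm.trans (Eq.trans h1 (congrArg₂ (· * ·) (ptS_val s _) (ptS_val s _)))
  have h3 := (pairStr R l d).tr_mul s' (AlgHom.id R T) h2
  erw [GF.Str.tr_tr, GF.Str.tr_tr, GF.Str.nat] at h3
  exact h3

end Split

end Pool.Agent.GU
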