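import Pool.Agent.P.MP_c1f06d_ag.u.GS

open TensorProduct

universe u

namespace Pool.Agent.GU

variable {R : Type u} [CommRing R] {G H : GF R}

theorem GF.Tot.comp (hG : G.Good) {T T' T'' : Type u} [CommRing T] [Algebra R T] [CommRing T']
    [Algebra R T'] [CommRing T''] [Algebra R T''] {f : T →ₐ[R] T'} {g : T' →ₐ[R] T''} {c c' c''}
    (h : G.Tot f c c') (h' : G.Tot g c' c'') : G.Tot (g.comp f) c c'' := fun x =>
  let ⟨y, hy⟩ := h x; let ⟨z, hz⟩ := h' y; ⟨z, hG.comp _ _ _ _ _ _ _ _ _ _ _ hy hz⟩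

theorem GF.Tot.prod {T T' : Type u} [CommRing T] [Algebra R T] [CommRing T'] [Algebra R T']
    {f : T →ₐ[R] T'} {c c' d d'} (h : G.Tot f c c') (h' : H.Tot f d d') :
    (G.prod H).Tot f (c, d) (c', d') := fun x =>
  let ⟨y, hy⟩ := h x.1; let ⟨z, hz⟩ := h' x.2; ⟨(y, z), hy, hz⟩

theorem ff_tensor (S S' : Type u) [CommRing S] [Algebra R S] [CommRing S'] [Algebra R S']
    [Module.FaithfullyFlat R S] [Module.FaithfullyFlat R S'] :
    Module.FaithfullyFlat R (S ⊗[R] S') := Module.FaithfullyFlat.trans R S (S ⊗[R] S')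

theorem GF.Good.prod (hG : G.Good) (hH : H.Good) : (G.prod H).Good where
  chart := by
    obtain ⟨S, _, _, _, ⟨c⟩⟩ := hG.chart
    obtain ⟨S', _, _, _, ⟨d⟩⟩ := hH.chart
    exact ⟨S ⊗[R] S', inferInstance, inferInstance, ff_tensor S S',
      ⟨((hG.push _ _ Algebra.TensorProduct.includeLeft c).choose,
        (hH.push _ _ Algebra.TensorProduct.includeRight d).choose)⟩⟩
  one T _ _ c := let ⟨x, hx⟩ := hG.one T c.1; let ⟨y, hy⟩ := hH.one T c.2; ⟨(x, y), hx, hy⟩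
  mul T _ _ c x y :=
    let ⟨z, hz⟩ := hG.mul T c.1 x.1 y.1; let ⟨w, hw⟩ := hH.mul T c.2 x.2 y.2; ⟨(z, w), hz, hw⟩
  push T T' _ _ _ _ f c :=
    let ⟨c', h⟩ := hG.push T T' f c.1; let ⟨d', h'⟩ := hH.push T T' f c.2; ⟨(c', d'), h.prod h'⟩
  comp _ _ _ _ _ _ _ _ _ _ _ _ _ _ _ _ _ h h' :=
    ⟨hG.comp _ _ _ _ _ _ _ _ _ _ _ h.1 h'.1, hH.comp _ _ _ _ _ _ _ _ _ _ _ h.2 h'.2⟩
  cmp T _ _ c1 c2 := by
    obtain ⟨T1, _, _, _, _, _, c, h1, h2⟩ := hG.cmp T c1.1 c2.1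
    obtain ⟨d1, e1⟩ := hH.push T T1 (IsScalarTower.toAlgHom R T T1) c1.2
    obtain ⟨d2, e2⟩ := hH.push T T1 (IsScalarTower.toAlgHom R T T1) c2.2
    obtain ⟨T2, _, _, _, _, _, d, k1, k2⟩ := hH.cmp T1 d1 d2
    obtain ⟨c', h⟩ := hG.push T1 T2 (IsScalarTower.toAlgHom R T1 T2) c
    let _ : Algebra T T2 := ((algebraMap T1 T2).comp (algebraMap T T1)).toAlgebra
    have : IsScalarTower T T1 T2 := .of_algebraMap_eq' rfl
    have : IsScalarTower R T T2 := .of_algebraMap_eq fun r => by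
      rw [IsScalarTower.algebraMap_apply R T1 T2, IsScalarTower.algebraMap_apply R T T1]; rfl
    exact ⟨T2, inferInstance, inferInstance, inferInstance, inferInstance,
      Module.FaithfullyFlat.trans T T1 T2, (c', d), (h1.comp hG h).prod (e1.comp hH k1),
      (h2.comp hG h).prod (e2.comp hH k2)⟩

/-- One may assume that the cover carries a chart. -/
theorem GF.GS.of_chart {K : Type u} [CommRing K] [Algebra R K] (hG : G.Good)
    (h : ∀ (S : Type u) [CommRing S] [Algebra R S] (τ : G.Gam S) (_ : G.Ch S) (S1 : Type u)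
      [CommRing S1] [Algebra R S1] [Module.FaithfullyFlat R S1] (e : S →ₐ[R] S1)
      (p : S →ₐ[R] K ⊗[R] S1), τ.Gen K p →
      ∃ (S' : Type u) (_ : CommRing S') (_ : Algebra R S'), Module.FaithfullyFlat R S' ∧
        ∃ (j : S1 →ₐ[R] S') (c : G.Ch S') (g : G.Pt S' c), τ.Cob (j.comp e) c g) : G.GS K := by
  intro S _ _ τ S1 _ _ _ e p hp
  obtain ⟨S0, _, _, _, ⟨c0⟩⟩ := hG.chart
  have := ff_tensor (R := R) S1 S0
  let i : S →ₐ[R] S ⊗[R] S0 := Algebra.TensorProduct.includeLeft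
  let i1 : S1 →ₐ[R] S1 ⊗[R] S0 := Algebra.TensorProduct.includeLeft
  let p' : S ⊗[R] S0 →ₐ[R] K ⊗[R] (S1 ⊗[R] S0) := Algebra.TensorProduct.lift
    ((Algebra.TensorProduct.map (AlgHom.id R K) i1).comp p)
    (Algebra.TensorProduct.includeRight.comp Algebra.TensorProduct.includeRight)
    fun _ _ => Commute.all _ _
  have e1 : p'.comp i = (Algebra.TensorProduct.map (AlgHom.id R K) i1).comp p :=
    Algebra.TensorProduct.lift_comp_includeLeft _ _ _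
  obtain ⟨S', _, _, hS', j, c, g, hg⟩ := h (S ⊗[R] S0) (τ.pull i)
    (hG.push _ _ Algebra.TensorProduct.includeRight c0).choose (S1 ⊗[R] S0)
    (Algebra.TensorProduct.map e (AlgHom.id R S0)) p' fun T _ _ c a b hab => by
      have := hp.map i1 T c a b hab
      rw [← e1] at this
      exact this
  have e2 : (j.comp (Algebra.TensorProduct.map e (AlgHom.id R S0))).comp i = (j.comp i1).comp e := by
    ext; simp [i, i1]
  refine ⟨S', inferInstance, inferInstance, hS', j.comp i1, c, g, fun T _ _ c' a b ga gb ha hb => ?_⟩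
  rw [← e2]
  exact hg T c' a b ga gb ha hb

section
variable {S : Type u} [CommRing S] [Algebra R S] (τ : (G.prod H).Gam S)
  {T : Type u} [CommRing T] [Algebra R T]

theorem gam_fst (hG : G.Good) (hH : H.Good) (c : G.Ch T) (d d' : H.Ch T) (a b : S →ₐ[R] T) :
    (τ.γ T (c, d) a b).1 = (τ.γ T (c, d') a b).1 := by
  obtain ⟨T1, _, _, _, _, _, d1, h1, h2⟩ := hH.cmp T d d'
  obtain ⟨c1, h⟩ := hG.push T T1 (IsScalarTower.toAlgHom R T T1) c
  obtain ⟨y, hy⟩ := h.prod h1 (τ.γ T (c, d) a b)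
  obtain ⟨y', hy'⟩ := h.prod h2 (τ.γ T (c, d') a b)
  obtain rfl := τ.map _ _ _ _ _ _ _ _ hy
  have e := τ.map _ _ _ _ _ _ _ _ hy'
  exact (congrArg Prod.fst (τ.refl T T1 (c, d) (c1, d1) _ a b
    ((τ.γ T (c, d') a b).1, (τ.γ T (c, d) a b).2) (ff_injective T T1) ⟨e ▸ hy'.1, hy.2⟩)).symm

theorem gam_snd (hG : G.Good) (hH : H.Good) (c c' : G.Ch T) (d : H.Ch T) (a b : S →ₐ[R] T) :
    (τ.γ T (c, d) a b).2 = (τ.γ T (c', d) a b).2 := by
  obtain ⟨T1, _, _, _, _, _, c1, h1, h2⟩ := hG.cmp T c c'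
  obtain ⟨d1, h⟩ := hH.push T T1 (IsScalarTower.toAlgHom R T T1) d
  obtain ⟨y, hy⟩ := h1.prod h (τ.γ T (c, d) a b)
  obtain ⟨y', hy'⟩ := h2.prod h (τ.γ T (c', d) a b)
  obtain rfl := τ.map _ _ _ _ _ _ _ _ hy
  have e := τ.map _ _ _ _ _ _ _ _ hy'
  exact (congrArg Prod.snd (τ.refl T T1 (c, d) (c1, d1) _ a b
    ((τ.γ T (c, d) a b).1, (τ.γ T (c', d) a b).2) (ff_injective T T1) ⟨hy.1, e ▸ hy'.2⟩)).symm

theorem exists_gam_fst (hG : G.Good) (hH : H.Good) (d0 : H.Ch S) : ∃ τ1 : G.Gam S,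
    ∀ (T : Type u) [CommRing T] [Algebra R T] c d a b, τ1.γ T c a b = (τ.γ T (c, d) a b).1 := by
  let γ : ∀ (T : Type u) [CommRing T] [Algebra R T] (c : G.Ch T), (S →ₐ[R] T) → (S →ₐ[R] T) →
      G.Pt T c := fun T _ _ c a b => (τ.γ T (c, (hH.push S T a d0).choose) a b).1
  have hγ : ∀ (T : Type u) [CommRing T] [Algebra R T] c d a b, γ T c a b = (τ.γ T (c, d) a b).1 :=
    fun T _ _ c d a b => gam_fst τ hG hH c _ d a b
  refine ⟨⟨γ, fun T _ _ c a => (τ.self T (c, _) a).1, fun T _ _ c a a' a'' => ?_,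
    fun T T' _ _ _ _ c c' f a a' y h => ?_, fun T T' _ _ _ _ c c' f a a' x hf h => ?_⟩, hγ⟩
  · rw [hγ T c (hH.push S T a d0).choose a' a'']
    exact (τ.mul T (c, _) a a' a'').1
  · obtain ⟨d', hd⟩ := hH.push T T' f (hH.push S T a d0).choose
    obtain ⟨z, hz⟩ := hd (τ.γ T (c, _) a a').2
    rw [hγ T' c' d']
    exact congrArg Prod.fst (τ.map T T' (c, _) (c', d') f a a' (y, z) ⟨h, hz⟩)
  · obtain ⟨d', hd⟩ := hH.push T T' f (hH.push S T a d0).choose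
    obtain ⟨c'', hc⟩ := hG.push T T' f c
    obtain ⟨z, hz⟩ := hc.prod hd (τ.γ T (c, _) a a')
    obtain rfl := τ.map _ _ _ _ _ _ _ _ hz
    rw [hγ T' c' d'] at h
    exact congrArg Prod.fst (τ.refl T T' (c, _) (c', d') f a a' (x, _) hf
      ⟨h, gam_snd τ hG hH c'' c' d' _ _ ▸ hz.2⟩)

theorem exists_gam_snd (hG : G.Good) (hH : H.Good) (c0 : G.Ch S) : ∃ τ2 : H.Gam S,
    ∀ (T : Type u) [CommRing T] [Algebra R T] c d a b, τ2.γ T d a b = (τ.γ T (c, d) a b).2 := by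
  let γ : ∀ (T : Type u) [CommRing T] [Algebra R T] (d : H.Ch T), (S →ₐ[R] T) → (S →ₐ[R] T) →
      H.Pt T d := fun T _ _ d a b => (τ.γ T ((hG.push S T a c0).choose, d) a b).2
  have hγ : ∀ (T : Type u) [CommRing T] [Algebra R T] c d a b, γ T d a b = (τ.γ T (c, d) a b).2 :=
    fun T _ _ c d a b => gam_snd τ hG hH _ c d a b
  refine ⟨⟨γ, fun T _ _ d a => (τ.self T (_, d) a).2, fun T _ _ d a a' a'' => ?_,
    fun T T' _ _ _ _ d d' f a a' y h => ?_, fun T T' _ _ _ _ d d' f a a' x hf h => ?_⟩, hγ⟩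
  · rw [hγ T (hG.push S T a c0).choose d a' a'']
    exact (τ.mul T (_, d) a a' a'').2
  · obtain ⟨c', hc⟩ := hG.push T T' f (hG.push S T a c0).choose
    obtain ⟨z, hz⟩ := hc (τ.γ T (_, d) a a').1
    rw [hγ T' c' d']
    exact congrArg Prod.snd (τ.map T T' (_, d) (c', d') f a a' (z, y) ⟨hz, h⟩)
  · obtain ⟨c', hc⟩ := hG.push T T' f (hG.push S T a c0).choose
    obtain ⟨d'', hd⟩ := hH.push T T' f d
    obtain ⟨z, hz⟩ := hc.prod hd (τ.γ T (_, d) a a')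
    obtain rfl := τ.map _ _ _ _ _ _ _ _ hz
    rw [hγ T' c' d'] at h
    exact congrArg Prod.snd (τ.refl T T' (_, d) (c', d') f a a' (_, x) hf
      ⟨gam_fst τ hG hH c' d'' d' _ _ ▸ hz.1, h⟩)

end

theorem GF.GS.prod {K : Type u} [CommRing K] [Algebra R K] (hG : G.Good) (hH : H.Good)
    (h1 : G.GS K) (h2 : H.GS K) : (G.prod H).GS K := by
  refine GF.GS.of_chart (hG.prod hH) fun S _ _ τ c0 S1 _ _ _ e p hp => ?_
  obtain ⟨τ1, e1⟩ := exists_gam_fst τ hG hH c0.2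
  obtain ⟨τ2, e2⟩ := exists_gam_snd τ hG hH c0.1
  obtain ⟨S2, _, _, _, j, c, g, hg⟩ := h1 S τ1 S1 e p fun T _ _ c a b hab => by
    rw [e1 T c (hH.push S T (a.comp p) c0.2).choose]
    exact (hp T (c, _) a b hab).1
  obtain ⟨S3, _, _, hS3, j', d, g', hg'⟩ := h2 S τ2 S2 (j.comp e) _ (GF.Gam.Gen.map (p := p)
    (fun T _ _ d a b hab => by
      rw [e2 T (hG.push S T (a.comp p) c0.1).choose d]
      exact (hp T (_, d) a b hab).2) j)
  obtain ⟨c', g'', hg''⟩ := hg.push hG j'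
  refine ⟨S3, inferInstance, inferInstance, hS3, j'.comp j, (c', d), (g'', g'),
    fun T _ _ k a b ga gb ha hb => ⟨?_, ?_⟩⟩
  · have := hg'' T k.1 a b ga.1 gb.1 ha.1 hb.1
    rwa [e1 T k.1 k.2] at this
  · have := hg' T k.2 a b ga.2 gb.2 ha.2 hb.2
    rwa [e2 T k.1 k.2] at this

end Pool.Agent.GU
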