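import Mathlib

open Matrix TensorProduct CliffordAlgebra

universe u

namespace Pool.Agent.GUS

/-- A group functor on `R`-algebras, read in charts: for every `R`-algebra `T` and every chart `c`
over `T` an ambient set `M` with unit and product, the subset `In` of points of the group, and the
graph of the map induced by a map of `R`-algebras. -/
structure GF (R : Type u) [CommRing R] where
  Ch : ∀ (T : Type u) [CommRing T] [Algebra R T], Type u
  M : ∀ (T : Type u) [CommRing T] [Algebra R T], Ch T → Type u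
  one : ∀ (T : Type u) [CommRing T] [Algebra R T] (c : Ch T), M T c
  mul : ∀ (T : Type u) [CommRing T] [Algebra R T] (c : Ch T), M T c → M T c → M T c
  In : ∀ (T : Type u) [CommRing T] [Algebra R T] (c : Ch T), M T c → Prop
  IsMap : ∀ (T T' : Type u) [CommRing T] [Algebra R T] [CommRing T'] [Algebra R T']
    (c : Ch T) (c' : Ch T'), (T →ₐ[R] T') → M T c → M T' c' → Prop

variable {R : Type u} [CommRing R]

/-- The product of two group functors. -/
def GF.prod (G H : GF R) : GF R where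
  Ch T _ _ := G.Ch T × H.Ch T
  M T _ _ c := G.M T c.1 × H.M T c.2
  one T _ _ c := (G.one T c.1, H.one T c.2)
  mul T _ _ c x y := (G.mul T c.1 x.1 y.1, H.mul T c.2 x.2 y.2)
  In T _ _ c x := G.In T c.1 x.1 ∧ H.In T c.2 x.2
  IsMap T T' _ _ _ _ c c' f x x' :=
    G.IsMap T T' c.1 c'.1 f x.1 x'.1 ∧ H.IsMap T T' c.2 c'.2 f x.2 x'.2

variable (R) in
/-- The Weil restriction from `Z` to `R`: its points over `T` are the points over `Z ⊗ T`. -/
noncomputable def GF.weil {Z : Type u} [CommRing Z] [Algebra R Z] (G : GF Z) : GF R where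
  Ch T _ _ := G.Ch (Z ⊗[R] T)
  M T _ _ c := G.M (Z ⊗[R] T) c
  one T _ _ c := G.one (Z ⊗[R] T) c
  mul T _ _ c := G.mul (Z ⊗[R] T) c
  In T _ _ c := G.In (Z ⊗[R] T) c
  IsMap T T' _ _ _ _ c c' f :=
    G.IsMap (Z ⊗[R] T) (Z ⊗[R] T') c c' (Algebra.TensorProduct.map (AlgHom.id Z Z) f)

/-- `Spec E` is a torsor under `G`: it is faithfully flat over `R`, and the points of `G` over `T`
act simply transitively on `E(T)`, naturally in the `R`-algebra `T` and in the chart. -/
def GF.IsTorsor (G : GF R) (E : Type u) [CommRing E] [Algebra R E] : Prop :=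
  Module.FaithfullyFlat R E ∧
    ∃ act : ∀ (T : Type u) [CommRing T] [Algebra R T] (c : G.Ch T),
        G.M T c → (E →ₐ[R] T) → (E →ₐ[R] T),
      ∀ (T : Type u) [CommRing T] [Algebra R T] (c : G.Ch T) (e : E →ₐ[R] T),
        act T c (G.one T c) e = e ∧
        (∀ x y, G.In T c x → G.In T c y → act T c (G.mul T c x y) e = act T c x (act T c y e)) ∧
        (∀ e', ∃! x, G.In T c x ∧ act T c x e = e') ∧
        ∀ (T' : Type u) [CommRing T'] [Algebra R T'] (c' : G.Ch T') (f : T →ₐ[R] T') x x',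
          G.In T c x → G.In T' c' x' → G.IsMap T T' c c' f x x' →
          f.comp (act T c x e) = act T' c' x' (f.comp e)

section
variable {B : Type u} [Ring B] [Algebra R B]

/-- The elements `x` of `T ⊗ B` with `x σ(x) = 1 = σ(x) x` that satisfy `P`. -/
noncomputable def unitGF (σ : B →ₗ[R] B)
    (P : ∀ (T : Type u) [CommRing T] [Algebra R T], T ⊗[R] B → Prop) : GF R where
  Ch _ _ _ := PUnit
  M T _ _ _ := T ⊗[R] B
  one _ _ _ _ := 1
  mul _ _ _ _ x y := x * y
  In T _ _ _ x := x * σ.baseChange T x = 1 ∧ σ.baseChange T x * x = 1 ∧ P T x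
  IsMap _ _ _ _ _ _ _ _ f x x' := x' = f.toLinearMap.rTensor B x

/-- The maps `φ i` identify `T ⊗ B` with a product of `n` copies of `M_d(T) × M_d(T)`, and `τ`
with `(a, b) ↦ (bᵀ, aᵀ)` on each copy. -/
def IsSplit (τ : B →ₗ[R] B) {T : Type u} [CommRing T] [Algebra R T] {d n : ℕ}
    (φ : Fin n → T ⊗[R] B →ₐ[T] Matrix (Fin d) (Fin d) T) : Prop :=
  Function.Bijective fun (x : T ⊗[R] B) (i : Fin n) => (φ i x, (φ i (τ.baseChange T x))ᵀ)

/-- The reduced norm of `x` is one: its determinant is one in every splitting. -/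
def NrdOne (τ : B →ₗ[R] B) (d : ℕ) (T : Type u) [CommRing T] [Algebra R T] (x : T ⊗[R] B) :
    Prop :=
  ∀ (T' : Type u) [CommRing T'] [Algebra R T'] (f : T →ₐ[R] T') (n : ℕ)
    (φ : Fin n → T' ⊗[R] B →ₐ[T'] Matrix (Fin d) (Fin d) T'),
    IsSplit τ φ → ∀ i, (φ i (f.toLinearMap.rTensor B x)).det = 1

end

section
variable {T T' M M' : Type u} [CommRing T] [AddCommGroup M] [Module T M] [CommRing T']
  [AddCommGroup M'] [Module T' M']

/-- `x` is even, `x * reverse x = 1 = reverse x * x`, and `x M = M x`. -/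
def InSpin (q : QuadraticForm T M) (x : CliffordAlgebra q) : Prop :=
  x ∈ even q ∧ x * reverse x = 1 ∧ reverse x * x = 1 ∧
    (∀ v, ∃ w, x * ι q v = ι q w * x) ∧ ∀ w, ∃ v, x * ι q v = ι q w * x

/-- The map of Clifford algebras that is `f` on scalars and `θ` on vectors sends `x` to `x'`. -/
def Sends (q : QuadraticForm T M) (q' : QuadraticForm T' M') (f : T → T') (θ : M → M')
    (x : CliffordAlgebra q) (x' : CliffordAlgebra q') : Prop :=
  ∃ Ψ : CliffordAlgebra q →+* CliffordAlgebra q',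
    (∀ c, Ψ (algebraMap T _ c) = algebraMap T' _ (f c)) ∧ (∀ v, Ψ (ι q v) = ι q' (θ v)) ∧ Ψ x = x'

end

/-- The spin group of the quadratic form `v ↦ vᵀ Q v`. -/
noncomputable def spinGF {m : ℕ} (Q : Matrix (Fin m) (Fin m) R) : GF R where
  Ch _ _ _ := PUnit
  M T _ _ _ := CliffordAlgebra (Q.map (algebraMap R T)).toQuadraticForm'
  one _ _ _ _ := 1
  mul _ _ _ _ x y := x * y
  In _ _ _ _ := InSpin _
  IsMap _ _ _ _ _ _ _ _ f := Sends _ _ f fun v => f ∘ v

section
variable (R) {A : Type u} [Ring A] [StarRing A] [Algebra R A]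

/-- A splitting over the `R`-algebra `T` of the algebra `A` with involution `star` and semitrace
`s ↦ Trd (l s)`: an isomorphism `T ⊗ A ≅ M_d(T)` that carries the pair to the pair adjoint to the
regular quadratic form `v ↦ vᵀ Q v`, whose polar matrix is `Q + Qᵀ`. -/
structure Splitting (l : A) (d : ℕ) (T : Type u) [CommRing T] [Algebra R T] where
  φ : A →ₐ[R] Matrix (Fin d) (Fin d) T
  Q : Matrix (Fin d) (Fin d) T
  baseChange : IsBaseChange T φ.toLinearMap
  regular : IsUnit (Q + Qᵀ)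
  adjoint : ∀ a, (Q + Qᵀ) * φ (star a) = (φ a)ᵀ * (Q + Qᵀ)
  semitrace : Q = (Q + Qᵀ) * φ l

/-- The spin group of the quadratic pair, read in its splittings; splittings are compared by the
isometries `h` that intertwine the two representations of `A`. -/
noncomputable def pairGF (l : A) (d : ℕ) : GF R where
  Ch T _ _ := Splitting R l d T
  M _ _ _ s := CliffordAlgebra s.Q.toQuadraticForm'
  one _ _ _ _ := 1
  mul _ _ _ _ x y := x * y
  In _ _ _ _ := InSpin _
  IsMap _ T' _ _ _ _ s s' f x x' := ∃ h : Matrix (Fin d) (Fin d) T',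
    hᵀ * s'.Q * h = s.Q.map f ∧ (∀ a, s'.φ a * h = h * (s.φ a).map f) ∧
      Sends _ _ f (fun v => h *ᵥ (f ∘ v)) x x'

end

/-- The product on `T ^ 8` whose `k`-th coordinate is `xᵀ (c k) y`. -/
def octMul {T : Type u} [CommRing T] (c : Fin 8 → Matrix (Fin 8) (Fin 8) T) (x y : Fin 8 → T) :
    Fin 8 → T :=
  fun k => x ⬝ᵥ c k *ᵥ y

/-- The automorphism group of the algebra with structure constants `c`. -/
def autGF (c : Fin 8 → Matrix (Fin 8) (Fin 8) R) : GF R where
  Ch _ _ _ := PUnit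
  M T _ _ _ := Matrix (Fin 8) (Fin 8) T
  one _ _ _ _ := 1
  mul _ _ _ _ x y := x * y
  In T _ _ _ g := IsUnit g.det ∧ ∀ x y, g *ᵥ octMul (fun k => (c k).map (algebraMap R T)) x y =
    octMul (fun k => (c k).map (algebraMap R T)) (g *ᵥ x) (g *ᵥ y)
  IsMap _ _ _ _ _ _ _ _ f g g' := g' = g.map f

/-- The finite products of special unitary groups, symplectic groups, and Weil restrictions along
connected finite etale algebras of spin groups of quadratic forms, of spin groups of quadratic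
pairs, and of automorphism groups of octonion algebras. -/
inductive Family : GF R → Prop
  | su (B : Type u) [Ring B] [Algebra R B] (τ : B →ₗ[R] B) (d n : ℕ)
      (S : Type u) [CommRing S] [Algebra R S] [Module.FaithfullyFlat R S]
      (φ : Fin n → S ⊗[R] B →ₐ[S] Matrix (Fin d) (Fin d) S) :
      0 < d → (∀ x, τ (τ x) = x) → (∀ x y, τ (x * y) = τ y * τ x) → IsSplit τ φ →
      Family (unitGF τ (NrdOne τ d))
  | sp (B : Type u) [Ring B] [Algebra R B] (σ : B →ₗ[R] B) (r : ℕ) (n : Fin r → ℕ)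
      (S : Type u) [CommRing S] [Algebra R S] [Module.FaithfullyFlat R S]
      (φ : S ⊗[R] B ≃ₐ[S] ∀ i, Matrix (Fin (n i) ⊕ Fin (n i)) (Fin (n i) ⊕ Fin (n i)) S) :
      (∀ x i, φ (σ.baseChange S x) i = -(J (Fin (n i)) S * (φ x i)ᵀ * J (Fin (n i)) S)) →
      Family (unitGF σ fun _ _ _ _ => True)
  | spin (Z : Type u) [CommRing Z] [IsDomain Z] [Algebra R Z] [Module.Finite R Z]
      [Algebra.Etale R Z] (m : ℕ) (Q : Matrix (Fin m) (Fin m) Z) :
      5 ≤ m → (∀ (k : Type u) [Field k] (f : Z →+* k) (x : Fin m → k),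
        x ⬝ᵥ Q.map f *ᵥ x = 0 → (Q.map f + (Q.map f)ᵀ) *ᵥ x = 0 → x = 0) →
      Family ((spinGF Q).weil R)
  | pair (Z : Type u) [CommRing Z] [IsDomain Z] [Algebra R Z] [Module.Finite R Z]
      [Algebra.Etale R Z] (A : Type u) [Ring A] [StarRing A] [Algebra Z A] [IsAzumaya Z A]
      (l : A) (n : ℕ) (S : Type u) [CommRing S] [Algebra Z S] [Module.FaithfullyFlat Z S] :
      3 ≤ n → (∀ (r : Z) (a : A), star (r • a) = r • star a) → l + star l = 1 →
      Splitting Z l (2 * n) S → Family ((pairGF Z l (2 * n)).weil R)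
  | oct (Z : Type u) [CommRing Z] [IsDomain Z] [Algebra R Z] [Module.Finite R Z]
      [Algebra.Etale R Z] (c : Fin 8 → Matrix (Fin 8) (Fin 8) Z) (e : Fin 8 → Z)
      (Q : Matrix (Fin 8) (Fin 8) Z) :
      IsUnit (Q + Qᵀ).det → (∀ x, octMul c e x = x ∧ octMul c x e = x) →
      (∀ x y, octMul c x y ⬝ᵥ Q *ᵥ octMul c x y = (x ⬝ᵥ Q *ᵥ x) * (y ⬝ᵥ Q *ᵥ y)) →
      Family ((autGF c).weil R)
  | prod (G H : GF R) : Family G → Family H → Family (G.prod H)

end Pool.Agent.GUS
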