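import Pool.Agent.P.MP_c1f06d_ag.u.SpinM
import Pool.Agent.P.MP_c1f06d_ag.u.GoodB

open Matrix CliffordAlgebra IsLocalRing TensorProduct Pool.Agent.P.MP_c1f06d_ag Pool.Agent.GSD

universe u

namespace Pool.Agent.GU

variable {R : Type u} [CommRing R] {m n : ℕ} {Q : Matrix (Fin m) (Fin m) R}
variable {E : Type u} [CommRing E] [Algebra R E]
variable {T T' : Type u} [CommRing T] [Algebra R T] [CommRing T'] [Algebra R T']
variable (τ : (spinGF Q).Gam E)

/-- The value of the cocycle in the spin group. -/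
noncomputable def sg (a b : E →ₐ[R] T) : Spin Q T := ofPt (τ.γ T PUnit.unit a b)

theorem sg_self (a : E →ₐ[R] T) : (sg τ a a).val.val = 1 := τ.self T PUnit.unit a

theorem sg_mul (a b c : E →ₐ[R] T) :
    (sg τ b c).val.val * (sg τ a b).val.val = (sg τ a c).val.val :=
  (τ.mul T PUnit.unit a b c).symm

theorem sg_map (f : T →ₐ[R] T') (a b : E →ₐ[R] T) :
    clMap Q f (sg τ a b).val.val = (sg τ (f.comp a) (f.comp b)).val.val := by
  obtain ⟨y, hy⟩ := spin_tot (Q := Q) f PUnit.unit PUnit.unit (τ.γ T PUnit.unit a b)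
  have h := τ.map T T' _ _ f a b y hy
  subst h
  exact (sends_iff f _ _).1 hy

variable (M : Mdl Q n)

/-- Its matrix. -/
noncomputable def sm (a b : E →ₐ[R] T) : Matrix (Fin n) (Fin n) T :=
  (M.spin_ind T (sg τ a b)).choose

theorem sm_j (a b : E →ₐ[R] T) : M.J (sg τ a b).val.val (sm τ M a b) :=
  (M.spin_ind T (sg τ a b)).choose_spec.1

theorem sm_cr (a b : E →ₐ[R] T) : M.Cr (sm τ M a b) :=
  (M.spin_ind T (sg τ a b)).choose_spec.2

theorem sm_fix (a b : E →ₐ[R] T) :
    sm τ M a b *ᵥ (algebraMap R T ∘ M.w) = algebraMap R T ∘ M.w :=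
  M.fix T _ _ (Units.isUnit _) (sm_j τ M a b)

theorem sm_self (a : E →ₐ[R] T) : sm τ M a a = 1 := by
  have h := sm_j τ M a a
  rw [sg_self] at h
  exact Mdl.J.unique isUnit_one h M.j_one

theorem sm_mul (a b c : E →ₐ[R] T) : sm τ M b c * sm τ M a b = sm τ M a c := by
  have h := (sm_j τ M b c).mul (sm_j τ M a b)
  rw [sg_mul] at h
  exact Mdl.J.unique (Units.isUnit _) h (sm_j τ M a c)

theorem sm_map (f : T →ₐ[R] T') (a b : E →ₐ[R] T) :
    (sm τ M a b).map f = sm τ M (f.comp a) (f.comp b) := by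
  have h := (sm_j τ M a b).map f
  rw [sg_map] at h
  exact Mdl.J.unique (Units.isUnit _) h (sm_j τ M _ _)

variable {S : Type u} [CommRing S] [Algebra R S]
variable {K : Type u} [Field K] [Algebra R K]

/-- The left leg. -/
noncomputable abbrev il (R K S : Type u) [CommRing R] [CommRing K] [Algebra R K] [CommRing S]
    [Algebra R S] : K →ₐ[R] K ⊗[R] S := Algebra.TensorProduct.includeLeft

/-- The right leg. -/
noncomputable abbrev ir (R K S : Type u) [CommRing R] [CommRing K] [Algebra R K] [CommRing S]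
    [Algebra R S] : S →ₐ[R] K ⊗[R] S := Algebra.TensorProduct.includeRight

variable {τ}

theorem sg_gen {p : E →ₐ[R] K ⊗[R] S} (hp : τ.Gen K p) {a b : K ⊗[R] S →ₐ[R] T}
    (hab : a.comp (il R K S) = b.comp (il R K S)) (x : E →ₐ[R] T) :
    (sg τ x (b.comp p)).val.val = (sg τ x (a.comp p)).val.val := by
  have h : (sg τ (a.comp p) (b.comp p)).val.val = 1 := hp T PUnit.unit a b hab
  rw [← sg_mul τ x (a.comp p) (b.comp p), h, one_mul]

theorem sm_gen {p : E →ₐ[R] K ⊗[R] S} (hp : τ.Gen K p) {a b : K ⊗[R] S →ₐ[R] T}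
    (hab : a.comp (il R K S) = b.comp (il R K S)) (x : E →ₐ[R] T) :
    sm τ M x (b.comp p) = sm τ M x (a.comp p) := by
  have h := sm_j τ M x (b.comp p)
  have h' := sm_j τ M x (a.comp p)
  rw [← sg_gen hp hab] at h'
  exact Mdl.J.unique (Units.isUnit _) h h'

theorem descend_sm [Nontrivial (K ⊗[R] S)] (e : E →ₐ[R] S) {p : E →ₐ[R] K ⊗[R] S}
    (hp : τ.Gen K p) (h : Matrix (Fin n) (Fin n) S)
    (hh : ∀ (T : Type u) [CommRing T] [Algebra R T] (a b : S →ₐ[R] T),
      sm τ M (a.comp e) (b.comp e) * h.map a = h.map b) :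
    ∃ hK : Matrix (Fin n) (Fin n) K,
      hK.map (il R K S) = sm τ M ((ir R K S).comp e) p * h.map (ir R K S) := by
  have key : ∀ i k, ∃ c, il R K S c = (sm τ M ((ir R K S).comp e) p * h.map (ir R K S)) i k := by
    intro i k
    refine desc_field _ fun T _ _ a b hab => ?_
    have e1 : ∀ a : K ⊗[R] S →ₐ[R] T, (sm τ M ((ir R K S).comp e) p * h.map (ir R K S)).map a =
        sm τ M ((a.comp (ir R K S)).comp e) (a.comp p) * h.map (a.comp (ir R K S)) := by
      intro a
      rw [map_mul_algHom, sm_map, map_map_algHom]; rfl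
    have e2 : (sm τ M ((ir R K S).comp e) p * h.map (ir R K S)).map a =
        (sm τ M ((ir R K S).comp e) p * h.map (ir R K S)).map b := by
      rw [e1, e1, ← hh T (a.comp (ir R K S)) (b.comp (ir R K S)), ← Matrix.mul_assoc, sm_mul,
        sm_gen M hp hab]
    exact congrFun (congrFun e2 i) k
  choose c hc using key
  exact ⟨Matrix.of c, Matrix.ext fun i k => hc i k⟩

theorem isLocalHom_of_ff [Module.FaithfullyFlat R S] : IsLocalHom (algebraMap R S) := by
  refine ⟨fun a ha => by_contra fun hna => ?_⟩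
  obtain ⟨N, h1, h2⟩ := exists_max_ideal_of_mem_nonunits hna
  obtain ⟨P, hn, hn'⟩ := Ideal.exists_isPrime_liesOver_of_faithfullyFlat (B := S) N
  rw [hn'.over, Ideal.under, Ideal.mem_comap] at h2
  exact hn.ne_top (P.eq_top_of_isUnit_mem h2 ha)

/-- The cocycle is the coboundary of an isometry over `S` that fixes `w`. -/
theorem exists_sframe [Module.FaithfullyFlat R S] (hS : Rows R S) [Nontrivial (K ⊗[R] S)]
    (HA : ∀ Q' : Matrix (Fin n) (Fin n) R, Unim Q' →
      Iso (Q'.map (algebraMap R K)) (M.Q0.map (algebraMap R K)) → Iso Q' M.Q0)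
    (e : E →ₐ[R] S) {p : E →ₐ[R] K ⊗[R] S} (hp : τ.Gen K p) :
    ∃ h : Matrix (Fin n) (Fin n) S, M.Cr h ∧
      h *ᵥ (algebraMap R S ∘ M.w) = algebraMap R S ∘ M.w ∧
      ∀ (T : Type u) [CommRing T] [Algebra R T] (a b : S →ₐ[R] T),
        sm τ M (a.comp e) (b.comp e) * h.map a = h.map b := by
  have hU0 := M.unim
  obtain ⟨h, hdet, hh⟩ := h90_semi (R := R) (S := S) hS (n := n)
    (fun T _ _ a b => sm τ M (a.comp e) (b.comp e))
    (fun T T' _ _ _ _ f a b => sm_map τ M f _ _) (fun T _ _ a => sm_self τ M _)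
    (fun T _ _ a b c => sm_mul τ M _ _ _)
  obtain ⟨Q', hQ'⟩ := desc_form (R := R) (hᵀ * M.Q0.map (algebraMap R S) * h) (by
    intro T _ _ a b x
    have e1 : ∀ a : S →ₐ[R] T, qv ((hᵀ * M.Q0.map (algebraMap R S) * h).map a) x =
        qv (M.Q0.map (algebraMap R T)) (h.map a *ᵥ x) := by
      intro a
      rw [qv_mulVec, map_mul_algHom, map_mul_algHom, map_algebraMap_algHom, transpose_map]
    rw [e1, e1, ← hh T a b, ← mulVec_mulVec, sm_cr])
  have hc : Carries h (Q'.map (algebraMap R S)) (M.Q0.map (algebraMap R S)) := fun x => by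
    rw [qv_mulVec, hQ']
  have hloc := isLocalHom_of_ff (R := R) (S := S)
  have hU : Unim Q' := Unim.of_map (algebraMap R S) (hc.unim hdet (hU0.map _))
  obtain ⟨hK, hhK⟩ := descend_sm M e hp h hh
  have hcK : Carries hK (Q'.map (algebraMap R K)) (M.Q0.map (algebraMap R K)) := by
    refine Carries.of_mapAlg (il R K S) (RingHom.injective (il R K S).toRingHom) ?_
    rw [hhK]
    exact (hc.mapAlg _).mul (sm_cr τ M _ _)
  obtain ⟨g, hg⟩ := HA Q' hU ⟨hK, hcK⟩
  obtain ⟨h1, hc1, hh1⟩ : ∃ h1 : Matrix (Fin n) (Fin n) S, M.Cr h1 ∧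
      ∀ (T : Type u) [CommRing T] [Algebra R T] (a b : S →ₐ[R] T),
        sm τ M (a.comp e) (b.comp e) * h1.map a = h1.map b := by
    refine ⟨h * g⁻¹.map (algebraMap R S), ((hg.inv (hg.isUnit_det hU)).map _).mul hc, ?_⟩
    intro T _ _ a b
    rw [map_mul_algHom, map_mul_algHom, map_algebraMap_algHom, map_algebraMap_algHom,
      ← Matrix.mul_assoc, hh]
  have hd1 : IsUnit h1.det := hc1.isUnit_det (hU0.map _)
  have e0 : h1 *ᵥ (h1⁻¹ *ᵥ (algebraMap R S ∘ M.w)) = algebraMap R S ∘ M.w := by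
    rw [mulVec_mulVec, mul_nonsing_inv _ hd1, one_mulVec]
  have ez : M.w = 0 → h1⁻¹ *ᵥ (algebraMap R S ∘ M.w) = 0 := fun hw => by
    rw [hw, show (algebraMap R S ∘ (0 : Fin n → R) : Fin n → S) = 0 from
      funext fun _ => map_zero _, mulVec_zero]
  generalize h1⁻¹ *ᵥ (algebraMap R S ∘ M.w) = y at e0 ez
  have inv : ∀ i, ∃ c, algebraMap R S c = y i := fun i => desc_base _ fun T _ _ a b => by
    have e1 : ∀ a : S →ₐ[R] T, h1.map a *ᵥ (a ∘ y) = algebraMap R T ∘ M.w := fun a => by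
      rw [← mulVec_map_algHom, e0, comp_algebraMap_algHom]
    have e2 : h1.map b *ᵥ (a ∘ y) = h1.map b *ᵥ (b ∘ y) := by
      rw [e1 b, ← hh1 T a b, ← mulVec_mulVec, e1 a, sm_fix]
    have e3 := congrArg (fun v => (h1.map b)⁻¹ *ᵥ v) e2
    simp only [mulVec_mulVec, nonsing_inv_mul _ (isUnit_det_mapAlg hd1 b), one_mulVec] at e3
    exact congrFun e3 i
  choose w' hw' using inv
  obtain rfl : algebraMap R S ∘ w' = y := funext hw'
  have hq : qv M.Q0 w' = qv M.Q0 M.w :=
    FaithfulSMul.algebraMap_injective R S (by rw [← qv_map, ← qv_map, ← hc1, e0])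
  obtain ⟨σ, z4, z3⟩ := M.adj w' hq fun hw => funext fun i =>
    FaithfulSMul.algebraMap_injective R S ((congrFun (ez hw) i).trans (map_zero _).symm)
  refine ⟨h1 * σ.map (algebraMap R S), (z4.map _).mul hc1, ?_, fun T _ _ a b => ?_⟩
  · have e1 : σ.map (algebraMap R S) *ᵥ (algebraMap R S ∘ M.w) = algebraMap R S ∘ w' :=
      funext fun i => by rw [← RingHom.map_mulVec, z3]; rfl
    rw [← mulVec_mulVec, e1, e0]
  · rw [map_mul_algHom, map_mul_algHom, map_algebraMap_algHom, map_algebraMap_algHom,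
      ← Matrix.mul_assoc, hh1]

/-- The descended matrix is a product of reflections over `K`. -/
theorem descend_rp [Infinite K] [Nontrivial (K ⊗[R] S)] (e : E →ₐ[R] S) {p : E →ₐ[R] K ⊗[R] S}
    (hp : τ.Gen K p) (h : Matrix (Fin n) (Fin n) S) (hc : M.Cr h)
    (hw : h *ᵥ (algebraMap R S ∘ M.w) = algebraMap R S ∘ M.w)
    (hh : ∀ (T : Type u) [CommRing T] [Algebra R T] (a b : S →ₐ[R] T),
      sm τ M (a.comp e) (b.comp e) * h.map a = h.map b) :
    ∃ l : List (Fin m → K), (∀ v ∈ l, IsUnit (qv (Q.map (algebraMap R K)) v)) ∧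
      (M.rp l).map (il R K S) = sm τ M ((ir R K S).comp e) p * h.map (ir R K S) := by
  have hinf : Infinite (ResidueField K) :=
    Infinite.of_injective (residue K) (RingHom.injective _)
  obtain ⟨hK, hhK⟩ := descend_sm M e hp h hh
  have hjinj : Function.Injective (il R K S) := RingHom.injective (il R K S).toRingHom
  have hcK : M.Cr hK := by
    refine Carries.of_mapAlg (il R K S) hjinj ?_
    rw [hhK]
    exact (hc.mapAlg _).mul (sm_cr τ M _ _)
  have hwK : hK *ᵥ (algebraMap R K ∘ M.w) = algebraMap R K ∘ M.w := by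
    have a1 := mulVec_map_algHom h (algebraMap R S ∘ M.w) (ir R K S)
    have a2 := mulVec_map_algHom hK (algebraMap R K ∘ M.w) (il R K S)
    rw [hw, comp_algebraMap_algHom] at a1
    rw [hhK, comp_algebraMap_algHom, ← mulVec_mulVec, ← a1, sm_fix,
      ← comp_algebraMap_algHom M.w (il R K S)] at a2
    exact funext fun i => hjinj (congrFun a2 i)
  obtain ⟨l, hl, hp⟩ := M.cd K hK hcK hwK
  exact ⟨l, hl, by rw [← hhK, hp]; rfl⟩

/-- Over a product of local rings the coboundary is an even product of reflections. -/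
theorem exists_even_rp [Infinite K] {ι : Type u} [Fintype ι] {L : ι → Type u}
    [∀ i, CommRing (L i)] [∀ i, Algebra R (L i)] [∀ i, IsLocalRing (L i)]
    [∀ i, Infinite (ResidueField (L i))] [∀ i, Nontrivial (K ⊗[R] L i)]
    [Nontrivial (K ⊗[R] ∀ i, L i)] (e : E →ₐ[R] ∀ i, L i) {p : E →ₐ[R] K ⊗[R] ∀ i, L i}
    (hp : τ.Gen K p) (h : Matrix (Fin n) (Fin n) (∀ i, L i)) (hc : M.Cr h)
    (hw : h *ᵥ (algebraMap R _ ∘ M.w) = algebraMap R _ ∘ M.w)
    (hh : ∀ (T : Type u) [CommRing T] [Algebra R T] (a b : (∀ i, L i) →ₐ[R] T),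
      sm τ M (a.comp e) (b.comp e) * h.map a = h.map b) :
    ∃ l : List (Fin m → ∀ i, L i), (∀ v ∈ l, IsUnit (qv (Q.map (algebraMap R _)) v)) ∧
      Even l.length ∧ ∀ (T : Type u) [CommRing T] [Algebra R T] (a b : (∀ i, L i) →ₐ[R] T),
        sm τ M (a.comp e) (b.comp e) * (M.rp l).map a = (M.rp l).map b := by
  obtain ⟨lK, hlK, hK⟩ := descend_rp M e hp h hc hw hh
  have key : ∀ i, ∃ l : List (Fin m → L i), (∀ v ∈ l, IsUnit (qv (Q.map (algebraMap R _)) v)) ∧
      (Even l.length ↔ Even lK.length) ∧ h.map (Pi.evalAlgHom R L i) = M.rp l := fun i => by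
    obtain ⟨l, hl, hp'⟩ := M.cd (L i) (h.map (Pi.evalAlgHom R L i)) (hc.mapAlg _) (by
      rw [← comp_algebraMap_algHom M.w (Pi.evalAlgHom R L i), ← mulVec_map_algHom, hw])
    refine ⟨l, hl, ?_, hp'⟩
    let φ : K ⊗[R] (∀ i, L i) →ₐ[R] K ⊗[R] L i :=
      Algebra.TensorProduct.map (AlgHom.id R K) (Pi.evalAlgHom R L i)
    have e1 : φ.comp (il R K _) = il R K _ := by ext; simp [φ]
    have e2 : φ.comp (ir R K _) = (ir R K _).comp (Pi.evalAlgHom R L i) :=
      Algebra.TensorProduct.map_comp_includeRight _ _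
    have e3 := congrArg (fun g => g.map φ) hK
    simp only [map_mul_algHom, map_map_algHom, sm_map] at e3
    rw [e1, e2, ← map_map_algHom h, hp', M.rp_map hlK] at e3
    erw [M.rp_map hl] at e3
    have := M.parity (Units.isUnit _) (sg τ _ _).2.1 (sm_j τ M _ _) (Mdl.units_map hl _)
      (Mdl.units_map hlK _) e3.symm
    simpa using this
  by_cases he : Even lK.length
  · obtain ⟨l, h1, h2, h3⟩ := M.rp_pi h fun i =>
      (key i).imp fun l hl => ⟨hl.1, hl.2.1.2 he, hl.2.2⟩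
    exact ⟨l, h1, h2, h3 ▸ hh⟩
  · have h0 : ∀ v ∈ [M.v0], IsUnit (qv (Q.map (algebraMap R R)) v) := by
      simpa using M.unit
    obtain ⟨l, h1, h2, h3⟩ := M.rp_pi (h * (M.rp [M.v0]).map (algebraMap R _)) fun i => by
      obtain ⟨l, a1, a2, a3⟩ := key i
      refine ⟨l ++ [algebraMap R _ ∘ M.v0], fun v hv => ?_, ?_, ?_⟩
      · rcases List.mem_append.1 hv with hv | hv
        · exact a1 v hv
        · rw [List.mem_singleton.1 hv]; exact M.unit_v0
      · simpa using (Nat.not_even_iff_odd.1 (mt a2.1 he)).add_one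
      · rw [map_mul_algHom, map_algebraMap_algHom, a3, M.rp_append]
        exact congrArg _ (M.rp_map h0 (Algebra.ofId R (L i)))
    refine ⟨l, h1, h2, fun T _ _ a b => ?_⟩
    rw [← h3, map_mul_algHom, map_mul_algHom, map_algebraMap_algHom, map_algebraMap_algHom,
      ← Matrix.mul_assoc, hh]

end Pool.Agent.GU
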