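import Pool.Agent.P.MP_c1f06d_ag.u.SpinC

open Matrix CliffordAlgebra IsLocalRing TensorProduct Pool.Agent.P.MP_c1f06d_ag Pool.Agent.GSD

universe u

namespace Pool.Agent.GU

variable {R : Type u} [CommRing R] {m n : ℕ} {Q : Matrix (Fin m) (Fin m) R}
variable {E : Type u} [CommRing E] [Algebra R E] {τ : (spinGF Q).Gam E} (M : Mdl Q n)
variable {S : Type u} [CommRing S] [Algebra R S]
variable {K : Type u} [Field K] [Algebra R K]

/-- The cocycle is the coboundary of an even Clifford unit whose norm comes from `R`. -/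
theorem exists_slift [Module.FaithfullyFlat R S] (hS : Rows R S) (e : E →ₐ[R] S)
    (l : List (Fin m → S)) (hl : ∀ v ∈ l, IsUnit (qv (Q.map (algebraMap R S)) v))
    (hle : Even l.length)
    (hh' : ∀ (T : Type u) [CommRing T] [Algebra R T] (a b : S →ₐ[R] T),
      sm τ M (a.comp e) (b.comp e) * (M.rp l).map a = (M.rp l).map b) :
    ∃ (x : Cl Q S) (c : R), IsUnit x ∧ x ∈ even (formOver Q S) ∧ M.J x (M.rp l) ∧ IsUnit c ∧
      reverse x * x = algebraMap S (Cl Q S) (algebraMap R S c) ∧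
      ∀ (T : Type u) [CommRing T] [Algebra R T] (a b : S →ₐ[R] T),
        (sg τ (a.comp e) (b.comp e)).val.val * clMap Q a x = clMap Q b x := by
  have hloc := isLocalHom_of_ff (R := R) (S := S)
  have hyi : M.J (vprod Q l) (M.rp l) := M.vprod_j l hl
  have hyu : IsUnit (vprod Q l) := isUnit_vprod l hl
  have hdet : IsUnit (M.rp l).det := (M.cr_rp hl).isUnit_det (M.unim.map _)
  have hex : ∀ (T : Type u) [CommRing T] [Algebra R T] (a b : S →ₐ[R] T), ∃ c : T,
      (sg τ (a.comp e) (b.comp e)).val.val * clMap Q a (vprod Q l) = c • clMap Q b (vprod Q l) := by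
    intro T _ _ a b
    have h1 := (sm_j τ M (a.comp e) (b.comp e)).mul (hyi.map a)
    rw [hh'] at h1
    exact Mdl.J.exists_smul (isUnit_det_mapAlg hdet b) (hyu.map _) h1 (hyi.map b)
  choose c hcs using hex
  obtain ⟨s, hs, hcs'⟩ := h90_one_semi (R := R) (S := S) hS c
    (fun T T' _ _ _ _ f a b => by
      have h1 := congrArg (clMap Q f) (hcs T a b)
      rw [map_mul, clMap_smul, sg_map, clMap_comp, clMap_comp] at h1
      exact cl_smul_cancel (hyu.map _) (h1.symm.trans (hcs T' (f.comp a) (f.comp b))))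
    (fun T _ _ a => by
      have h1 := hcs T a a
      rw [sg_self] at h1
      refine cl_smul_cancel (Q := Q) (hyu.map (clMap Q a)) ?_
      rw [← h1, one_smul]; exact one_mul _)
    (fun T _ _ a b d => by
      refine cl_smul_cancel (Q := Q) (hyu.map (clMap Q d)) ?_
      rw [← hcs T a d, ← sg_mul τ (a.comp e) (b.comp e) (d.comp e), mul_comm, mul_smul,
        ← hcs T b d, ← mul_smul_comm, ← hcs T a b, ← mul_assoc])
  have hrel : ∀ (T : Type u) [CommRing T] [Algebra R T] (a b : S →ₐ[R] T),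
      (sg τ (a.comp e) (b.comp e)).val.val * clMap Q a (s • vprod Q l) =
        clMap Q b (s • vprod Q l) := by
    intro T _ _ a b
    rw [clMap_smul, clMap_smul, mul_smul_comm, hcs, smul_smul, mul_comm, hcs']
  have hN : reverse (s • vprod Q l) * (s • vprod Q l) = algebraMap S (Cl Q S)
      (s ^ 2 * (l.map (qv (Q.map (algebraMap R S)))).prod) := by
    rw [reverse_smul_mul, reverse_vprod_mul, map_mul, Algebra.smul_def]
  obtain ⟨c0, hc0⟩ := desc_base (R := R) (s ^ 2 * (l.map (qv (Q.map (algebraMap R S)))).prod) (by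
    intro T _ _ a b
    apply cl_algebraMap_injective (Q := Q)
    rw [← clMap_algebraMap, ← clMap_algebraMap, ← hN, map_mul, map_mul, clMap_reverse,
      clMap_reverse, ← hrel T a b, reverse_spin_mul])
  refine ⟨s • vprod Q l, c0, ?_, ?_, hyi.smul s, ?_, by rw [hN, hc0], hrel⟩
  · rw [Algebra.smul_def]; exact (hs.map _).mul hyu
  · have h1 := vprod_mem_evenOdd (Q := Q) l
    rw [(ZMod.natCast_eq_zero_iff_even).2 hle] at h1
    exact Submodule.smul_mem _ s h1
  · refine IsUnit.of_map (algebraMap R S) _ ?_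
    rw [hc0]; exact (hs.pow 2).mul (isUnit_list_prod hl)

/-- The norm is a spinor norm over `K`. -/
theorem sn_sgeneric [Infinite K] [Nontrivial (K ⊗[R] S)] (e : E →ₐ[R] S)
    {p : E →ₐ[R] K ⊗[R] S} (hp : τ.Gen K p) (x : Cl Q S) (l0 : List (Fin m → S))
    (hl0 : ∀ v ∈ l0, IsUnit (qv (Q.map (algebraMap R S)) v)) (hle0 : Even l0.length) (c : R)
    (hx : IsUnit x) (hi : M.J x (M.rp l0))
    (hn : reverse x * x = algebraMap S (Cl Q S) (algebraMap R S c))
    (hh : ∀ (T : Type u) [CommRing T] [Algebra R T] (a b : S →ₐ[R] T),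
      (sg τ (a.comp e) (b.comp e)).val.val * clMap Q a x = clMap Q b x) :
    Sn (Q.map (algebraMap R K)) (algebraMap R K c) := by
  obtain ⟨l, hl, hhK⟩ := descend_rp M e hp (M.rp l0) (M.cr_rp hl0) (M.fix S _ _ hx hi)
    (fun T _ _ a b => by
      have h1 := (sm_j τ M (a.comp e) (b.comp e)).mul (hi.map a)
      rw [hh] at h1
      exact Mdl.J.unique (hx.map _) h1 (hi.map b))
  have hle : Even l.length := by
    have e3 := hhK
    rw [M.rp_map hl, M.rp_map hl0] at e3
    have := M.parity (Units.isUnit _) (sg τ _ _).2.1 (sm_j τ M _ _) (Mdl.units_map hl0 _)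
      (Mdl.units_map hl _) e3.symm
    simpa [hle0] using this
  set j := il R K S with hj
  set i2 := ir R K S with hr
  have hjinj : Function.Injective j := RingHom.injective j.toRingHom
  have hyi : M.J (vprod Q l) (M.rp l) := M.vprod_j l hl
  have hyu : IsUnit (vprod Q l) := isUnit_vprod l hl
  have h1 := (sm_j τ M (i2.comp e) p).mul (hi.map i2)
  rw [← hhK] at h1
  obtain ⟨c', hc'⟩ := Mdl.J.exists_smul
    (isUnit_det_mapAlg ((M.cr_rp hl).isUnit_det (M.unim.map _)) j) (hyu.map _) h1 (hyi.map j)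
  obtain ⟨k, hk⟩ := desc_field c' (fun T _ _ a b hab => by
    have e1 : ∀ a : K ⊗[R] S →ₐ[R] T, a c' • clMap Q (a.comp j) (vprod Q l) =
        (sg τ ((a.comp i2).comp e) (a.comp p)).val.val * clMap Q (a.comp i2) x := by
      intro a
      have h2 := congrArg (clMap Q a) hc'
      rw [map_mul, clMap_smul, sg_map, clMap_comp, clMap_comp] at h2
      exact h2.symm
    refine cl_smul_cancel (Q := Q) (hyu.map (clMap Q (a.comp j))) ?_
    rw [e1, hab, e1, ← hh T (a.comp i2) (b.comp i2), ← mul_assoc, sg_mul, sg_gen hp hab])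
  have hN : algebraMap R K c = k ^ 2 * (l.map (qv (Q.map (algebraMap R K)))).prod := by
    apply hjinj
    apply cl_algebraMap_injective (Q := Q)
    have h2 := reverse_spin_mul (sg τ (i2.comp e) p) (clMap Q i2 x)
    rw [hc', reverse_smul_mul, ← clMap_reverse, ← clMap_reverse, ← map_mul, ← map_mul, hn,
      reverse_vprod_mul, clMap_algebraMap, clMap_algebraMap, AlgHom.commutes] at h2
    rw [AlgHom.commutes, ← h2, map_mul j, map_pow, hk, map_mul, Algebra.smul_def]
  rw [hN]
  exact (sn_sq M.unit_v0 k).mul ⟨l, hle, rfl⟩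

theorem cob_of_rel (e : E →ₐ[R] S) (k : Spin Q S)
    (hk : ∀ (T : Type u) [CommRing T] [Algebra R T] (a b : S →ₐ[R] T),
      (sg τ (a.comp e) (b.comp e)).val.val * clMap Q a k.val.val = clMap Q b k.val.val) :
    τ.Cob e PUnit.unit (toPt k⁻¹) := by
  intro T _ _ c a b ga gb ha hb
  have ha' : clMap Q a (k⁻¹).val.val = ga.val := (sends_iff a _ _).1 ha
  have hb' : clMap Q b (k⁻¹).val.val = gb.val := (sends_iff b _ _).1 hb
  have hinv : (k⁻¹).val.val * k.val.val = 1 := k.val.inv_mul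
  change ga.val = gb.val * (sg τ (a.comp e) (b.comp e)).val.val
  apply ((Units.isUnit k.val).map (clMap Q a)).mul_right_cancel
  rw [mul_assoc, hk, ← ha', ← hb', ← map_mul, ← map_mul, hinv, map_one, map_one]

theorem exists_cob [Module.FaithfullyFlat R S] (hS : Rows R S) [Infinite K] [Nontrivial (K ⊗[R] S)]
    (HB : ∀ c : R, IsUnit c → Sn (Q.map (algebraMap R K)) (algebraMap R K c) → Sn Q c)
    (e : E →ₐ[R] S) {p : E →ₐ[R] K ⊗[R] S} (hp : τ.Gen K p)
    (l0 : List (Fin m → S)) (hl0 : ∀ v ∈ l0, IsUnit (qv (Q.map (algebraMap R S)) v))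
    (hle0 : Even l0.length)
    (hh0 : ∀ (T : Type u) [CommRing T] [Algebra R T] (a b : S →ₐ[R] T),
      sm τ M (a.comp e) (b.comp e) * (M.rp l0).map a = (M.rp l0).map b) :
    ∃ g : SpinPt Q S, τ.Cob e PUnit.unit g := by
  obtain ⟨x, c, hx, hxe, hxi, hcu, hn, hrel⟩ := exists_slift M hS e l0 hl0 hle0 hh0
  obtain ⟨l, hle, hl⟩ := HB c hcu (sn_sgeneric M e hp x l0 hl0 hle0 c hx hxi hn hrel)
  set L : List (Fin m → S) := l.map fun v => algebraMap R S ∘ v with hL
  have hprod : (L.map (qv (Q.map (algebraMap R S)))).prod = algebraMap R S c := by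
    rw [hl, hL, map_list_prod, List.map_map, List.map_map]
    congr 1
    exact List.map_congr_left fun v _ => qv_map Q _ v
  have hLu : ∀ v ∈ L, IsUnit (qv (Q.map (algebraMap R S)) v) := by
    intro v hv
    have h1 : IsUnit (L.map (qv (Q.map (algebraMap R S)))).prod := hprod ▸ hcu.map _
    exact List.prod_isUnit_iff.1 h1 _ (List.mem_map_of_mem hv)
  obtain ⟨cu, rfl⟩ := hcu
  set y : Cl Q S := algebraMap R S (↑cu⁻¹ : R) • (x * vprod Q L) with hy
  have hyu : IsUnit y := by
    rw [hy, Algebra.smul_def]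
    exact (((Units.isUnit _).map _).map _).mul (hx.mul (isUnit_vprod L hLu))
  have hyn : reverse y * y = 1 := by
    rw [hy, reverse_smul_mul, reverse.map_mul, mul_assoc, ← mul_assoc (reverse x), hn,
      ← Algebra.smul_def, mul_smul_comm, reverse_vprod_mul, hprod, Algebra.smul_def,
      Algebra.smul_def, ← map_mul, ← map_mul, ← map_pow, ← map_mul, ← map_mul]
    rw [show (↑cu⁻¹ : R) ^ 2 * (↑cu * ↑cu) = (↑cu⁻¹ * ↑cu) ^ 2 by ring, Units.inv_mul]
    simp
  have hye : y ∈ even (formOver Q S) := by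
    have h1 := vprod_mem_evenOdd (Q := Q) L
    rw [hL, List.length_map, (ZMod.natCast_eq_zero_iff_even).2 hle] at h1
    exact Subalgebra.smul_mem _ (Subalgebra.mul_mem _ hxe h1) _
  have hyi : M.J y (M.rp l0 * M.rp L) := (hxi.mul (M.vprod_j L hLu)).smul _
  have hys : hyu.unit ∈ Spin Q S :=
    M.mem S hyu.unit _ ((M.cr_rp hLu).mul (M.cr_rp hl0)) hye hyn hyi
  refine ⟨_, cob_of_rel e ⟨hyu.unit, hys⟩ fun T _ _ a b => ?_⟩
  have e1 : ∀ a : S →ₐ[R] T, clMap Q a y = algebraMap R T (↑cu⁻¹ : R) •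
      (clMap Q a x * vprod Q (l.map fun v => algebraMap R T ∘ v)) := by
    intro a
    rw [hy, clMap_smul, map_mul, clMap_vprod, AlgHom.commutes, hL, List.map_map]
    congr 4
    funext v i
    simp
  change _ * clMap Q a y = clMap Q b y
  rw [e1, e1, mul_smul_comm, ← mul_assoc, hrel]

theorem spin_gs_of_bijective (Q : Matrix (Fin m) (Fin m) R)
    (hb : Function.Bijective (algebraMap R K)) : (spinGF Q).GS K := by
  intro E _ _ τ S _ _ _ e p hp
  have h1 : Module.FaithfullyFlat R K :=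
    Module.FaithfullyFlat.of_linearEquiv R R (AlgEquiv.ofBijective (Algebra.ofId R K) hb).symm.toLinearEquiv
  refine ⟨K ⊗[R] S, inferInstance, inferInstance, Module.FaithfullyFlat.trans R K _, ir R K S,
    PUnit.unit, _, cob_of_rel _ (sg τ p ((ir R K S).comp e)) fun T _ _ a b => ?_⟩
  have hab : a.comp (il R K S) = b.comp (il R K S) := AlgHom.ext fun x => by
    obtain ⟨y, rfl⟩ := hb.2 x
    rw [AlgHom.commutes, AlgHom.commutes]
  have h2 : (sg τ (a.comp p) (b.comp p)).val.val = 1 := hp T PUnit.unit a b hab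
  rw [sg_map, sg_map, sg_mul, ← sg_mul τ (a.comp p) (b.comp p), h2, mul_one]

/-- The torsor end over a semilocal domain. -/
theorem Mdl.gs [IsDomain R] [Finite (MaximalSpectrum R)] [IsFractionRing R K]
    (HA : ∀ Q' : Matrix (Fin n) (Fin n) R, Unim Q' →
      Iso (Q'.map (algebraMap R K)) (M.Q0.map (algebraMap R K)) → Iso Q' M.Q0)
    (HB : ∀ c : R, IsUnit c → Sn (Q.map (algebraMap R K)) (algebraMap R K c) → Sn Q c) :
    (spinGF Q).GS K := by
  rcases finite_or_infinite K with hfin | hinf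
  · have hR : Finite R := Finite.of_injective _ (IsFractionRing.injective R K)
    exact spin_gs_of_bijective Q ⟨IsFractionRing.injective R K,
      IsFractionRing.surjective_iff_isField.2 (Finite.isField_of_domain R)⟩
  intro E _ _ τ S1 _ _ _ e0 p0 hp0
  obtain ⟨ι, _, _, L, _, _, _, hsep, hff, hfl, hinfL, ⟨j⟩⟩ := exists_semi_cover R S1
  have hS : Rows R (∀ i, L i) := ⟨fun M hM => hsep.rows M hM⟩
  have hp := hp0.map j
  have hnt : Nontrivial (K ⊗[R] ∀ i, L i) := inferInstance
  have hnt' : ∀ i, Nontrivial (K ⊗[R] L i) := fun i =>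
    (Algebra.TensorProduct.includeRight_injective (R := R) (A := K) (B := L i)
      (IsFractionRing.injective R K)).nontrivial
  generalize (Algebra.TensorProduct.map (AlgHom.id R K) j).comp p0 = p at hp
  suffices ∃ g : SpinPt Q (∀ i, L i), τ.Cob (j.comp e0) PUnit.unit g from
    ⟨∀ i, L i, inferInstance, inferInstance, hff, j, PUnit.unit, this⟩
  generalize j.comp e0 = e
  obtain ⟨h, hc, hw, hh⟩ := exists_sframe M hS HA e hp
  obtain ⟨l0, hl0, hle0, hh0⟩ := exists_even_rp M e hp h hc hw hh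
  exact exists_cob M hS HB e hp l0 hl0 hle0 hh0

theorem spin_gs_unim [IsDomain R] [Finite (MaximalSpectrum R)] [IsFractionRing R K] (hQ : Unim Q)
    (hm : 1 ≤ m)
    (HA : ∀ Q' : Matrix (Fin m) (Fin m) R, Unim Q' →
      Iso (Q'.map (algebraMap R K)) (Q.map (algebraMap R K)) → Iso Q' Q)
    (HB : ∀ c : R, IsUnit c → Sn (Q.map (algebraMap R K)) (algebraMap R K c) → Sn Q c) :
    (spinGF Q).GS K :=
  (Mdl.ofUnim hQ (exists_isUnit_qv_semi hQ hm).choose_spec).gs HA HB

theorem spin_gs_semi [IsDomain R] [Finite (MaximalSpectrum R)] [IsFractionRing R K]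
    {r ρ : Fin m → R} (hQ : Semi Q r ρ) (hm : 4 ≤ m)
    (HA : ∀ Q' : Matrix (Fin (m + 1)) (Fin (m + 1)) R, Unim Q' →
      Iso (Q'.map (algebraMap R K)) ((ext Q ρ).map (algebraMap R K)) → Iso Q' (ext Q ρ))
    (HB : ∀ c : R, IsUnit c → Sn (Q.map (algebraMap R K)) (algebraMap R K c) → Sn Q c) :
    (spinGF Q).GS K :=
  (Mdl.ofSemi hQ hm).gs HA HB

end Pool.Agent.GU
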