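import Pool.Agent.P.MP_c1f06d_ag.BTors1
import Pool.Agent.P.MP_c1f06d_ag.d.WT1

open Matrix CliffordAlgebra IsLocalRing TensorProduct Pool.Agent.P.MP_c1f06d_ag

universe u

namespace Pool.Agent.GU

variable {R : Type u} [CommRing R] {m n : ℕ}

/-- The spin group of `Q` acting on a unimodular module of rank `n` and fixing `w`. -/
structure Mdl (Q : Matrix (Fin m) (Fin m) R) (n : ℕ) where
  Q0 : Matrix (Fin n) (Fin n) R
  w : Fin n → R
  v0 : Fin m → R
  emb : ∀ (T : Type u) [CommRing T], (Fin m → T) → (Fin n → T)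
  jm : ∀ (T : Type u) [CommRing T] [Algebra R T], Cl Q T →ₐ[T] Cl Q0 T
  unim : Unim Q0
  unit : IsUnit (qv Q v0)
  emb_map : ∀ (T T' : Type u) [CommRing T] [CommRing T'] (f : T →+* T') (v : Fin m → T),
    f ∘ emb T v = emb T' (f ∘ v)
  jm_ι : ∀ (T : Type u) [CommRing T] [Algebra R T] (v : Fin m → T),
    jm T (ι (formOver Q T) v) = ι (formOver Q0 T) (emb T v)
  inj : ∀ (T : Type u) [CommRing T] [Algebra R T], Function.Injective (jm T)
  qv_emb : ∀ (T : Type u) [CommRing T] [Algebra R T] (v : Fin m → T),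
    qv (Q0.map (algebraMap R T)) (emb T v) = qv (Q.map (algebraMap R T)) v
  spin_ind : ∀ (T : Type u) [CommRing T] [Algebra R T] (x : Spin Q T),
    ∃ g, Ind Q0 (jm T x.val.val) g ∧
      Carries g (Q0.map (algebraMap R T)) (Q0.map (algebraMap R T))
  fix : ∀ (T : Type u) [CommRing T] [Algebra R T] (x : Cl Q T) (g : Matrix (Fin n) (Fin n) T),
    IsUnit x → Ind Q0 (jm T x) g → g *ᵥ (algebraMap R T ∘ w) = algebraMap R T ∘ w
  mem : ∀ (T : Type u) [CommRing T] [Algebra R T] (x : (Cl Q T)ˣ) (g : Matrix (Fin n) (Fin n) T),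
    Carries g (Q0.map (algebraMap R T)) (Q0.map (algebraMap R T)) →
    x.val ∈ even (formOver Q T) → reverse x.val * x.val = 1 → Ind Q0 (jm T x.val) g → x ∈ Spin Q T
  cd : ∀ (T : Type u) [CommRing T] [Algebra R T] [IsLocalRing T] [Infinite (ResidueField T)]
    (g : Matrix (Fin n) (Fin n) T),
    Carries g (Q0.map (algebraMap R T)) (Q0.map (algebraMap R T)) →
    g *ᵥ (algebraMap R T ∘ w) = algebraMap R T ∘ w →
    ∃ l : List (Fin m → T), (∀ v ∈ l, IsUnit (qv (Q.map (algebraMap R T)) v)) ∧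
      g = ((l.map (emb T)).map (reflMat (Q0.map (algebraMap R T)))).prod
  adj : ∀ w' : Fin n → R, qv Q0 w' = qv Q0 w → (w = 0 → w' = 0) →
    ∃ σ, Carries σ Q0 Q0 ∧ σ *ᵥ w = w'

variable {Q : Matrix (Fin m) (Fin m) R}

theorem exists_isUnit_qv_semi [Finite (MaximalSpectrum R)] (h : Unim Q) (hm : 1 ≤ m) :
    ∃ v, IsUnit (qv Q v) := by
  have key : ∀ N : MaximalSpectrum R, ∃ z : Fin m → R ⧸ N.1, ∀ y : Fin m → R,
      Ideal.Quotient.mk N.1 ∘ y = z → qv Q y ∉ N.1 := fun N => by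
    have := N.2
    let _ := Ideal.Quotient.field N.1
    obtain ⟨z, hz⟩ := (h.map (Ideal.Quotient.mk N.1)).exists_isUnit_qv hm
    refine ⟨z, ?_⟩
    rintro y rfl
    rw [qv_map] at hz
    exact mt Ideal.Quotient.eq_zero_iff_mem.2 hz.ne_zero
  choose z hz using key
  choose y hy using fun i => Ideal.pi_quotient_surjective (I := fun N : MaximalSpectrum R => N.1)
    (fun _ _ => MaximalSpectrum.isCoprime_of_ne) fun N => z N i
  refine ⟨y, by_contra fun e => ?_⟩
  obtain ⟨N, h1, h2⟩ := exists_max_ideal_of_mem_nonunits e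
  exact hz ⟨N, h1⟩ y (funext fun i => hy i _) h2

/-- The model of a unimodular form. -/
noncomputable def Mdl.ofUnim (h : Unim Q) {v0 : Fin m → R} (h0 : IsUnit (qv Q v0)) : Mdl Q m where
  Q0 := Q
  w := 0
  v0 := v0
  emb _ _ v := v
  jm T _ _ := AlgHom.id T _
  unim := h
  unit := h0
  emb_map _ _ _ _ _ _ := rfl
  jm_ι _ _ _ _ := rfl
  inj _ _ _ := Function.injective_id
  qv_emb _ _ _ _ := rfl
  spin_ind _ _ _ x := Pool.Agent.P.MP_c1f06d_ag.spin_ind x
  fix T _ _ _ g _ _ := by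
    rw [show (algebraMap R T ∘ (0 : Fin m → R) : Fin m → T) = 0 from funext fun _ => map_zero _,
      mulVec_zero]
  mem _ _ _ _ _ hc he hn hi := mem_spin (hc.isUnit_det (h.map _)) he hn hi
  cd _ _ _ _ _ _ hc _ := by simpa using cartan_dieudonne (h.map _) hc
  adj w' _ h1 := ⟨1, carries_one, by rw [h1 rfl, mulVec_zero]⟩

/-- The model of the sum of a line and a unimodular form. -/
noncomputable def Mdl.ofSemi [Finite (MaximalSpectrum R)] {r ρ : Fin m → R} (h : Semi Q r ρ)
    (hm : 4 ≤ m) : Mdl Q (m + 1) where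
  Q0 := ext Q ρ
  w := wvec Q r
  v0 := r
  emb _ _ v := Fin.cons 0 v
  jm T _ _ := jmap Q ρ T
  unim := h.unim_ext
  unit := h.unit
  emb_map _ _ _ _ f v := by rw [comp_cons, map_zero]
  jm_ι _ _ _ v := jmap_ι v
  inj _ _ _ := jmap_injective
  qv_emb _ _ _ v := qv_ext_cons0 v
  spin_ind _ _ _ x := h.spin_ind x
  fix _ _ _ _ _ hx hg := h.ind_fix hx hg
  mem _ _ _ _ _ hc he hn hi := h.mem_spin hc he hn hi
  cd _ _ _ _ _ _ hc hw := h.exists_rprod hc hw
  adj w' hq _ := by
    have hu : IsUnit (qv (ext Q ρ) (wvec Q r)) := by rw [h.qv_wvec]; exact h.unit.neg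
    obtain ⟨z, z1, z2⟩ := exists_two_refl h.unim_ext (by omega) hq hu
    refine ⟨_, (carries_reflMat z1).mul (carries_reflMat z2), ?_⟩
    rw [← mulVec_mulVec, reflMat_mulVec, reflMat_mulVec]
    exact refl_sub (by rw [qv_refl z1, hq]) z2

namespace Mdl

variable (M : Mdl Q n)
variable {T T' : Type u} [CommRing T] [Algebra R T] [CommRing T'] [Algebra R T']

/-- `x` induces `g`. -/
def J (x : Cl Q T) (g : Matrix (Fin n) (Fin n) T) : Prop := Ind M.Q0 (M.jm T x) g

/-- `g` is an isometry. -/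
abbrev Cr (g : Matrix (Fin n) (Fin n) T) : Prop :=
  Carries g (M.Q0.map (algebraMap R T)) (M.Q0.map (algebraMap R T))

/-- The product of the reflections in a list of vectors. -/
noncomputable def rp (l : List (Fin m → T)) : Matrix (Fin n) (Fin n) T :=
  ((l.map (M.emb T)).map (reflMat (M.Q0.map (algebraMap R T)))).prod

theorem jm_clMap (f : T →ₐ[R] T') (x : Cl Q T) :
    M.jm T' (clMap Q f x) = clMap M.Q0 f (M.jm T x) := by
  induction x using CliffordAlgebra.induction with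
  | algebraMap r => rw [clMap_algebraMap, AlgHom.commutes, AlgHom.commutes, clMap_algebraMap]
  | ι v => rw [clMap_ι, M.jm_ι, M.jm_ι, clMap_ι]; exact congrArg _ (M.emb_map T T' f v).symm
  | mul a b ha hb => rw [map_mul, map_mul, map_mul, map_mul, ha, hb]
  | add a b ha hb => rw [map_add, map_add, map_add, map_add, ha, hb]

theorem jm_vprod (l : List (Fin m → T)) :
    M.jm T (vprod Q l) = vprod M.Q0 (l.map (M.emb T)) := by
  induction l with
  | nil => rw [cliff_nil, map_one, List.map_nil, cliff_nil]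
  | cons a l ih => rw [cliff_cons, map_mul, M.jm_ι, ih, List.map_cons, cliff_cons]

theorem j_one : M.J (1 : Cl Q T) 1 := by
  rw [J, map_one]; exact ind_one

variable {M}

theorem J.mul {x y : Cl Q T} {h k : Matrix (Fin n) (Fin n) T} (hx : M.J x h) (hy : M.J y k) :
    M.J (x * y) (h * k) := by
  rw [J, map_mul]; exact Ind.mul hx hy

theorem J.smul {x : Cl Q T} {h : Matrix (Fin n) (Fin n) T} (hx : M.J x h) (c : T) :
    M.J (c • x) h := by
  rw [J, map_smul]; exact Ind.smul hx c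

theorem J.map {x : Cl Q T} {h : Matrix (Fin n) (Fin n) T} (hx : M.J x h) (f : T →ₐ[R] T') :
    M.J (clMap Q f x) (h.map f) := by
  rw [J, jm_clMap]; exact Ind.map hx f

theorem J.unique {x : Cl Q T} {h k : Matrix (Fin n) (Fin n) T} (hu : IsUnit x) (hx : M.J x h)
    (hk : M.J x k) : h = k :=
  Ind.unique (hu.map (M.jm T)) hx hk

theorem J.exists_smul {x y : Cl Q T} {h : Matrix (Fin n) (Fin n) T} (hh : IsUnit h.det)
    (hu : IsUnit y) (hx : M.J x h) (hy : M.J y h) : ∃ c : T, x = c • y := by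
  obtain ⟨c, hc⟩ := Ind.exists_smul M.unim hh (hu.map (M.jm T)) hx hy
  exact ⟨c, M.inj T (by rw [map_smul, hc])⟩

variable (M)

theorem rp_aux {l : List (Fin m → T)} (hl : ∀ v ∈ l, IsUnit (qv (Q.map (algebraMap R T)) v)) :
    ∀ v ∈ l.map (M.emb T), IsUnit (qv (M.Q0.map (algebraMap R T)) v) := fun v hv => by
  obtain ⟨x, hx, rfl⟩ := List.mem_map.1 hv
  rw [M.qv_emb]
  exact hl x hx

theorem vprod_j (l : List (Fin m → T)) (hl : ∀ v ∈ l, IsUnit (qv (Q.map (algebraMap R T)) v)) :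
    M.J (vprod Q l) (M.rp l) := by
  rw [J, jm_vprod]
  exact vprod_ind _ (M.rp_aux hl)

theorem rp_cons (a : Fin m → T) (l : List (Fin m → T)) :
    M.rp (a :: l) = reflMat (M.Q0.map (algebraMap R T)) (M.emb T a) * M.rp l := by
  simp [rp]

theorem rp_append (l l' : List (Fin m → T)) : M.rp (l ++ l') = M.rp l * M.rp l' := by
  simp [rp]

theorem cr_rp {l : List (Fin m → T)} (hl : ∀ v ∈ l, IsUnit (qv (Q.map (algebraMap R T)) v)) :
    M.Cr (M.rp l) := by
  induction l with
  | nil => simpa [rp] using carries_one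
  | cons a l ih =>
    rw [rp_cons]
    exact (ih fun v hv => hl v (List.mem_cons_of_mem a hv)).mul
      (carries_reflMat (by rw [M.qv_emb]; exact hl a List.mem_cons_self))

theorem qv_alg (Q : Matrix (Fin m) (Fin m) R) (f : T →ₐ[R] T') (v : Fin m → T) :
    qv (Q.map (algebraMap R T')) (f ∘ v) = f (qv (Q.map (algebraMap R T)) v) := by
  rw [← map_algebraMap_algHom Q f]
  exact qv_map _ f.toRingHom v

theorem units_map {l : List (Fin m → T)} (hl : ∀ v ∈ l, IsUnit (qv (Q.map (algebraMap R T)) v))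
    (f : T →ₐ[R] T') : ∀ v ∈ l.map fun v => (f ∘ v : Fin m → T'),
      IsUnit (qv (Q.map (algebraMap R T')) v) := fun v hv => by
  obtain ⟨x, hx, rfl⟩ := List.mem_map.1 hv
  rw [qv_alg]
  exact (hl x hx).map f

theorem rp_map {l : List (Fin m → T)} (hl : ∀ v ∈ l, IsUnit (qv (Q.map (algebraMap R T)) v))
    (f : T →ₐ[R] T') : (M.rp l).map f = M.rp (l.map fun v => f ∘ v) := by
  have h := (M.vprod_j l hl).map f
  rw [clMap_vprod] at h
  exact J.unique (isUnit_vprod _ (units_map hl f)) h (M.vprod_j _ (units_map hl f))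

theorem unit_v0 : IsUnit (qv (Q.map (algebraMap R T)) (algebraMap R T ∘ M.v0)) := by
  rw [qv_map]; exact M.unit.map _

/-- An even unit does not change the parity. -/
theorem parity [Nontrivial T] {x : Cl Q T} {g : Matrix (Fin n) (Fin n) T} (hx : IsUnit x)
    (he : x ∈ even (formOver Q T)) (hg : M.J x g) {l l' : List (Fin m → T)}
    (hl : ∀ v ∈ l, IsUnit (qv (Q.map (algebraMap R T)) v))
    (hl' : ∀ v ∈ l', IsUnit (qv (Q.map (algebraMap R T)) v)) (h : g * M.rp l = M.rp l') :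
    (Even l.length ↔ Even l'.length) := by
  have h1 := hg.mul (M.vprod_j l hl)
  rw [h] at h1
  obtain ⟨c, hc⟩ := J.exists_smul ((M.cr_rp hl').isUnit_det (M.unim.map _)) (isUnit_vprod l' hl')
    h1 (M.vprod_j l' hl')
  have h2 : x * vprod Q l ∈ evenOdd (formOver Q T) (l.length : ZMod 2) := by
    have := SetLike.mul_mem_graded (A := evenOdd (formOver Q T)) (i := 0) he
      (vprod_mem_evenOdd (Q := Q) l)
    rwa [zero_add] at this
  have h3 : x * vprod Q l ∈ evenOdd (formOver Q T) (l'.length : ZMod 2) :=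
    hc ▸ Submodule.smul_mem _ c (vprod_mem_evenOdd l')
  have : Nontrivial (Cl Q T) := (cl_algebraMap_injective (Q := Q)).nontrivial
  have h4 : x * vprod Q l ≠ 0 := (hx.mul (isUnit_vprod l hl)).ne_zero
  rcases Nat.even_or_odd l.length with a | a <;> rcases Nat.even_or_odd l'.length with b | b
  · exact iff_of_true a b
  · rw [(ZMod.natCast_eq_zero_iff_even).2 a] at h2
    rw [(ZMod.natCast_eq_one_iff_odd).2 b] at h3
    exact absurd (eq_zero_of_even_odd h2 h3) h4
  · rw [(ZMod.natCast_eq_zero_iff_even).2 b] at h3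
    rw [(ZMod.natCast_eq_one_iff_odd).2 a] at h2
    exact absurd (eq_zero_of_even_odd h3 h2) h4
  · exact iff_of_false (Nat.not_even_iff_odd.2 a) (Nat.not_even_iff_odd.2 b)

theorem pad {l : List (Fin m → T)} (hl : ∀ v ∈ l, IsUnit (qv (Q.map (algebraMap R T)) v)) (k : ℕ) :
    ∃ l' : List (Fin m → T), (∀ v ∈ l', IsUnit (qv (Q.map (algebraMap R T)) v)) ∧
      l'.length = l.length + 2 * k ∧ M.rp l' = M.rp l := by
  induction k with
  | zero => exact ⟨l, hl, rfl, rfl⟩
  | succ k ih =>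
    obtain ⟨l', h1, h2, h3⟩ := ih
    refine ⟨(algebraMap R T ∘ M.v0) :: (algebraMap R T ∘ M.v0) :: l', ?_, ?_, ?_⟩
    · simpa using ⟨M.unit_v0, h1⟩
    · simp only [List.length_cons, h2]; ring
    · rw [rp_cons, rp_cons, ← Matrix.mul_assoc,
        reflMat_mul_self (by rw [M.qv_emb]; exact M.unit_v0), Matrix.one_mul, h3]

end Mdl

theorem exists_list_pi {ι : Type u} {X : ι → Type u} (N : ℕ) :
    ∀ l : ∀ i, List (Fin m → X i), (∀ i, (l i).length = N) →
      ∃ l' : List (Fin m → ∀ i, X i), l'.length = N ∧ ∀ i, (l'.map fun v j => v j i) = l i := by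
  induction N with
  | zero => exact fun l hl => ⟨[], rfl, fun i => (List.length_eq_zero_iff.1 (hl i)).symm⟩
  | succ N ih =>
    intro l hl
    choose a t ht using fun i => List.exists_cons_of_length_eq_add_one (hl i)
    obtain ⟨l', h1, h2⟩ := ih t fun i => by simpa [ht] using hl i
    exact ⟨(fun j i => a i j) :: l', by simp [h1], fun i => by rw [List.map_cons, h2, ht]⟩

/-- A matrix over a product that is an even product of reflections over every factor. -/
theorem Mdl.rp_pi (M : Mdl Q n) {ι : Type u} [Fintype ι] {L : ι → Type u} [∀ i, CommRing (L i)]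
    [∀ i, Algebra R (L i)] (g : Matrix (Fin n) (Fin n) (∀ i, L i))
    (h : ∀ i, ∃ l : List (Fin m → L i), (∀ v ∈ l, IsUnit (qv (Q.map (algebraMap R (L i))) v)) ∧
      Even l.length ∧ g.map (Pi.evalAlgHom R L i) = M.rp l) :
    ∃ l : List (Fin m → ∀ i, L i), (∀ v ∈ l, IsUnit (qv (Q.map (algebraMap R (∀ i, L i))) v)) ∧
      Even l.length ∧ g = M.rp l := by
  choose l h1 h2 h3 using h
  choose k hk using h2
  have hle : ∀ i, k i ≤ ∑ j, k j := fun i =>
    Finset.single_le_sum (fun _ _ => Nat.zero_le _) (Finset.mem_univ i)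
  choose l' a1 a2 a3 using fun i => M.pad (h1 i) (∑ j, k j - k i)
  obtain ⟨L', b1, b2⟩ := exists_list_pi (2 * ∑ j, k j) l' fun i => by
    have := hle i
    rw [a2, hk]; omega
  have hu : ∀ v ∈ L', IsUnit (qv (Q.map (algebraMap R (∀ i, L i))) v) := fun v hv =>
    Pi.isUnit_iff.2 fun i => by
      have := a1 i (fun j => v j i) (b2 i ▸ List.mem_map_of_mem hv)
      rwa [show (fun j => v j i) = Pi.evalAlgHom R L i ∘ v from rfl, Mdl.qv_alg] at this
  refine ⟨L', hu, b1 ▸ even_two_mul _, Matrix.ext fun a b => funext fun i => ?_⟩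
  have e := M.rp_map hu (Pi.evalAlgHom R L i)
  rw [show (L'.map fun v => (Pi.evalAlgHom R L i ∘ v : Fin m → L i)) = l' i from b2 i, a3,
    ← h3] at e
  exact (congrFun (congrFun e a) b).symm

end Pool.Agent.GU
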