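import Pool.Agent.P.MP_c1f06d_ag.u.Str

open TensorProduct

universe u

namespace Pool.Agent.GU

variable {R Z : Type u} [CommRing R] [CommRing Z] [Algebra R Z]

section
variable {T T' T'' : Type u} [CommRing T] [Algebra R T] [CommRing T'] [Algebra R T']
  [CommRing T''] [Algebra R T'']

theorem wm_comp (f : T →ₐ[R] T') (g : T' →ₐ[R] T'') :
    (weilMap Z g).comp (weilMap Z f) = weilMap Z (g.comp f) :=
  (Algebra.TensorProduct.map_comp (AlgHom.id Z Z) (AlgHom.id Z Z) g f).symm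

theorem wm_inj [Module.Flat R Z] {f : T →ₐ[R] T'} (hf : Function.Injective f) :
    Function.Injective (weilMap Z f) :=
  Module.Flat.lTensor_preserves_injective_linearMap f.toLinearMap hf

end

section
variable {T U : Type u} [CommRing T] [Algebra R T] [CommRing U] [Algebra Z U] [Algebra R U]
  [IsScalarTower R Z U]

/-- Restriction to the second factor. -/
noncomputable def wres (a : Z ⊗[R] T →ₐ[Z] U) : T →ₐ[R] U :=
  (a.restrictScalars R).comp Algebra.TensorProduct.includeRight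

variable (R Z U) in
/-- The multiplication map. -/
noncomputable def wmu : Z ⊗[R] U →ₐ[Z] U :=
  Algebra.TensorProduct.lift (Algebra.ofId Z U) (AlgHom.id R U) fun _ _ => Commute.all _ _

theorem wmu_wres (a : Z ⊗[R] T →ₐ[Z] U) : (wmu R Z U).comp (weilMap Z (wres a)) = a := by
  ext t
  simp [wmu, weilMap, wres]

theorem wres_weilMap {S : Type u} [CommRing S] [Algebra R S] (m : Z ⊗[R] T →ₐ[Z] U)
    (a : S →ₐ[R] T) : wres (m.comp (weilMap Z a)) = (wres m).comp a := by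
  ext t
  simp [weilMap, wres]

end

variable {H : GF Z}

namespace GF.Str

variable (Γ : H.Str)

variable (R) in
/-- The transport of the Weil restriction. -/
noncomputable def weil [Module.Flat R Z] : (H.weil R).Str where
  tr c c' f x := Γ.tr c c' (weilMap Z f) x
  of_isMap h := Γ.of_isMap h
  tr_tr c c' c'' f g x := (Γ.tr_tr c c' c'' _ _ x).trans (by rw [wm_comp])
  tr_inj c c' _ hf := Γ.tr_inj c c' (wm_inj hf)
  tr_one c' _ _ h := Γ.tr_one c' _ h
  tr_mul c' _ _ _ _ h := Γ.tr_mul c' _ h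
  ch f c := Γ.ch (weilMap Z f) c
  mul x y := Γ.mul x y
  uniq h h' := Γ.uniq h h'
  assoc h h' := Γ.assoc h h'
  one_mul h h' := Γ.one_mul h h'

variable [Module.Flat R Z] {S : Type u} [CommRing S] [Algebra R S] {Γ}
  (τ : (Γ.weil R).gf.Gam S) (c0 : H.Ch (Z ⊗[R] S))

section
variable {T U : Type u} [CommRing T] [Algebra R T] [CommRing U] [Algebra Z U] [Algebra R U]
  [IsScalarTower R Z U]

/-- The cocycle over `Z`. -/
noncomputable def wg (c : H.Ch U) (a b : Z ⊗[R] S →ₐ[Z] U) : H.Pt U c :=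
  Γ.tr (Γ.ch (weilMap Z (wres a)) c0) c (wmu R Z U) (τ.γ U _ (wres a) (wres b))

theorem wg_eq (c : H.Ch (Z ⊗[R] T)) (c' : H.Ch U) (m : Z ⊗[R] T →ₐ[Z] U) (a b : S →ₐ[R] T) :
    wg τ c0 c' (m.comp (weilMap Z a)) (m.comp (weilMap Z b)) = Γ.tr c c' m (τ.γ T c a b) := by
  have h := (Γ.weil R).nat τ c (Γ.ch (weilMap Z (wres (m.comp (weilMap Z a)))) c0) (wres m) a b
  rw [← wres_weilMap, ← wres_weilMap] at h
  rw [wg, ← h]
  exact (Γ.tr_tr _ _ _ _ _ _).trans (by rw [wmu_wres])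

theorem wg_eq' (c : H.Ch (Z ⊗[R] U)) (c' : H.Ch U) (a b : Z ⊗[R] S →ₐ[Z] U) :
    wg τ c0 c' a b = Γ.tr c c' (wmu R Z U) (τ.γ U c (wres a) (wres b)) := by
  rw [← wg_eq τ c0, wmu_wres, wmu_wres]

end

variable (R Z) in
/-- A `Z`-algebra as an `R`-algebra. -/
abbrev resAlg (U : Type u) [CommRing U] [Algebra Z U] : Algebra R U :=
  ((algebraMap Z U).comp (algebraMap R Z)).toAlgebra

variable (R Z) in
omit [Module.Flat R Z] in
theorem resTower (U : Type u) [CommRing U] [Algebra Z U] :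
    letI := resAlg R Z U; IsScalarTower R Z U :=
  letI := resAlg R Z U; IsScalarTower.of_algebraMap_eq fun _ => rfl

/-- The cocycle over `Z`. -/
noncomputable def wGam : Γ.gf.Gam (Z ⊗[R] S) :=
  Γ.mkGam (fun U _ _ c a b => letI := resAlg R Z U; haveI := resTower R Z U; wg τ c0 c a b)
    (fun U _ _ c a => letI := resAlg R Z U; haveI := resTower R Z U; Γ.tr_one c _ (τ.self U _ _))
    (fun U _ _ c a a' a'' => by
      let _ := resAlg R Z U
      have := resTower R Z U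
      let c1 := Γ.ch (weilMap Z (wres a)) c0
      rw [wg_eq' τ c0 c1, wg_eq' τ c0 c1, wg_eq' τ c0 c1]
      exact Γ.tr_mul c _ (τ.mul U c1 _ _ _))
    fun U U' _ _ _ _ c c' f a b => by
      let _ := resAlg R Z U
      have := resTower R Z U
      let _ := resAlg R Z U'
      have := resTower R Z U'
      let c1 := Γ.ch (weilMap Z (wres a)) c0
      have h := wg_eq τ c0 c1 c' (f.comp (wmu R Z U)) (wres a) (wres b)
      rw [AlgHom.comp_assoc, AlgHom.comp_assoc, wmu_wres, wmu_wres] at h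
      rw [wg_eq' τ c0 c1, h]
      exact Γ.tr_tr _ _ _ _ _ _

theorem wGam_eq {T U : Type u} [CommRing T] [Algebra R T] [CommRing U] [Algebra Z U]
    (c : H.Ch (Z ⊗[R] T)) (c' : H.Ch U) (m : Z ⊗[R] T →ₐ[Z] U) (a b : S →ₐ[R] T) :
    (wGam τ c0).γ U c' (m.comp (weilMap Z a)) (m.comp (weilMap Z b)) =
      Γ.tr c c' m (τ.γ T c a b) :=
  letI := resAlg R Z U; haveI := resTower R Z U; wg_eq τ c0 c c' m a b

theorem wGam_eq' {T : Type u} [CommRing T] [Algebra R T] (c : H.Ch (Z ⊗[R] T))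
    (a b : S →ₐ[R] T) : (wGam τ c0).γ _ c (weilMap Z a) (weilMap Z b) = τ.γ T c a b := by
  have h := wGam_eq τ c0 c c (weilMap Z (AlgHom.id R T)) a b
  rw [wm_comp, wm_comp] at h
  exact h.trans ((Γ.weil R).nat τ c c (AlgHom.id R T) a b)

variable (Γ) {K F : Type u} [CommRing K] [Algebra R K] [CommRing F] [Algebra Z F] [Algebra R F]
  [IsScalarTower R Z F]

theorem gf_weil (κ : K →ₐ[R] F)
    (h0 : ∃ (S : Type u) (_ : CommRing S) (_ : Algebra R S),
      Module.FaithfullyFlat R S ∧ Nonempty (H.Ch (Z ⊗[R] S)))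
    (href : ∀ (L : Type u) [CommRing L] [Algebra Z L] [Module.FaithfullyFlat Z L],
      ∃ (S : Type u) (_ : CommRing S) (_ : Algebra R S),
        Module.FaithfullyFlat R S ∧ Nonempty (L →ₐ[Z] Z ⊗[R] S))
    (h : Γ.gf.GS F) : (Γ.weil R).gf.GS K := by
  refine (Γ.weil R).gs_of_chart h0 fun S _ _ τ S1 _ _ _ e p c0 hp => ?_
  let ι0 : K ⊗[R] S1 →ₐ[R] F ⊗[Z] (Z ⊗[R] S1) := Algebra.TensorProduct.productMap
    (Algebra.TensorProduct.includeLeft.comp κ) (wres Algebra.TensorProduct.includeRight)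
  let m0 : Z ⊗[R] (K ⊗[R] S1) →ₐ[Z] F ⊗[Z] (Z ⊗[R] S1) := (wmu R Z _).comp (weilMap Z ι0)
  obtain ⟨L, _, _, _, j, c, g, hg⟩ := h (Z ⊗[R] S) (wGam τ c0) (Z ⊗[R] S1) (weilMap Z e)
    (m0.comp (weilMap Z p)) fun U _ _ c a b hab => by
      let _ := resAlg R Z U
      have := resTower R Z U
      let c1 := Γ.ch (weilMap Z (wres (a.comp (m0.comp (weilMap Z p))))) c0
      change H.IsOne U c (wg τ c0 c _ _)
      rw [wg_eq' τ c0 c1, ← AlgHom.comp_assoc a, ← AlgHom.comp_assoc b, wres_weilMap _ p,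
        wres_weilMap _ p]
      refine Γ.tr_one c _ (hp U c1 _ _ (AlgHom.ext fun k => ?_))
      have e1 : ∀ a : F ⊗[Z] (Z ⊗[R] S1) →ₐ[Z] U, wres (a.comp m0) (k ⊗ₜ[R] 1) = a (κ k ⊗ₜ[Z] 1) :=
        fun a => by simp [wres, m0, wmu, weilMap, ι0, Algebra.TensorProduct.one_def]
      exact (e1 a).trans ((AlgHom.congr_fun hab (κ k)).trans (e1 b).symm)
  obtain ⟨S2, _, _, _, ⟨ρ⟩⟩ := href L
  let il : S1 →ₐ[R] S1 ⊗[R] S2 := Algebra.TensorProduct.includeLeft
  let c1 := Γ.ch (weilMap Z (il.comp e)) c0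
  obtain ⟨g', hg'⟩ := cob_shift (cob_push hg
    ((weilMap Z Algebra.TensorProduct.includeRight).comp ρ) c1) (weilMap Z (il.comp e))
  refine ⟨S1 ⊗[R] S2, inferInstance, inferInstance, Module.FaithfullyFlat.trans R S1 _, il, c1, g',
    cob_iff.2 fun T _ _ c' a b => ?_⟩
  have := cob_iff.1 hg' (Z ⊗[R] T) c' (weilMap Z a) (weilMap Z b)
  rw [wm_comp, wm_comp] at this
  exact wGam_eq' τ c0 c' (a.comp (il.comp e)) (b.comp (il.comp e)) ▸ this

/-- The Weil restriction inherits the property from the semilocal base. -/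
theorem gs_weil (κ : K →ₐ[R] F) (hW : (H.weil R).Good)
    (href : ∀ (L : Type u) [CommRing L] [Algebra Z L] [Module.FaithfullyFlat Z L],
      ∃ (S : Type u) (_ : CommRing S) (_ : Algebra R S),
        Module.FaithfullyFlat R S ∧ Nonempty (L →ₐ[Z] Z ⊗[R] S))
    (h : Γ.gf.GS F) : (H.weil R).GS K :=
  (Γ.weil R).gs_of_gf hW (Γ.gf_weil κ hW.chart href h)

end GF.Str

end Pool.Agent.GU
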